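import Pool.Agent.H.MP_fc2485_gt.Ca.Defs

/-!
The complex gradient of the potential is defined on the surface in case A.
-/

set_option maxSynthPendingDepth 3

open Set Filter Topology InnerProductSpace MeasureTheory
open scoped ContDiff

namespace Stek.Ca

open Stek Surface Sv GCell

variable {S : Type*} [TopologicalSpace S] {M : Surface S} {σ : ℝ} {m : ℕ} {e : Fin m → S → ℝ}
  {G : Bl m}

/-- the complex gradient of the potential in a cell -/
noncomputable def gC (κ : ℝ) (c : GCell M e G) (z : ℂ) : ℂ :=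
  gg G κ (c.Y z) (c.E z) (Fv c.φ e 0 z)

/-- all reachable solutions are proportional -/
def CaseA (M : Surface S) (e : Fin m → S → ℝ) (G : Bl m) : Prop :=
  ∀ C C', IsCC M C → IsCC M C' → ∀ c c' : GCell M e G, Reach C c → Reach C' c' → CoProp c c'

private theorem cov_tt (t : ℂ) : t * star t = ((‖t‖ ^ 2 : ℝ) : ℂ) := by
  have h5 := Complex.mul_conj t
  rw [Complex.normSq_eq_norm_sq] at h5
  exact h5

theorem nn_smul (G : Bl m) (Y : V m) (t : ℂ) : nn G (t • Y) = ‖t‖ ^ 2 * nn G Y := by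
  have h3 : G (star (t • Y)) (t • Y) = ((‖t‖ ^ 2 : ℝ) : ℂ) * G (star Y) Y := by
    rw [star_smul, map_smul, map_smul, smul_apply, smul_eq_mul, smul_eq_mul,
      ← cov_tt]
    ring
  unfold nn
  rw [h3, Complex.re_ofReal_mul]

theorem ss_smul (G : Bl m) (κ : ℝ) (Y : V m) (E t : ℂ) :
    ss G κ (t • Y) (t * E) = ‖t‖ ^ 2 * ss G κ Y E := by
  unfold ss
  rw [nn_smul, norm_mul]
  have h1 : (‖t‖ ^ 2 * nn G Y) ^ 2 - κ * (‖t‖ * ‖E‖) ^ 4 =
      (‖t‖ ^ 2) ^ 2 * (nn G Y ^ 2 - κ * ‖E‖ ^ 4) := by ring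
  rw [h1, Real.sqrt_mul (by positivity), Real.sqrt_sq (by positivity)]

theorem gg_smul (G : Bl m) (κ : ℝ) (Y F : V m) (E : ℂ) {t : ℂ} (ht : t ≠ 0) :
    gg G κ (t • Y) (t * E) F = gg G κ Y E F := by
  have hn : (((‖t‖ ^ 2 : ℝ) : ℂ)) ≠ 0 := by
    rw [← cov_tt]
    exact mul_ne_zero ht (star_ne_zero.2 ht)
  unfold gg
  rw [nn_smul, ss_smul, star_smul, map_smul, map_smul, norm_mul]
  rw [smul_apply, smul_eq_mul, smul_eq_mul]
  have h1 : t * E * (star t * G F (star Y)) *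
      ((‖t‖ ^ 2 * ss G κ Y E + ‖t‖ ^ 2 * nn G Y : ℝ) : ℂ) -
      ((κ * (‖t‖ * ‖E‖) ^ 2 : ℝ) : ℂ) * (star (t * E) * (t * G Y F)) =
      (((‖t‖ ^ 2 : ℝ) : ℂ) ^ 2) * (E * G F (star Y) * (ss G κ Y E + nn G Y : ℝ) -
        (κ * ‖E‖ ^ 2 : ℝ) * (star E * G Y F)) := by
    have h2 : star (t * E) = star t * star E := by
      rw [star_mul, mul_comm]
    rw [h2]
    have h3 : ((κ * (‖t‖ * ‖E‖) ^ 2 : ℝ) : ℂ) =
        ((‖t‖ ^ 2 : ℝ) : ℂ) * ((κ * ‖E‖ ^ 2 : ℝ) : ℂ) := by
      push_cast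
      ring
    have h4 : ((‖t‖ ^ 2 * ss G κ Y E + ‖t‖ ^ 2 * nn G Y : ℝ) : ℂ) =
        ((‖t‖ ^ 2 : ℝ) : ℂ) * ((ss G κ Y E + nn G Y : ℝ) : ℂ) := by
      push_cast
      ring
    rw [h3, h4, ← cov_tt]
    ring
  have h5 : ((‖t‖ ^ 2 * ss G κ Y E * (‖t‖ ^ 2 * nn G Y + ‖t‖ ^ 2 * ss G κ Y E) : ℝ) : ℂ) =
      (((‖t‖ ^ 2 : ℝ) : ℂ) ^ 2) * ((ss G κ Y E * (nn G Y + ss G κ Y E) : ℝ) : ℂ) := by
    push_cast
    ring
  rw [h1, h5, mul_div_mul_left _ _ (pow_ne_zero 2 hn)]

theorem gg_star (hG : Herm G) (κ : ℝ) (Y F : V m) (E : ℂ) :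
    gg G κ (star Y) (star E) (star F) = star (gg G κ Y E F) := by
  have h1 : nn G (star Y) = nn G Y := by
    unfold nn
    rw [star_star, hG.symm]
  have h2 : ss G κ (star Y) (star E) = ss G κ Y E := by
    unfold ss
    rw [h1, norm_star]
  have h3 : ∀ r : ℝ, star (r : ℂ) = (r : ℂ) := fun r => Complex.conj_ofReal r
  unfold gg
  rw [h1, h2, norm_star, hG.real, hG.real, star_div₀, star_sub, star_mul', star_mul', star_mul',
    star_mul', h3, h3, h3]

theorem gg_smulF (G : Bl m) (κ : ℝ) (Y F : V m) (E t : ℂ) :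
    gg G κ Y E (t • F) = t * gg G κ Y E F := by
  unfold gg
  rw [map_smul, map_smul, smul_apply, smul_eq_mul, smul_eq_mul]
  ring

private theorem cov_isMir_symm {φ φ' : Chart S} (h : IsMir φ φ') : IsMir φ' φ where
  source := h.source.symm
  map := by
    intro x hx
    rw [h.source] at hx
    rw [h.map x hx]
    simp
  target := by
    intro z
    have := h.target (-star z)
    rw [this]
    simp
  symm := by
    intro z hz
    have h1 : -star z ∈ φ'.map.target := by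
      rw [h.target]
      simpa using hz
    rw [h.symm _ h1]
    simp

private theorem cov_im_pos {φ ψ : Chart S} (hφ : φ ∈ M.charts) (hψ : ψ ∈ M.charts) {x : S}
    (h1 : x ∈ φ.map.source) (h2 : x ∈ ψ.map.source) (hi : 0 < (φ.map x).im) :
    0 < (ψ.map x).im := by
  have h3 := ψ.map.map_source h2
  rw [ψ.target_eq] at h3
  have h4 : 0 ≤ (ψ.map x).im := h3.2
  refine lt_of_le_of_ne h4 fun h3 => hi.ne' ?_
  exact (M.bdry_iff φ hφ ψ hψ x h1 h2).2 h3.symm

/-- continuation to a chart with the same orientation -/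
theorem cov_same (H : Ctx M σ e G) {C : Set S} {c : GCell M e G} (hc : Reach C c) {x : S}
    (hx : x ∈ c.φ.map.source) (hxO : c.φ.map x ∈ c.O) {ψ : Chart S} (hψ : ψ ∈ M.charts)
    (hxψ : x ∈ ψ.map.source)
    (hh : ∀ᶠ z in 𝓝 (c.φ.map x), DifferentiableAt ℂ (fun z => ψ.map (c.φ.map.symm z)) z) :
    ∃ c' : GCell M e G, Reach C c' ∧ c'.φ = ψ ∧ ψ.map x ∈ c'.O ∧
      c'.Y (ψ.map x) = c.Y (c.φ.map x) ∧ c'.E (ψ.map x) = c.E (c.φ.map x) := by
  obtain ⟨a, b, c1, d, hab, hcd, hsub, -, hev, -, hsol⟩ :=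
    exists_rect H hψ hxψ (N := univ) univ_mem
  have hev := hev.self_of_nhds
  have hpos : 0 < (ψ.map x).im := cov_im_pos c.hφ hψ hx hxψ (c.im_pos hxO)
  obtain ⟨Y, E, hYE, hY1, hE1⟩ := hsol (ψ.map x) hev.2.1 (c.Y (c.φ.map x)) (c.E (c.φ.map x))
  let c' : GCell M e G := ⟨ψ, hψ, a, b, c1, d, hab, hcd, hsub, Y, E, hYE⟩
  have hO : ψ.map x ∈ c'.O := hev.2.2 hpos
  refine ⟨c', Reach.step hc ⟨hx, hxψ, hxO, hO, hY1.symm, hE1.symm, hh⟩, rfl, hO, hY1, hE1⟩

private theorem cov_dxy (H : Ctx M σ e G) {φ φ' : Chart S} (hφ : φ ∈ M.charts)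
    (hm : IsMir φ φ') {z : ℂ} (hz : z ∈ φ'.map.target) (i : Fin m) :
    dx φ' (e i) z = -dx φ (e i) (-star z) ∧ dy φ' (e i) z = dy φ (e i) (-star z) := by
  obtain ⟨κ, hκ⟩ : ∃ κ : ℂ →L[ℝ] ℂ, ∀ w, κ w = -star w :=
    ⟨-(Complex.conjCLE : ℂ →L[ℝ] ℂ), fun w => by simp⟩
  have hz' : -star z ∈ φ.map.target := (hm.target z).1 hz
  have h1 : HasFDerivWithinAt (loc φ (e i)) (fderivWithin ℝ (loc φ (e i)) φ.map.target (κ z))
      φ.map.target (κ z) := by
    rw [hκ]
    exact (diffAt (H.mem i) hφ hz').hasFDerivWithinAt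
  have h2 : HasFDerivWithinAt (fun w => loc φ (e i) (κ w))
      ((fderivWithin ℝ (loc φ (e i)) φ.map.target (κ z)).comp κ) φ'.map.target z :=
    h1.comp z κ.hasFDerivWithinAt fun w hw => by
      rw [hκ]
      exact (hm.target w).1 hw
  have h3 : ∀ w ∈ φ'.map.target, loc φ' (e i) w = loc φ (e i) (κ w) := by
    intro w hw
    unfold loc
    rw [hm.symm w hw, hκ]
  have h4 : fderivWithin ℝ (loc φ' (e i)) φ'.map.target z =
      (fderivWithin ℝ (loc φ (e i)) φ.map.target (κ z)).comp κ :=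
    (h2.congr h3 (h3 z hz)).fderivWithin (uniqueDiffOn φ' z hz)
  unfold dx dy
  rw [h4, ContinuousLinearMap.comp_apply, ContinuousLinearMap.comp_apply, hκ, hκ, hκ]
  constructor
  · rw [star_one, map_neg]
  · congr 1
    simp

/-- the complex gradients in the mirror chart -/
theorem Fv_mir (H : Ctx M σ e G) {φ φ' : Chart S} (hφ : φ ∈ M.charts)
    (hm : IsMir φ φ') {z : ℂ} (hz : z ∈ φ'.map.target) :
    Fv φ' e 0 z = -star (Fv φ e 0 (-star z)) := by
  funext i
  obtain ⟨h1, h2⟩ := cov_dxy H hφ hm hz i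
  change (dx φ' (e i) z : ℂ) - Complex.I * (dy φ' (e i) z : ℂ) =
    -star ((dx φ (e i) (-star z) : ℂ) - Complex.I * (dy φ (e i) (-star z) : ℂ))
  rw [h1, h2]
  apply Complex.ext <;> simp

/-- Covariance. Let `T` be the change of charts. By trans_holo either `T` is holomorphic near `z`:
then there is a cell reached from `c` in the chart of `c'` with the same values (see `reach_same` in
Reach.lean), proportional to `c'`, and Fv_trans; or the change of charts to the mirror chart is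
holomorphic: the same with reach_mir and Fv_mir. -/
theorem cov (H : Ctx M σ e G) (hA : CaseA M e G) {C C' : Set S} (hC : IsCC M C)
    (hC' : IsCC M C') {c c' : GCell M e G} (hc : Reach C c) (hc' : Reach C' c') (κ : ℝ) {z : ℂ}
    (hz : z ∈ c.O) (hs : c.φ.map.symm z ∈ c'.φ.map.source)
    (hz' : c'.φ.map (c.φ.map.symm z) ∈ c'.O) (v : ℂ) :
    (gC κ c z * v).re = (gC κ c' (c'.φ.map (c.φ.map.symm z)) *
      fderiv ℝ (fun z => c'.φ.map (c.φ.map.symm z)) z v).re := by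
  have hG : Herm G := ⟨H.inK.symm, H.inK.real, H.pd⟩
  have hzt : z ∈ c.φ.map.target := c.sub (RectI_sub _ _ _ _ hz)
  obtain ⟨x, hxdef⟩ : ∃ x, x = c.φ.map.symm z := ⟨_, rfl⟩
  have hx : x ∈ c.φ.map.source := by
    rw [hxdef]
    exact c.φ.map.map_target hzt
  have hzx : c.φ.map x = z := by
    rw [hxdef]
    exact c.φ.map.right_inv hzt
  rw [← hxdef] at hs hz' ⊢
  have hxO : c.φ.map x ∈ c.O := by
    rw [hzx]
    exact hz
  have hpos := c.im_pos hxO
  obtain ⟨ψ', hψ', hm⟩ := H.mir c'.φ c'.hφ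
  have hxψ' : x ∈ ψ'.map.source := by
    rw [hm.source]
    exact hs
  rcases trans_holo c.hφ c'.hφ hm hx hs hpos with hh | hh
  · obtain ⟨c2, h1, h2, h3, h4, h5⟩ := cov_same H hc hx hxO c'.hφ hs hh
    obtain ⟨t, ht, h6, h7⟩ := hA C C' hC hC' c2 c' h1 hc' h2 _ h3 hz'
    obtain ⟨r, hT, -⟩ := exists_TData c.hφ c'.hφ hx hs hpos hh univ_mem univ_mem
    have hF := Fv_trans H.mem c.hφ c'.hφ hT (Metric.mem_ball_self hT.hr)
    have hd : HasDerivAt (fun z => c'.φ.map (c.φ.map.symm z))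
        (deriv (fun z => c'.φ.map (c.φ.map.symm z)) z) z := by
      rw [← hzx]
      exact hh.self_of_nhds.hasDerivAt
    have hfd := hd.hasFDerivAt.restrictScalars ℝ
    rw [hfd.fderiv]
    set D := deriv (fun z => c'.φ.map (c.φ.map.symm z)) z with hD
    rw [hzx] at hF h4 h5
    simp only [← hxdef] at hF
    unfold gC
    rw [hF, ← h4, ← h5, h6, h7, gg_smul G κ _ _ _ ht, gg_smulF]
    simp only [ContinuousLinearMap.coe_restrictScalars', ContinuousLinearMap.toSpanSingleton_apply,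
      smul_eq_mul]
    congr 1
    ring
  · obtain ⟨c2, h1, h2, h3, h4, h5⟩ := cov_same H hc hx hxO hψ' hxψ' hh
    have hm' : IsMir c2.φ c'.φ := by
      rw [h2]
      exact cov_isMir_symm hm
    obtain ⟨c3, k1, k2, k3, k4, k5, k6, k7, k8⟩ := reach_mir H h1 c'.hφ hm'
    have hval : ψ'.map x = -star (c'.φ.map x) := hm.map x hs
    have hO3 : c'.φ.map x ∈ c3.O := by
      have h6 : -star (c'.φ.map x) ∈ RectI c2.a c2.b c2.c c2.d := by
        rw [← hval]
        exact h3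
      obtain ⟨g1, g2, g3, g4⟩ := h6
      change c'.φ.map x ∈ RectI c3.a c3.b c3.c c3.d
      rw [k3, k4, k5, k6]
      simp only [Complex.star_def, Complex.neg_re, Complex.conj_re, Complex.neg_im,
        Complex.conj_im, neg_neg] at g1 g2 g3 g4
      exact ⟨by linarith, by linarith, g3, g4⟩
    obtain ⟨t, ht, h6, h7⟩ := hA C C' hC hC' c3 c' k1 hc' k2 _ hO3 hz'
    rw [k7, ← hval, h4, hzx] at h6
    rw [k8, ← hval, h5, hzx] at h7
    obtain ⟨r, hT, -⟩ := exists_TData c.hφ hψ' hx hxψ' hpos hh univ_mem univ_mem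
    have hF := Fv_trans H.mem c.hφ hψ' hT (Metric.mem_ball_self hT.hr)
    rw [hzx] at hF
    simp only [← hxdef] at hF
    have hFm := Fv_mir H c'.hφ hm (z := ψ'.map x) (ψ'.map.map_source hxψ')
    have hval2 : -star (ψ'.map x) = c'.φ.map x := by
      rw [hval]
      simp
    rw [hval2] at hFm
    have hd : HasDerivAt (fun z => ψ'.map (c.φ.map.symm z))
        (deriv (fun z => ψ'.map (c.φ.map.symm z)) z) z := by
      rw [← hzx]
      exact hh.self_of_nhds.hasDerivAt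
    set D := deriv (fun z => ψ'.map (c.φ.map.symm z)) z with hD
    have hfd := (Complex.conjCLE : ℂ ≃L[ℝ] ℂ).toContinuousLinearMap.hasFDerivAt.comp z
      (hd.hasFDerivAt.restrictScalars ℝ)
    have hfd2 := hfd.neg
    have heq : (fun z => c'.φ.map (c.φ.map.symm z)) =ᶠ[𝓝 z]
        fun z => -(starRingEnd ℂ (ψ'.map (c.φ.map.symm z))) := by
      have h8 := trans_nhds hzt (by rw [← hzx]; exact hpos) (ψ := c'.φ) (by
        rw [← hxdef]
        exact hs)
      filter_upwards [h8] with w hw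
      rw [hm.map _ hw.2.2]
      simp
    have hfd3 : HasFDerivAt (fun z => c'.φ.map (c.φ.map.symm z)) _ z :=
      hfd2.congr_of_eventuallyEq heq
    rw [hfd3.fderiv]
    have hY : c.Y z = star (t • c'.Y (c'.φ.map x)) := by
      rw [← h6, star_star]
    have hE : c.E z = star (t * c'.E (c'.φ.map x)) := by
      rw [← h7, star_star]
    have hgC : gC κ c z = -(D * star (gC κ c' (c'.φ.map x))) := by
      unfold gC
      rw [hF, hFm, hY, hE, gg_smulF, ← neg_one_smul ℂ, gg_smulF, gg_star hG,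
        gg_smul G κ _ _ _ ht]
      ring
    rw [hgC]
    set g := gC κ c' (c'.φ.map x) with hg
    have e1 : (-((Complex.conjCLE : ℂ ≃L[ℝ] ℂ).toContinuousLinearMap.comp
        ((ContinuousLinearMap.toSpanSingleton ℂ D).restrictScalars ℝ))) v =
        -(starRingEnd ℂ (v * D)) := by
      simp
    have e2 : g * -(starRingEnd ℂ (v * D)) = starRingEnd ℂ (-(D * star g) * v) := by
      simp only [map_neg, map_mul, Complex.star_def, Complex.conj_conj]
      ring
    have e3 : (g * -(starRingEnd ℂ (v * D))).re = (-(D * star g) * v).re := by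
      rw [e2, Complex.conj_re]
    rw [← e3]
    congr 2

end Stek.Ca
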