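import Pool.Agent.H.MP_fc2485_gt.Ca.Smooth
import Pool.Agent.H.MP_fc2485_gt.Ca.Cov
import Pool.Agent.H.MP_fc2485_gt.Sv.F7A

/-!
The potential in a reachable cell: positivity, continuity, smoothness, Laplacian.
-/

set_option maxSynthPendingDepth 3

open Set Filter Topology InnerProductSpace MeasureTheory
open scoped ContDiff

namespace Stek.Ca

open Stek Surface Sv GCell

variable {S : Type*} [TopologicalSpace S] {M : Surface S} {σ : ℝ} {m : ℕ} {e : Fin m → S → ℝ}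
  {G : Bl m}

theorem herm (H : Ctx M σ e G) : Herm G := ⟨H.inK.symm, H.inK.real, H.pd⟩

/-- `G(Y,Y) = E²` (quad with `τ = 1`) -/
theorem cell_quad (H : Ctx M σ e G) {C : Set S} (hC : IsCC M C) {c : GCell M e G}
    (hc : Reach C c) {z : ℂ} (hz : z ∈ c.K) : G (c.Y z) (c.Y z) = c.E z ^ 2 := by
  have h := quad H hC.sub hc H.inK.inB z hz
  rw [one_mul] at h
  exact h

/-- `Y` does not vanish: otherwise `E² = 0`, and the solution is zero (ode_unique, not_zero) -/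
theorem cell_N_pos [ConnectedSpace S] (H : Ctx M σ e G) (hm2 : 2 ≤ m) {C : Set S}
    (hC : IsCC M C) {c : GCell M e G} (hc : Reach C c) {z : ℂ} (hz : z ∈ c.K) :
    0 < nn G (c.Y z) := by
  by_cases hY : c.Y z = 0
  · exfalso
    have hq := cell_quad H hC hc hz
    rw [hY, map_zero] at hq
    have hE : c.E z = 0 := pow_eq_zero_iff two_ne_zero |>.mp hq.symm
    have h0 : IsSol G (Fv c.φ e 0) (Rect c.a c.b c.c c.d) (fun _ => 0) (fun _ => 0) := by
      refine ⟨fun w _ => ?_, fun w _ => ?_⟩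
      · rw [zero_smul]
        exact hasDerivWithinAt_const _ _ _
      · rw [map_zero, zero_apply]
        exact hasDerivWithinAt_const _ _ _
    have h1 := ode_unique (convex_Rect _ _ _ _) (Props_niceF H c).cont c.sol h0 hz hY hE
    obtain ⟨w, hw⟩ := c.O_nonempty
    obtain ⟨r, hr, hb⟩ := Metric.mem_nhds_iff.mp ((isOpen_RectI c.a c.b c.c c.d).mem_nhds hw)
    exact const_absurd H hm2 hC.sub hc hr hb (v := 0) fun s hs =>
      (h1 s (RectI_sub _ _ _ _ (hb hs))).1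
  · exact H.pd _ hY

theorem cell_s_pos [ConnectedSpace S] (H : Ctx M σ e G) (hm2 : 2 ≤ m) {C : Set S}
    (hC : IsCC M C) {c : GCell M e G} (hc : Reach C c) {κ : ℝ} (h0 : 0 ≤ κ) (h1 : κ < 1) {z : ℂ}
    (hz : z ∈ c.K) : 0 < nn G (c.Y z) ^ 2 - κ * ‖c.E z‖ ^ 4 := by
  have hN := cell_N_pos H hm2 hC hc hz
  have hE := norm_E_le (herm H) (cell_quad H hC hc hz)
  have h2 : κ * ‖c.E z‖ ^ 4 ≤ κ * nn G (c.Y z) ^ 2 := mul_le_mul_of_nonneg_left hE h0
  have h3 : 0 < (1 - κ) * nn G (c.Y z) ^ 2 := mul_pos (by linarith) (by positivity)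
  linarith

theorem gC_cont [ConnectedSpace S] (H : Ctx M σ e G) (hm2 : 2 ≤ m) {C : Set S}
    (hC : IsCC M C) {c : GCell M e G} (hc : Reach C c) {κ : ℝ} (h0 : 0 ≤ κ) (h1 : κ < 1) :
    ContinuousOn (gC κ c) c.K :=
  continuousOn_gg (Props_niceY c).cont (Props_niceE c).cont (Props_niceF H c).cont
    (fun _ hz => cell_N_pos H hm2 hC hc hz) (fun _ hz => cell_s_pos H hm2 hC hc h0 h1 hz)

/-- on an open subset of the cell on which `s > 0` -/
theorem gC_smooth [ConnectedSpace S] (H : Ctx M σ e G) (hm2 : 2 ≤ m) {C : Set S}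
    (hC : IsCC M C) {c : GCell M e G} (hc : Reach C c) {κ : ℝ} {U : Set ℂ} (hU : IsOpen U)
    (hUO : U ⊆ c.O) (hs : ∀ z ∈ U, 0 < nn G (c.Y z) ^ 2 - κ * ‖c.E z‖ ^ 4) :
    ContDiffOn ℝ 1 (gC κ c) U :=
  contDiffOn_gg hU ((Props_niceY c).holo.mono hUO) ((Props_niceE c).holo.mono hUO)
    ((Props_niceF H c).holo.mono hUO)
    (fun _ hz => cell_N_pos H hm2 hC hc (RectI_sub _ _ _ _ (hUO hz))) hs

/-- the Laplacian (gg_dbar) -/
theorem gC_lap [ConnectedSpace S] (H : Ctx M σ e G) (hm2 : 2 ≤ m) {C : Set S}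
    (hC : IsCC M C) {c : GCell M e G} (hc : Reach C c) {κ : ℝ} {z : ℂ} (hz : z ∈ c.O)
    (hs : 0 < nn G (c.Y z) ^ 2 - κ * ‖c.E z‖ ^ 4) :
    (fderiv ℝ (gC κ c) z 1 + Complex.I * fderiv ℝ (gC κ c) z Complex.I).re =
      2 * (‖c.E z‖ ^ 2 / ss G κ (c.Y z) (c.E z) ^ 3 *
        bet G κ (c.Y z) (c.E z) (Fv c.φ e 0 z)) := by
  have hF : HasDerivAt (Fv c.φ e 0) (Fv c.φ e 1 z) z :=
    hasDerivAt_Fv H.mem c.hφ 0 (c.sub (RectI_sub _ _ _ _ hz)) (c.im_pos hz)
  obtain ⟨p, hp⟩ := gg_dbar (κ := κ) (herm H) (c.dYat hz) (c.dEat hz) hF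
    (cell_N_pos H hm2 hC hc (RectI_sub _ _ _ _ hz)) hs
  have h1 : fderiv ℝ (gC κ c) z = WL p _ := HasFDerivAt.fderiv hp
  rw [h1, WL_apply, WL_apply]
  simp only [smul_eq_mul, one_mul, star_one, Complex.star_def, Complex.conj_I]
  have h2 : ∀ q : ℂ, p + q + Complex.I * (Complex.I * p + -Complex.I * q) = 2 * q := by
    intro q
    have := Complex.I_mul_I
    linear_combination (p - q) * this
  rw [h2, ← Complex.ofReal_ofNat, ← Complex.ofReal_mul, Complex.ofReal_re]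

end Stek.Ca
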