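import Pool.Agent.H.MP_fc2485_gt.Ca.Basic

/-!
Cells at the boundary: the complex gradient of the potentials is bounded, converges for `κ → 1`,
and the limit vanishes at the boundary.

With `v = Y/E`, `w = v' = F - θ v`, `θ = G(Y,F)/E`, `ν = G(v, conj v)`, `r = (ν² - κ)^(1/2)`:
`gC κ = G(w, conj v)/r + θ`. As `G(v,v) = 1`, `G(w,v) = 0`: with `P = Im v` (a real vector)
`G(w, conj v) = -2i G(w,P)`, `ν = 1 + 2|P|²`, `ν² - 1 = 4 |P|² (1 + |P|²)`, so
`|G(w, conj v)|/r ≤ |w|` (norms of `G`), and for `κ = 1`, `gC 1 = -i G(w,P)/(|P| (1+|P|²)^(1/2)) + θ`.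
On the axis `v = u` is real, `w = u_x` is real, `G(u_x,u_x) = σ² ρ²`, `θ = iσρ`; `P(x+iy)/y → w(x)`
uniformly (mean value inequality on vertical segments for `P(x+it) - t w(x)`), so
`gC 1 (x+iy) → -i σρ + iσρ = 0` uniformly.
-/

set_option maxSynthPendingDepth 3

open Set Filter Topology InnerProductSpace MeasureTheory
open scoped ContDiff

namespace Stek.Ca

open Stek Surface Sv GCell

variable {S : Type*} [TopologicalSpace S] {M : Surface S} {σ : ℝ} {m : ℕ} {e : Fin m → S → ℝ}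
  {G : Bl m}

/-- a cell over a boundary arc, in which `E` has no zero and `Y/E` is real only on the axis -/
structure BCell (C : Set S) (c : GCell M e G) : Prop where
  base : c.IsBase C
  ene : ∀ z ∈ c.K, c.E z ≠ 0
  im : ∀ z ∈ c.K, 0 < z.im → ‖c.E z‖ ^ 4 < nn G (c.Y z) ^ 2

private theorem BdA_normSq (E : ℂ) : ((‖E‖ ^ 2 : ℝ) : ℂ) = E * star E := by
  have := Complex.mul_conj E
  rw [Complex.normSq_eq_norm_sq] at this
  exact this.symm

private theorem BdA_nn_cont (G : Bl m) : Continuous (nn G) := by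
  have h4 : Continuous fun v : V m => (G (star v) v) :=
    (G.continuous.comp continuous_star).clm_apply continuous_id
  exact Complex.continuous_re.comp h4

private theorem BdA_nn_smul (G : Bl m) (t : ℂ) (Y : V m) : nn G (t • Y) = ‖t‖ ^ 2 * nn G Y := by
  have h3 : G (star (t • Y)) (t • Y) = ((‖t‖ ^ 2 : ℝ) : ℂ) * G (star Y) Y := by
    rw [star_smul, map_smul, map_smul, ContinuousLinearMap.smul_apply, smul_eq_mul, smul_eq_mul,
      BdA_normSq]
    ring
  rw [nn, h3, Complex.re_ofReal_mul, nn]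

private theorem BdA_sqrt {κ : ℝ} {Y : V m} {E : ℂ} (hE : E ≠ 0) :
    Real.sqrt (nn G (E⁻¹ • Y) ^ 2 - κ) = ss G κ Y E / ‖E‖ ^ 2 := by
  have hE' : 0 < ‖E‖ := norm_pos_iff.2 hE
  have h1 : nn G (E⁻¹ • Y) ^ 2 - κ = (nn G Y ^ 2 - κ * ‖E‖ ^ 4) / (‖E‖ ^ 2) ^ 2 := by
    rw [BdA_nn_smul, norm_inv]
    field_simp
  rw [h1, Real.sqrt_div', Real.sqrt_sq (by positivity)]
  · rfl
  · positivity

/-- the formula for the complex gradient -/
theorem gg_eq (hG : Herm G) {κ : ℝ} {Y F : V m} {E : ℂ} (hE : E ≠ 0)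
    (hs : 0 < nn G Y ^ 2 - κ * ‖E‖ ^ 4) (hN : 0 < nn G Y) :
    gg G κ Y E F = G (F - (G Y F / E) • (E⁻¹ • Y)) (star (E⁻¹ • Y)) /
      (Real.sqrt (nn G (E⁻¹ • Y) ^ 2 - κ) : ℂ) + G Y F / E := by
  rw [BdA_sqrt hE]
  have hspos : 0 < ss G κ Y E := Real.sqrt_pos.mpr hs
  have hsq : ss G κ Y E ^ 2 = nn G Y ^ 2 - κ * ‖E‖ ^ 4 := Real.sq_sqrt hs.le
  have hE' : star E ≠ 0 := by
    intro h
    exact hE (star_eq_zero.1 h)
  have hGYY : G Y (star Y) = ((nn G Y : ℝ) : ℂ) := by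
    rw [hG.symm, hG.diag]
  have hsqC : ((ss G κ Y E : ℝ) : ℂ) ^ 2 =
      ((nn G Y : ℝ) : ℂ) ^ 2 - κ * (E * star E) ^ 2 := by
    rw [← BdA_normSq]
    have := congrArg (fun x : ℝ => (x : ℂ)) hsq
    push_cast at this ⊢
    rw [this]
    ring
  have hsC : ((ss G κ Y E : ℝ) : ℂ) ≠ 0 := by exact_mod_cast hspos.ne'
  have hTC : ((nn G Y : ℝ) : ℂ) + ((ss G κ Y E : ℝ) : ℂ) ≠ 0 := by
    have : nn G Y + ss G κ Y E ≠ 0 := by positivity
    exact_mod_cast this
  have h1 : G (F - (G Y F / E) • (E⁻¹ • Y)) (star (E⁻¹ • Y)) =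
      (star E)⁻¹ * (G F (star Y) - (G Y F / E) * E⁻¹ * ((nn G Y : ℝ) : ℂ)) := by
    rw [star_smul, star_inv₀]
    simp only [map_sub, map_smul, _root_.sub_apply, _root_.smul_apply, smul_eq_mul, hGYY]
    ring
  have h2 : (((ss G κ Y E / ‖E‖ ^ 2 : ℝ)) : ℂ) = ((ss G κ Y E : ℝ) : ℂ) / (E * star E) := by
    rw [← BdA_normSq]
    push_cast
    rfl
  rw [h1, h2]
  unfold gg
  have h3 : ((κ * ‖E‖ ^ 2 : ℝ) : ℂ) = (κ : ℂ) * (E * star E) := by
    rw [← BdA_normSq]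
    push_cast
    rfl
  rw [h3]
  push_cast
  generalize ((ss G κ Y E : ℝ) : ℂ) = s at *
  generalize ((nn G Y : ℝ) : ℂ) = N at *
  generalize G F (star Y) = A at *
  generalize G Y F = B at *
  generalize star E = Eb at *
  generalize (κ : ℂ) = k at *
  field_simp
  linear_combination (-B) * hsqC

/-- the estimate of Cauchy and Schwarz -/
private theorem BdA_key (hG : Herm G) {w v : V m} (h1 : G v v = 1) (h2 : G w v = 0) :
    ‖G w (star v)‖ ^ 2 ≤ nn G w * (nn G v ^ 2 - 1) := by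
  have hν : 1 ≤ nn G v := by
    have := hG.cs v
    rw [h1, norm_one] at this
    exact this
  have hν0 : 0 < nn G v := by linarith
  obtain ⟨x, hx⟩ : ∃ x : V m, x = (0 : ℂ) • (0 : V m) + ((-(nn G v)⁻¹ : ℝ) : ℂ) • v +
      (1 : ℂ) • star v := ⟨_, rfl⟩
  have h3 : nn G x = nn G v - (nn G v)⁻¹ := by
    rw [hx, hG.expand, h1]
    have e1 : (((-(nn G v)⁻¹ : ℝ) : ℂ) * star 1 * 1).re = -(nn G v)⁻¹ := by
      rw [star_one, mul_one, mul_one, Complex.ofReal_re]
    rw [e1, Complex.norm_real, Real.norm_eq_abs, sq_abs]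
    simp
    field_simp
    ring
  have h4 : G w x = G w (star v) := by
    rw [hx]
    simp only [map_add, map_smul, smul_eq_mul, h2, map_zero]
    ring
  have h5 := bet_zero_nonneg hG (star x) w
  rw [star_star, nn_star hG, h4, h3] at h5
  refine h5.trans ?_
  rw [mul_comm]
  refine mul_le_mul_of_nonneg_left ?_ (hG.nn_nonneg w)
  have h6 : nn G v - (nn G v)⁻¹ = (nn G v ^ 2 - 1) / nn G v := by
    field_simp
  rw [h6, div_le_iff₀ hν0]
  have h7 : 0 ≤ nn G v ^ 2 - 1 := by nlinarith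
  nlinarith [mul_nonneg h7 (sub_nonneg.2 hν)]

/-- `G(v,v) = 1`, `G(w,v) = 0` -/
private theorem BdA_vv {Y : V m} {E : ℂ} (hE : E ≠ 0) (hq : G Y Y = E ^ 2) :
    G (E⁻¹ • Y) (E⁻¹ • Y) = 1 := by
  simp only [map_smul, _root_.smul_apply, smul_eq_mul, hq]
  field_simp

private theorem BdA_wv (hG : Herm G) {Y F : V m} {E : ℂ} (hE : E ≠ 0) (hq : G Y Y = E ^ 2) :
    G (F - (G Y F / E) • (E⁻¹ • Y)) (E⁻¹ • Y) = 0 := by
  simp only [map_sub, map_smul, _root_.sub_apply, _root_.smul_apply, smul_eq_mul, hq]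
  rw [hG.symm F Y]
  field_simp
  ring

/-- uniform bound, pointwise -/
theorem gg_bound (hG : Herm G) {κ : ℝ} (h0 : 0 ≤ κ) (h1 : κ ≤ 1) {Y F : V m} {E : ℂ}
    (hE : E ≠ 0) (hq : G Y Y = E ^ 2) (hs : 0 < nn G Y ^ 2 - κ * ‖E‖ ^ 4) (hN : 0 < nn G Y) :
    ‖gg G κ Y E F‖ ≤ Real.sqrt (nn G (F - (G Y F / E) • (E⁻¹ • Y))) + ‖G Y F / E‖ := by
  rw [gg_eq hG hE hs hN]
  refine (norm_add_le _ _).trans (add_le_add ?_ le_rfl)
  have hspos : 0 < ss G κ Y E := Real.sqrt_pos.mpr hs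
  have hE' : 0 < ‖E‖ := norm_pos_iff.2 hE
  have hr : 0 < Real.sqrt (nn G (E⁻¹ • Y) ^ 2 - κ) := by
    rw [BdA_sqrt hE]
    positivity
  have hr2 : 0 < nn G (E⁻¹ • Y) ^ 2 - κ := Real.sqrt_pos.1 hr
  rw [norm_div, Complex.norm_real, Real.norm_eq_abs, abs_of_pos hr, div_le_iff₀ hr,
    ← Real.sqrt_mul (hG.nn_nonneg _)]
  apply Real.le_sqrt_of_sq_le
  refine (BdA_key hG (BdA_vv hE hq) (BdA_wv hG hE hq)).trans ?_
  refine mul_le_mul_of_nonneg_left ?_ (hG.nn_nonneg _)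
  linarith

section cells

private theorem BdA_im {C : Set S} {c : GCell M e G} (hB : BCell C c) {z : ℂ} (hz : z ∈ c.O) :
    0 < z.im := by
  have h1 : c.c < z.im := hz.2.2.1
  rw [hB.base.1] at h1
  exact h1

private theorem BdA_sub (c : GCell M e G) : c.O ⊆ c.K := RectI_sub _ _ _ _

private theorem BdA_s {C : Set S} {c : GCell M e G} (hB : BCell C c) {κ : ℝ}
    (h1 : κ ≤ 1) {z : ℂ} (hz : z ∈ c.K) (hi : 0 < z.im) :
    0 < nn G (c.Y z) ^ 2 - κ * ‖c.E z‖ ^ 4 := by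
  have h2 := hB.im z hz hi
  have h3 : 0 ≤ ‖c.E z‖ ^ 4 := by positivity
  nlinarith

private theorem BdA_contY (c : GCell M e G) : ContinuousOn c.Y c.K := (Props_niceY c).cont

private theorem BdA_contE (c : GCell M e G) : ContinuousOn c.E c.K := (Props_niceE c).cont

private theorem BdA_contF (H : Ctx M σ e G) (c : GCell M e G) :
    ContinuousOn (Fv c.φ e 0) c.K := (Props_niceF H c).cont

/-- `θ` -/
private noncomputable def BdA_th (c : GCell M e G) (z : ℂ) : ℂ :=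
  G (c.Y z) (Fv c.φ e 0 z) / c.E z

/-- `v` -/
private noncomputable def BdA_v (c : GCell M e G) (z : ℂ) : V m := (c.E z)⁻¹ • c.Y z

/-- `w` -/
private noncomputable def BdA_w (c : GCell M e G) (z : ℂ) : V m :=
  Fv c.φ e 0 z - BdA_th c z • BdA_v c z

private theorem BdA_cont_th (H : Ctx M σ e G) {C : Set S} {c : GCell M e G} (hB : BCell C c) :
    ContinuousOn (BdA_th c) c.K := by
  refine ContinuousOn.div ?_ (BdA_contE c) fun z hz => hB.ene z hz
  exact (G.continuous.comp_continuousOn (BdA_contY c)).clm_apply (BdA_contF H c)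

private theorem BdA_cont_v {C : Set S} {c : GCell M e G} (hB : BCell C c) :
    ContinuousOn (BdA_v c) c.K :=
  ((BdA_contE c).inv₀ fun z hz => hB.ene z hz).smul (BdA_contY c)

private theorem BdA_cont_w (H : Ctx M σ e G) {C : Set S} {c : GCell M e G} (hB : BCell C c) :
    ContinuousOn (BdA_w c) c.K :=
  (BdA_contF H c).sub ((BdA_cont_th H hB).smul (BdA_cont_v hB))

/-- uniform bound on a boundary cell -/
theorem bd_bound [ConnectedSpace S] (H : Ctx M σ e G) (hm2 : 2 ≤ m) {C : Set S}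
    (hC : IsCC M C) {c : GCell M e G} (hB : BCell C c) :
    ∃ B : ℝ, ∀ κ ∈ Icc (0 : ℝ) 1, ∀ z ∈ c.O, ‖gC κ c z‖ ≤ B := by
  have hcont : ContinuousOn (fun z => Real.sqrt (nn G (BdA_w c z)) + ‖BdA_th c z‖) c.K :=
    (Real.continuous_sqrt.comp_continuousOn
      ((BdA_nn_cont G).comp_continuousOn (BdA_cont_w H hB))).add (BdA_cont_th H hB).norm
  obtain ⟨B, hB'⟩ := (isCompact_Rect c.a c.b c.c c.d).exists_bound_of_continuousOn hcont
  refine ⟨B, fun κ hκ z hz => ?_⟩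
  have hzK := BdA_sub c hz
  have hi := BdA_im hB hz
  have h1 := gg_bound (F := Fv c.φ e 0 z) (herm H) hκ.1 hκ.2 (hB.ene z hzK)
    (cell_quad H hC (Reach.base hB.base) hzK) (BdA_s hB hκ.2 hzK hi)
    (cell_N_pos H hm2 hC (Reach.base hB.base) hzK)
  exact (h1.trans (le_abs_self _)).trans (hB' z hzK)

theorem bd_lim [ConnectedSpace S] (H : Ctx M σ e G) (hm2 : 2 ≤ m) {C : Set S}
    (hC : IsCC M C) {c : GCell M e G} (hB : BCell C c) {z : ℂ} (hz : z ∈ c.O) :
    Tendsto (fun κ => gC κ c z) (𝓝[<] 1) (𝓝 (gC 1 c z)) := by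
  have hzK := BdA_sub c hz
  have hi := BdA_im hB hz
  have hs := BdA_s hB le_rfl hzK hi
  have hN := cell_N_pos H hm2 hC (Reach.base hB.base) hzK
  have hspos : 0 < ss G 1 (c.Y z) (c.E z) := Real.sqrt_pos.mpr hs
  have hcs : Continuous fun κ : ℝ => ss G κ (c.Y z) (c.E z) := by
    unfold ss
    fun_prop
  have h1 : ContinuousAt (fun κ : ℝ => gC κ c z) 1 := by
    unfold gC gg
    refine ContinuousAt.div ?_ ?_ ?_
    · refine ContinuousAt.sub ?_ ?_
      · refine ContinuousAt.mul continuousAt_const ?_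
        exact (Complex.continuous_ofReal.comp (hcs.add continuous_const)).continuousAt
      · refine ContinuousAt.mul ?_ continuousAt_const
        exact (Complex.continuous_ofReal.comp
          (continuous_id.mul continuous_const)).continuousAt
    · exact (Complex.continuous_ofReal.comp (hcs.mul (continuous_const.add hcs))).continuousAt
    · have : ss G 1 (c.Y z) (c.E z) * (nn G (c.Y z) + ss G 1 (c.Y z) (c.E z)) ≠ 0 := by
        positivity
      exact_mod_cast this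
  exact h1.tendsto.mono_left nhdsWithin_le_nhds

/-- the derivative of `v` -/
private theorem BdA_deriv {C : Set S} {c : GCell M e G} (hB : BCell C c) {z : ℂ}
    (hz : z ∈ c.K) : HasDerivWithinAt (BdA_v c) (BdA_w c z) c.K z := by
  have h1 := (c.sol.dE z hz).inv (hB.ene z hz)
  have h2 := h1.smul (c.sol.dY z hz)
  refine h2.congr_deriv ?_
  have hE := hB.ene z hz
  unfold BdA_w BdA_th BdA_v
  simp only [Pi.inv_apply]
  rw [smul_smul, inv_mul_cancel₀ hE, one_smul, sub_eq_add_neg]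
  congr 1
  rw [smul_smul, ← neg_smul]
  congr 1
  field_simp

/-- the values on the axis -/
private theorem BdA_axis (H : Ctx M σ e G) {C : Set S} (hC : IsCC M C) {c : GCell M e G}
    (hB : BCell C c) {x : ℂ} (hx : x ∈ c.K) (hi : x.im = 0) :
    star (BdA_v c x) = BdA_v c x ∧ star (BdA_w c x) = BdA_w c x ∧
      0 < nn G (BdA_w c x) ∧
      -Complex.I * (Real.sqrt (nn G (BdA_w c x)) : ℂ) + BdA_th c x = 0 := by
  have hx2 : x = ((x.re : ℝ) : ℂ) := by
    apply Complex.ext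
    · simp
    · simp [hi]
  obtain ⟨t, ht⟩ : ∃ t : ℝ, t = x.re := ⟨_, rfl⟩
  rw [← ht] at hx2
  have htI : t ∈ Icc c.a c.b := by
    rw [ht]
    exact ⟨hx.1, hx.2.1⟩
  obtain ⟨h1, h2, h3⟩ := hB.base.2 t htI
  have htar : (t : ℂ) ∈ c.φ.map.target := by
    rw [← hx2]
    exact c.sub hx
  have hE : c.E (t : ℂ) ≠ 0 := by
    rw [← hx2]
    exact hB.ene x hx
  rw [hx2]
  have hv : BdA_v c (t : ℂ) = uv e (c.φ.map.symm (t : ℂ)) := by
    unfold BdA_v
    rw [h2, smul_smul, inv_mul_cancel₀ hE, one_smul]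
  have hth : BdA_th c (t : ℂ) = Complex.I * (σ * c.φ.ρ t) := by
    unfold BdA_th
    have h4 := B_uF H.mem H.inK.inB c.hφ htar
    rw [h2, map_smul, ContinuousLinearMap.smul_apply, smul_eq_mul, h4, mul_one,
      mul_div_cancel_left₀ _ hE]
  have hw : BdA_w c (t : ℂ) = Fv c.φ e 0 t - (Complex.I * (σ * c.φ.ρ t)) •
      uv e (c.φ.map.symm (t : ℂ)) := by
    unfold BdA_w
    rw [hv, hth]
  have hwr : ∀ i, BdA_w c (t : ℂ) i = ((dx c.φ (e i) t : ℝ) : ℂ) := by
    intro i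
    have h5 := hasDerivAt_uv H.mem c.hφ htar
    rw [hasDerivAt_pi] at h5
    have h6 := (hasDerivAt_real (H.mem i) c.hφ htar).ofReal_comp
    rw [hw]
    exact (h5 i).unique h6
  have hws : star (BdA_w c (t : ℂ)) = BdA_w c (t : ℂ) := by
    funext i
    rw [Pi.star_apply, hwr i]
    exact Complex.conj_ofReal _
  have hρ : 0 < c.φ.ρ t := c.φ.ρ_pos _ htar
  have hσρ : 0 < σ * c.φ.ρ t := mul_pos H.hσ hρ
  have hnn : ((nn G (BdA_w c (t : ℂ)) : ℝ) : ℂ) = (((σ * c.φ.ρ t) ^ 2 : ℝ) : ℂ) := by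
    rw [← (herm H).diag, hws, hw]
    have h4 := B_uF H.mem H.inK.inB c.hφ htar
    have h5 := H.inK.conf c.φ c.hφ _ htar
    have h6 := H.inK.sphere _ (hC.sub h1)
    simp only [map_sub, map_smul, _root_.sub_apply, _root_.smul_apply, smul_eq_mul, h4, h5, h6]
    rw [(herm H).symm (Fv c.φ e 0 t) (uv e (c.φ.map.symm (t : ℂ))), h4]
    push_cast
    linear_combination (-(σ : ℂ) ^ 2 * (c.φ.ρ t : ℂ) ^ 2) * Complex.I_sq
  have hnn' : nn G (BdA_w c (t : ℂ)) = (σ * c.φ.ρ t) ^ 2 := by exact_mod_cast hnn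
  refine ⟨?_, hws, ?_, ?_⟩
  · rw [hv, maxP_star_uv]
  · rw [hnn']
    positivity
  · rw [hnn', Real.sqrt_sq hσρ.le, hth]
    push_cast
    ring

/-- the imaginary part of `v` divided by `y` -/
private noncomputable def BdA_Q (c : GCell M e G) (z : ℂ) : V m :=
  ((2 * Complex.I * (z.im : ℂ))⁻¹) • (BdA_v c z - star (BdA_v c z))

private theorem BdA_limQ (H : Ctx M σ e G) {C : Set S} (hC : IsCC M C) {c : GCell M e G}
    (hB : BCell C c) {x : ℂ} (hx : x ∈ c.K) (hi : x.im = 0) :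
    Tendsto (BdA_Q c) (𝓝[c.K ∩ {z | 0 < z.im}] x) (𝓝 (BdA_w c x)) := by
  obtain ⟨-, hw0, -, -⟩ := BdA_axis H hC hB hx hi
  rw [Metric.tendsto_nhdsWithin_nhds]
  intro η hη
  have hcw := (Metric.continuousWithinAt_iff.1 ((BdA_cont_w H hB) x hx)) (η / 2) (by positivity)
  obtain ⟨r, hr, hcw⟩ := hcw
  refine ⟨r, hr, fun z hz hdist => ?_⟩
  obtain ⟨hzK, hzi⟩ := hz
  have hzi : 0 < z.im := hzi
  obtain ⟨x1, hx1⟩ : ∃ x1 : ℂ, x1 = ((z.re : ℝ) : ℂ) := ⟨_, rfl⟩
  have hx1K : x1 ∈ c.K := by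
    rw [hx1]
    refine ⟨by simpa using hzK.1, by simpa using hzK.2.1, ?_, ?_⟩
    · rw [hB.base.1]
      simp
    · have := c.hcd
      rw [hB.base.1] at this
      simpa using this.le
  have hx1i : x1.im = 0 := by rw [hx1]; simp
  have hx1d : dist x1 x < r := by
    refine lt_of_le_of_lt ?_ hdist
    rw [dist_eq_norm, dist_eq_norm]
    have h1 : x1 - x = (((z - x).re : ℝ) : ℂ) := by
      apply Complex.ext
      · rw [hx1]; simp
      · rw [hx1]; simp [hi]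
    rw [h1, Complex.norm_real, Real.norm_eq_abs]
    exact Complex.abs_re_le_norm _
  obtain ⟨hv1, -, -, -⟩ := BdA_axis H hC hB hx1K hx1i
  have hconv : Convex ℝ (c.K ∩ Metric.ball x r) :=
    (convex_Rect c.a c.b c.c c.d).inter (convex_ball x r)
  have hmv := hconv.norm_image_sub_le_of_norm_hasDerivWithin_le
    (f := fun z => BdA_v c z - z • BdA_w c x) (f' := fun z => BdA_w c z - BdA_w c x)
    (C := η / 2) (x := x1) (y := z)
    (fun z' hz' => by
      have h1 := (BdA_deriv hB hz'.1).mono (inter_subset_left : c.K ∩ Metric.ball x r ⊆ c.K)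
      have h2 : HasDerivWithinAt (fun z : ℂ => z • BdA_w c x) (BdA_w c x)
          (c.K ∩ Metric.ball x r) z' := by
        have := (hasDerivWithinAt_id z' (c.K ∩ Metric.ball x r)).smul_const (BdA_w c x)
        simpa using this
      exact h1.sub h2)
    (fun z' hz' => by
      have := (hcw hz'.1 hz'.2).le
      rwa [dist_eq_norm] at this)
    ⟨hx1K, hx1d⟩ ⟨hzK, hdist⟩
  have hzx : z - x1 = (z.im : ℂ) * Complex.I := by
    apply Complex.ext
    · rw [hx1]; simp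
    · rw [hx1]; simp
  have hnz : ‖z - x1‖ = z.im := by
    rw [hzx, norm_mul, Complex.norm_I, mul_one, Complex.norm_real, Real.norm_eq_abs,
      abs_of_pos hzi]
  rw [hnz] at hmv
  obtain ⟨D, hD⟩ : ∃ D : V m, D = BdA_v c z - z • BdA_w c x -
      (BdA_v c x1 - x1 • BdA_w c x) := ⟨_, rfl⟩
  have hmv' : ‖D‖ ≤ η / 2 * z.im := by
    rw [hD]
    exact hmv
  have hD2 : D = BdA_v c z - BdA_v c x1 - ((z.im : ℂ) * Complex.I) • BdA_w c x := by
    rw [hD, ← hzx, sub_smul]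
    abel
  have hDs : star D = star (BdA_v c z) - BdA_v c x1 + ((z.im : ℂ) * Complex.I) • BdA_w c x := by
    have h5 : star ((z.im : ℂ) * Complex.I) = -((z.im : ℂ) * Complex.I) := by
      rw [star_mul']
      have e1 : star ((z.im : ℝ) : ℂ) = ((z.im : ℝ) : ℂ) := Complex.conj_ofReal _
      have e2 : star Complex.I = -Complex.I := Complex.conj_I
      rw [e1, e2]
      ring
    rw [hD2, star_sub, star_sub, hv1, star_smul, hw0, h5, neg_smul]
    abel
  have hne : 2 * Complex.I * (z.im : ℂ) ≠ 0 := by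
    have : (z.im : ℂ) ≠ 0 := by exact_mod_cast hzi.ne'
    exact mul_ne_zero (mul_ne_zero two_ne_zero Complex.I_ne_zero) this
  have hQ : BdA_Q c z - BdA_w c x = ((2 * Complex.I * (z.im : ℂ))⁻¹) • (D - star D) := by
    have h6 : D - star D = (BdA_v c z - star (BdA_v c z)) -
        (2 * Complex.I * (z.im : ℂ)) • BdA_w c x := by
      rw [hDs, hD2]
      have h7 : (2 * Complex.I * (z.im : ℂ)) • BdA_w c x =
          ((z.im : ℂ) * Complex.I) • BdA_w c x + ((z.im : ℂ) * Complex.I) • BdA_w c x := by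
        rw [← add_smul]
        congr 1
        ring
      rw [h7]
      abel
    rw [h6, smul_sub, smul_smul, inv_mul_cancel₀ hne, one_smul]
    rfl
  rw [dist_eq_norm, hQ, norm_smul, norm_inv]
  have hn2 : ‖2 * Complex.I * (z.im : ℂ)‖ = 2 * z.im := by
    rw [norm_mul, norm_mul, Complex.norm_I, Complex.norm_real, Real.norm_eq_abs, abs_of_pos hzi]
    simp
  rw [hn2]
  have h8 : ‖D - star D‖ ≤ η * z.im := by
    refine (norm_sub_le _ _).trans ?_
    rw [norm_star]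
    linarith
  calc (2 * z.im)⁻¹ * ‖D - star D‖ ≤ (2 * z.im)⁻¹ * (η * z.im) := by gcongr
    _ = η / 2 := by
        field_simp
    _ < η := by linarith

/-- the formula for the gradient off the axis -/
private theorem BdA_form [ConnectedSpace S] (H : Ctx M σ e G) (hm2 : 2 ≤ m) {C : Set S}
    (hC : IsCC M C) {c : GCell M e G} (hB : BCell C c) {z : ℂ} (hz : z ∈ c.K)
    (hi : 0 < z.im) : gC 1 c z = -Complex.I * G (BdA_w c z) (BdA_Q c z) /
      (Real.sqrt (nn G (BdA_Q c z) * (1 + z.im ^ 2 * nn G (BdA_Q c z))) : ℂ) + BdA_th c z := by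
  have hG := herm H
  have hE := hB.ene z hz
  have hq := cell_quad H hC (Reach.base hB.base) hz
  have hN := cell_N_pos H hm2 hC (Reach.base hB.base) hz
  have hs := BdA_s hB le_rfl hz hi
  have h1 : gC 1 c z = G (BdA_w c z) (star (BdA_v c z)) /
      (Real.sqrt (nn G (BdA_v c z) ^ 2 - 1) : ℂ) + BdA_th c z := gg_eq hG hE hs hN
  have hvv : G (BdA_v c z) (BdA_v c z) = 1 := BdA_vv hE hq
  have hwv : G (BdA_w c z) (BdA_v c z) = 0 := BdA_wv hG hE hq
  have hne : 2 * Complex.I * (z.im : ℂ) ≠ 0 := by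
    have : (z.im : ℂ) ≠ 0 := by exact_mod_cast hi.ne'
    exact mul_ne_zero (mul_ne_zero two_ne_zero Complex.I_ne_zero) this
  have hvs : star (BdA_v c z) = BdA_v c z - (2 * Complex.I * (z.im : ℂ)) • BdA_Q c z := by
    unfold BdA_Q
    rw [smul_smul, mul_inv_cancel₀ hne, one_smul]
    abel
  have hQs : star (BdA_Q c z) = BdA_Q c z := by
    unfold BdA_Q
    rw [star_smul, star_sub, star_star, star_inv₀, star_mul', star_mul']
    have e1 : star ((z.im : ℝ) : ℂ) = ((z.im : ℝ) : ℂ) := Complex.conj_ofReal _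
    have e2 : star Complex.I = -Complex.I := Complex.conj_I
    have e3 : star (2 : ℂ) = 2 := star_ofNat 2
    rw [e1, e2, e3]
    have e4 : (2 * -Complex.I * ((z.im : ℝ) : ℂ))⁻¹ = -(2 * Complex.I * ((z.im : ℝ) : ℂ))⁻¹ := by
      rw [mul_neg, neg_mul, inv_neg]
    rw [e4, neg_smul, ← smul_neg, neg_sub]
  have hQQ : G (BdA_Q c z) (BdA_Q c z) = ((nn G (BdA_Q c z) : ℝ) : ℂ) := by
    rw [← hG.diag, hQs]
  have hnum : G (BdA_w c z) (star (BdA_v c z)) =
      -(2 * Complex.I * (z.im : ℂ)) * G (BdA_w c z) (BdA_Q c z) := by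
    rw [hvs, map_sub, map_smul, hwv, smul_eq_mul]
    ring
  have hss : G (star (BdA_v c z)) (star (BdA_v c z)) = 1 := by
    rw [hG.real, hvv, star_one]
  have hνC : ((nn G (BdA_v c z) : ℝ) : ℂ) =
      ((1 + 2 * z.im ^ 2 * nn G (BdA_Q c z) : ℝ) : ℂ) := by
    rw [← hG.diag]
    rw [hvs] at hss ⊢
    simp only [map_sub, map_smul, _root_.sub_apply, _root_.smul_apply, smul_eq_mul, hvv, hQQ]
      at hss ⊢
    rw [hG.symm (BdA_v c z) (BdA_Q c z)] at hss
    push_cast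
    linear_combination (1 / 2 : ℂ) * hss - 2 * (z.im : ℂ) ^ 2 *
      ((nn G (BdA_Q c z) : ℝ) : ℂ) * Complex.I_sq
  have hν : nn G (BdA_v c z) = 1 + 2 * z.im ^ 2 * nn G (BdA_Q c z) := by exact_mod_cast hνC
  have hq0 : 0 ≤ nn G (BdA_Q c z) := hG.nn_nonneg _
  have hsq : Real.sqrt (nn G (BdA_v c z) ^ 2 - 1) =
      (2 * z.im) * Real.sqrt (nn G (BdA_Q c z) * (1 + z.im ^ 2 * nn G (BdA_Q c z))) := by
    have h3 : nn G (BdA_v c z) ^ 2 - 1 = (2 * z.im) ^ 2 *
        (nn G (BdA_Q c z) * (1 + z.im ^ 2 * nn G (BdA_Q c z))) := by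
      rw [hν]
      ring
    rw [h3, Real.sqrt_mul (by positivity), Real.sqrt_sq (by positivity)]
  rw [h1, hnum, hsq]
  congr 1
  have h4 : ((2 * z.im : ℝ) : ℂ) ≠ 0 := by
    have : 2 * z.im ≠ 0 := by positivity
    exact_mod_cast this
  rw [Complex.ofReal_mul]
  have h5 : -(2 * Complex.I * (z.im : ℂ)) * G (BdA_w c z) (BdA_Q c z) =
      ((2 * z.im : ℝ) : ℂ) * (-Complex.I * G (BdA_w c z) (BdA_Q c z)) := by
    push_cast
    ring
  rw [h5, mul_div_mul_left _ _ h4]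

private theorem BdA_lim0 [ConnectedSpace S] (H : Ctx M σ e G) (hm2 : 2 ≤ m) {C : Set S}
    (hC : IsCC M C) {c : GCell M e G} (hB : BCell C c) {x : ℂ} (hx : x ∈ c.K) (hi : x.im = 0) :
    Tendsto (gC 1 c) (𝓝[c.K ∩ {z | 0 < z.im}] x) (𝓝 0) := by
  have hG := herm H
  obtain ⟨-, hw0, hpos, hzero⟩ := BdA_axis H hC hB hx hi
  have hQ := BdA_limQ H hC hB hx hi
  have hle : 𝓝[c.K ∩ {z | 0 < z.im}] x ≤ 𝓝[c.K] x := nhdsWithin_mono _ inter_subset_left
  have hw : Tendsto (BdA_w c) (𝓝[c.K ∩ {z | 0 < z.im}] x) (𝓝 (BdA_w c x)) :=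
    ((BdA_cont_w H hB) x hx).tendsto.mono_left hle
  have hth : Tendsto (BdA_th c) (𝓝[c.K ∩ {z | 0 < z.im}] x) (𝓝 (BdA_th c x)) :=
    ((BdA_cont_th H hB) x hx).tendsto.mono_left hle
  have him : Tendsto (fun z : ℂ => z.im) (𝓝[c.K ∩ {z | 0 < z.im}] x) (𝓝 0) := by
    have h1 : Tendsto (fun z : ℂ => z.im) (𝓝 x) (𝓝 x.im) := Complex.continuous_im.tendsto x
    rw [hi] at h1
    exact h1.mono_left nhdsWithin_le_nhds
  have hnn : Tendsto (fun z => nn G (BdA_Q c z)) (𝓝[c.K ∩ {z | 0 < z.im}] x)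
      (𝓝 (nn G (BdA_w c x))) := ((BdA_nn_cont G).tendsto _).comp hQ
  have hGl : Tendsto (fun z => G (BdA_w c z) (BdA_Q c z)) (𝓝[c.K ∩ {z | 0 < z.im}] x)
      (𝓝 (G (BdA_w c x) (BdA_w c x))) := by
    have h1 : Continuous fun p : V m × V m => G p.1 p.2 :=
      (G.continuous.comp continuous_fst).clm_apply continuous_snd
    exact (h1.tendsto (BdA_w c x, BdA_w c x)).comp (hw.prodMk_nhds hQ)
  have hsq : Tendsto (fun z : ℂ => Real.sqrt (nn G (BdA_Q c z) *
      (1 + z.im ^ 2 * nn G (BdA_Q c z)))) (𝓝[c.K ∩ {z | 0 < z.im}] x)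
      (𝓝 (Real.sqrt (nn G (BdA_w c x)))) := by
    have h1 := (hnn.mul (tendsto_const_nhds.add ((him.pow 2).mul hnn) :
      Tendsto (fun z : ℂ => 1 + z.im ^ 2 * nn G (BdA_Q c z)) _
        (𝓝 (1 + 0 ^ 2 * nn G (BdA_w c x)))))
    have h2 : nn G (BdA_w c x) * (1 + 0 ^ 2 * nn G (BdA_w c x)) = nn G (BdA_w c x) := by ring
    rw [h2] at h1
    exact (Real.continuous_sqrt.tendsto _).comp h1
  have hsqC : Tendsto (fun z : ℂ => ((Real.sqrt (nn G (BdA_Q c z) *
      (1 + z.im ^ 2 * nn G (BdA_Q c z))) : ℝ) : ℂ)) (𝓝[c.K ∩ {z | 0 < z.im}] x)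
      (𝓝 ((Real.sqrt (nn G (BdA_w c x)) : ℝ) : ℂ)) :=
    (Complex.continuous_ofReal.tendsto _).comp hsq
  have hne : ((Real.sqrt (nn G (BdA_w c x)) : ℝ) : ℂ) ≠ 0 := by
    have := (Real.sqrt_pos.2 hpos).ne'
    exact_mod_cast this
  have hall := (((tendsto_const_nhds (x := -Complex.I)).mul hGl).div hsqC hne).add hth
  have hww : G (BdA_w c x) (BdA_w c x) = ((Real.sqrt (nn G (BdA_w c x)) : ℝ) : ℂ) *
      ((Real.sqrt (nn G (BdA_w c x)) : ℝ) : ℂ) := by
    rw [← Complex.ofReal_mul, Real.mul_self_sqrt hpos.le, ← hG.diag, hw0]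
  have hval : -Complex.I * G (BdA_w c x) (BdA_w c x) /
      ((Real.sqrt (nn G (BdA_w c x)) : ℝ) : ℂ) + BdA_th c x = 0 := by
    rw [hww, ← mul_assoc, mul_div_assoc, div_self hne, mul_one]
    exact hzero
  rw [hval] at hall
  refine hall.congr' ?_
  filter_upwards [self_mem_nhdsWithin] with z hz
  exact (BdA_form H hm2 hC hB hz.1 hz.2).symm

/-- the limit gradient vanishes at the axis -/
theorem bd_zero [ConnectedSpace S] (H : Ctx M σ e G) (hm2 : 2 ≤ m) {C : Set S}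
    (hC : IsCC M C) {c : GCell M e G} (hB : BCell C c) {ε : ℝ} (hε : 0 < ε) :
    ∃ δ > 0, ∀ z ∈ c.K, 0 < z.im → z.im < δ → ‖gC 1 c z‖ ≤ ε := by
  obtain ⟨W, hW⟩ : ∃ W : Set ℂ, W = {z | z ∈ c.K ∧ 0 < z.im ∧ ε < ‖gC 1 c z‖} := ⟨_, rfl⟩
  rcases W.eq_empty_or_nonempty with h0 | h0
  · refine ⟨1, one_pos, fun z hz hi _ => ?_⟩
    by_contra hcon
    have : z ∈ W := by
      rw [hW]
      exact ⟨hz, hi, not_le.1 hcon⟩
    rw [h0] at this
    exact this
  have hcK : IsCompact c.K := isCompact_Rect c.a c.b c.c c.d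
  have hsub : closure W ⊆ c.K := by
    refine closure_minimal ?_ hcK.isClosed
    intro z hz
    rw [hW] at hz
    exact hz.1
  have hcW : IsCompact (closure W) := hcK.of_isClosed_subset isClosed_closure hsub
  obtain ⟨z0, hz0, hmin⟩ := hcW.exists_isMinOn h0.closure Complex.continuous_im.continuousOn
  have hz0K := hsub hz0
  have hz0i : 0 ≤ z0.im := by
    have h1 : c.c ≤ z0.im := hz0K.2.2.1
    rwa [hB.base.1] at h1
  have hpos : 0 < z0.im := by
    refine lt_of_le_of_ne hz0i fun h => ?_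
    have hlim := BdA_lim0 H hm2 hC hB hz0K h.symm
    have hle : 𝓝[W] z0 ≤ 𝓝[c.K ∩ {z | 0 < z.im}] z0 := by
      refine nhdsWithin_mono _ ?_
      intro z hz
      rw [hW] at hz
      exact ⟨hz.1, hz.2.1⟩
    have hlim' := hlim.mono_left hle
    have hev := hlim'.norm.eventually (gt_mem_nhds (show ‖(0 : ℂ)‖ < ε by rwa [norm_zero]))
    have hne : (𝓝[W] z0).NeBot := mem_closure_iff_nhdsWithin_neBot.1 hz0
    obtain ⟨z, hz1, hz2⟩ := (hev.and self_mem_nhdsWithin).exists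
    rw [hW] at hz2
    exact absurd hz1 (not_lt.2 hz2.2.2.le)
  refine ⟨z0.im, hpos, fun z hz hi hlt => ?_⟩
  by_contra hcon
  have hzW : z ∈ W := by
    rw [hW]
    exact ⟨hz, hi, not_le.1 hcon⟩
  have h1 := hmin (subset_closure hzW)
  exact absurd hlt (not_lt.2 h1)

end cells

end Stek.Ca
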