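import Pool.Agent.H.MP_fc2485_gt.Ca.Defs

/-!
Green's formula on a rectangle for a function `χ` which vanishes on three sides.

Proof: `Complex.integral_boundary_rect_of_hasFDerivAt_real_off_countable` for `f = i χ g`:
`I f_x - f_y = -((χ_x + i χ_y) g + χ (g_x + i g_y))`, the real part of which is
`-(pr (dχ) g + χ Re (g_x + i g_y))`; the boundary integral reduces to `∫ f` over the bottom side, with
real part `-∫ χ Im g`. The iterated integral is the integral over the rectangle
(`Complex.volume_preserving_equiv_real_prod`, Fubini; everything is continuous).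
-/

set_option maxSynthPendingDepth 3

open Set Filter Topology InnerProductSpace MeasureTheory
open scoped ContDiff Interval

namespace Stek.Ca

open Stek Surface Sv GCell

private theorem green_rect {a b c d : ℝ} : Rect a b c d = (Icc a b ×ℂ Icc c d) := by
  ext z
  simp only [Rect, Set.mem_ofPred_eq, Complex.mem_reProdIm, mem_Icc]
  tauto

private theorem green_fubini {E : Type*} [NormedAddCommGroup E] [NormedSpace ℝ E] {a b c d : ℝ}
    (hab : a ≤ b) (hcd : c ≤ d) (F : ℂ → E) (hF : ContinuousOn F (Rect a b c d)) :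
    ∫ z in Rect a b c d, F z = ∫ x in a..b, ∫ y in c..d, F (x + y * Complex.I) := by
  have h1 : Rect a b c d = Complex.measurableEquivRealProd ⁻¹' (Icc a b ×ˢ Icc c d) := by
    ext z
    simp only [Rect, Set.mem_ofPred_eq, mem_preimage, mem_prod, mem_Icc,
      Complex.measurableEquivRealProd_apply]
    tauto
  have h2 := (Complex.volume_preserving_equiv_real_prod).setIntegral_preimage_emb
    Complex.measurableEquivRealProd.measurableEmbedding
    (fun p : ℝ × ℝ => F (p.1 + p.2 * Complex.I)) (Icc a b ×ˢ Icc c d)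
  have h3 : ∫ z in Rect a b c d, F z =
      ∫ z in Complex.measurableEquivRealProd ⁻¹' (Icc a b ×ˢ Icc c d),
        F (((Complex.measurableEquivRealProd z).1 : ℂ) +
          ((Complex.measurableEquivRealProd z).2 : ℂ) * Complex.I) := by
    rw [← h1]
    refine integral_congr_ae (Eventually.of_forall fun z => ?_)
    simp only [Complex.measurableEquivRealProd_apply, Complex.re_add_im]
  rw [h3, h2, Measure.volume_eq_prod, setIntegral_prod]
  · rw [integral_Icc_eq_integral_Ioc, intervalIntegral.integral_of_le hab]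
    refine integral_congr_ae (Eventually.of_forall fun x => ?_)
    simp only
    rw [integral_Icc_eq_integral_Ioc, intervalIntegral.integral_of_le hcd]
  · rw [← Measure.volume_eq_prod]
    refine ContinuousOn.integrableOn_compact (isCompact_Icc.prod isCompact_Icc) ?_
    refine hF.comp (by fun_prop) ?_
    rintro ⟨x, y⟩ ⟨hx, hy⟩
    refine ⟨?_, ?_, ?_, ?_⟩ <;> simp
    · exact hx.1
    · exact hx.2
    · exact hy.1
    · exact hy.2

theorem green {a b c d : ℝ} (hab : a ≤ b) (hcd : c ≤ d) {U : Set ℂ} (hU : IsOpen U)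
    (hR : Rect a b c d ⊆ U) {χ : ℂ → ℝ} {g : ℂ → ℂ} (hχ : ContDiffOn ℝ 1 χ U)
    (hg : ContDiffOn ℝ 1 g U) (hl : ∀ z ∈ Rect a b c d, z.re = a → χ z = 0)
    (hr : ∀ z ∈ Rect a b c d, z.re = b → χ z = 0)
    (ht : ∀ z ∈ Rect a b c d, z.im = d → χ z = 0) :
    ∫ z in Rect a b c d, (pr (fderiv ℝ χ z) (g z) +
      χ z * (fderiv ℝ g z 1 + Complex.I * fderiv ℝ g z Complex.I).re) =
      ∫ x in a..b, χ (x + c * Complex.I) * (g (x + c * Complex.I)).im := by
  set f : ℂ → ℂ := fun z => Complex.I * ((χ z : ℂ) * g z) with hf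
  have hχc : ContDiffOn ℝ 1 (fun z => (χ z : ℂ)) U :=
    Complex.ofRealCLM.contDiff.comp_contDiffOn hχ
  have hfU : ContDiffOn ℝ 1 f U := contDiffOn_const.mul (hχc.mul hg)
  have hdiff : ∀ z ∈ U, HasFDerivAt f (fderiv ℝ f z) z := fun z hz =>
    ((hfU.differentiableOn (by norm_num)).differentiableAt (hU.mem_nhds hz)).hasFDerivAt
  have hfd : ∀ z ∈ U, ∀ v : ℂ, fderiv ℝ f z v =
      Complex.I * ((χ z : ℂ) * fderiv ℝ g z v + g z * ((fderiv ℝ χ z v : ℝ) : ℂ)) := by
    intro z hz v
    have e1 : HasFDerivAt χ (fderiv ℝ χ z) z :=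
      ((hχ.differentiableOn (by norm_num)).differentiableAt (hU.mem_nhds hz)).hasFDerivAt
    have e2 : HasFDerivAt g (fderiv ℝ g z) z :=
      ((hg.differentiableOn (by norm_num)).differentiableAt (hU.mem_nhds hz)).hasFDerivAt
    have e3 : HasFDerivAt (fun z => (χ z : ℂ)) (Complex.ofRealCLM.comp (fderiv ℝ χ z)) z :=
      Complex.ofRealCLM.hasFDerivAt.comp z e1
    have e4 : HasFDerivAt f
        (Complex.I • ((χ z : ℂ) • fderiv ℝ g z + g z • Complex.ofRealCLM.comp (fderiv ℝ χ z))) z :=
      (e3.mul e2).const_mul Complex.I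
    rw [e4.fderiv]
    simp
    ring
  have hfc : ContinuousOn (fun z => Complex.I • fderiv ℝ f z 1 - fderiv ℝ f z Complex.I)
      (Rect a b c d) := by
    have h1 : ContinuousOn (fderiv ℝ f) (Rect a b c d) :=
      (hfU.continuousOn_fderiv_of_isOpen hU le_rfl).mono hR
    have h2 : ContinuousOn (fun z => fderiv ℝ f z 1) (Rect a b c d) :=
      h1.clm_apply continuousOn_const
    have h3 : ContinuousOn (fun z => fderiv ℝ f z Complex.I) (Rect a b c d) :=
      h1.clm_apply continuousOn_const
    exact (h2.const_smul Complex.I).sub h3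
  have hcomp : IsCompact (Rect a b c d) := by
    rw [green_rect]
    exact isCompact_Icc.reProdIm isCompact_Icc
  have hset : ([[(⟨a, c⟩ : ℂ).re, (⟨b, d⟩ : ℂ).re]] ×ℂ [[(⟨a, c⟩ : ℂ).im, (⟨b, d⟩ : ℂ).im]]) =
      Rect a b c d := by
    rw [green_rect, uIcc_of_le (show (⟨a, c⟩ : ℂ).re ≤ (⟨b, d⟩ : ℂ).re from hab),
      uIcc_of_le (show (⟨a, c⟩ : ℂ).im ≤ (⟨b, d⟩ : ℂ).im from hcd)]
  have key := Complex.integral_boundary_rect_of_hasFDerivAt_real_off_countable f (fderiv ℝ f)
    ⟨a, c⟩ ⟨b, d⟩ ∅ countable_empty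
    (by
      rw [hset]
      exact hfU.continuousOn.mono hR)
    (by
      rintro z ⟨hz, -⟩
      refine hdiff z (hR ?_)
      obtain ⟨h1, h2⟩ := hz
      simp only [min_eq_left hab, max_eq_right hab, min_eq_left hcd, max_eq_right hcd] at h1 h2
      exact ⟨h1.1.le, h1.2.le, h2.1.le, h2.2.le⟩)
    (by
      rw [hset]
      exact hfc.integrableOn_compact hcomp)
  simp only at key
  rw [← green_fubini hab hcd (fun z => Complex.I • fderiv ℝ f z 1 - fderiv ℝ f z Complex.I) hfc]
    at key
  have z1 : ∫ x : ℝ in a..b, f (x + d * Complex.I) = 0 := by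
    rw [intervalIntegral.integral_congr (g := fun _ => (0 : ℂ)), intervalIntegral.integral_zero]
    intro x hx
    rw [uIcc_of_le hab] at hx
    have : χ (x + d * Complex.I) = 0 := ht _ (by
      refine ⟨?_, ?_, ?_, ?_⟩ <;> simp
      · exact hx.1
      · exact hx.2
      · exact hcd) (by simp)
    simp [hf, this]
  have z2 : ∫ y : ℝ in c..d, f (b + y * Complex.I) = 0 := by
    rw [intervalIntegral.integral_congr (g := fun _ => (0 : ℂ)), intervalIntegral.integral_zero]
    intro y hy
    rw [uIcc_of_le hcd] at hy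
    have : χ (b + y * Complex.I) = 0 := hr _ (by
      refine ⟨?_, ?_, ?_, ?_⟩ <;> simp
      · exact hab
      · exact hy.1
      · exact hy.2) (by simp)
    simp [hf, this]
  have z3 : ∫ y : ℝ in c..d, f (a + y * Complex.I) = 0 := by
    rw [intervalIntegral.integral_congr (g := fun _ => (0 : ℂ)), intervalIntegral.integral_zero]
    intro y hy
    rw [uIcc_of_le hcd] at hy
    have : χ (a + y * Complex.I) = 0 := hl _ (by
      refine ⟨?_, ?_, ?_, ?_⟩ <;> simp
      · exact hab
      · exact hy.1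
      · exact hy.2) (by simp)
    simp [hf, this]
  rw [z1, z2, z3, smul_zero, sub_zero, add_zero, sub_zero] at key
  have hre := congrArg Complex.re key
  have hline : ContinuousOn (fun x : ℝ => f (x + c * Complex.I)) (uIcc a b) := by
    refine (hfU.continuousOn.mono hR).comp (by fun_prop) ?_
    intro x hx
    rw [uIcc_of_le hab] at hx
    refine ⟨?_, ?_, ?_, ?_⟩ <;> simp
    · exact hx.1
    · exact hx.2
    · exact hcd
  have r1 : (∫ x : ℝ in a..b, f (x + c * Complex.I)).re =
      ∫ x : ℝ in a..b, (f (x + c * Complex.I)).re :=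
    (Complex.reCLM.intervalIntegral_comp_comm hline.intervalIntegrable).symm
  have r2 : (∫ z in Rect a b c d, Complex.I • fderiv ℝ f z 1 - fderiv ℝ f z Complex.I).re =
      ∫ z in Rect a b c d, (Complex.I • fderiv ℝ f z 1 - fderiv ℝ f z Complex.I).re :=
    (Complex.reCLM.integral_comp_comm (hfc.integrableOn_compact hcomp)).symm
  rw [r1, r2] at hre
  have q1 : ∫ x : ℝ in a..b, (f (x + c * Complex.I)).re =
      -∫ x : ℝ in a..b, χ (x + c * Complex.I) * (g (x + c * Complex.I)).im := by
    rw [← intervalIntegral.integral_neg]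
    refine intervalIntegral.integral_congr fun x _ => ?_
    simp [hf]
  have q2 : ∫ z in Rect a b c d, (Complex.I • fderiv ℝ f z 1 - fderiv ℝ f z Complex.I).re =
      -∫ z in Rect a b c d, (pr (fderiv ℝ χ z) (g z) +
        χ z * (fderiv ℝ g z 1 + Complex.I * fderiv ℝ g z Complex.I).re) := by
    rw [← integral_neg]
    refine setIntegral_congr_fun hcomp.isClosed.measurableSet fun z hz => ?_
    show (Complex.I • fderiv ℝ f z 1 - fderiv ℝ f z Complex.I).re = _
    rw [hfd z (hR hz), hfd z (hR hz)]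
    simp [pr]
    ring
  rw [q1, q2] at hre
  linarith

end Stek.Ca
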