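import Pool.Agent.H.MP_fc2485_gt.Ca.Sum
import Pool.Agent.H.MP_fc2485_gt.Ca.Green

/-!
The Dirichlet pairing over a cell in the interior is not positive.
-/

set_option maxSynthPendingDepth 3

open Set Filter Topology InnerProductSpace MeasureTheory
open scoped ContDiff

namespace Stek.Ca

open Stek Surface Sv GCell

variable {S : Type*} [TopologicalSpace S] {M : Surface S} {σ : ℝ} {m : ℕ} {e : Fin m → S → ℝ}
  {G : Bl m}

/-- Proof. The integral over `O` is the integral over `Rect a b c' d ⊆ O` (`χ = 0` at the other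
points of `O`, and `fderiv = 0` there or on a null set; the boundary of the rectangle is a null set
and `O \ Rect` is open). `green` on `Rect a b c' d` with `U = O` (`χ = 0` on all four sides by continuity,
since `χ = 0` outside the rectangle): `TT + ∫ χ Lap = 0`, and `Lap ≥ 0` by gC_lap, bet_nonneg. -/
theorem TT_nonpos [ConnectedSpace S] (H : Ctx M σ e G) (hm2 : 2 ≤ m) {C : Set S}
    (hC : IsCC M C) {c : GCell M e G} (hc : Reach C c) {κ : ℝ} (h0 : 0 ≤ κ) (h1 : κ < 1)
    {χ : S → ℝ} (hχ : ∀ x, 0 ≤ χ x) (hs : ContDiffOn ℝ 1 (loc c.φ χ) c.φ.map.target)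
    {a b c' d : ℝ} (ha : c.a < a) (hab : a < b) (hb : b < c.b) (hcd : c' < d) (hd : d < c.d)
    (hc' : c.c < c')
    (hsupp : ∀ x, χ x ≠ 0 → x ∈ c.φ.map.source ∧ c.φ.map x ∈ Rect a b c' d) :
    TT κ c χ ≤ 0 := by
  have hO : IsOpen c.O := isOpen_RectI _ _ _ _
  have hOK : c.O ⊆ c.K := RectI_sub _ _ _ _
  have hOT : c.O ⊆ c.φ.map.target := hOK.trans c.sub
  have hRO : Rect a b c' d ⊆ c.O := fun z hz =>
    ⟨by linarith [hz.1], by linarith [hz.2.1], by linarith [hz.2.2.1], by linarith [hz.2.2.2]⟩
  obtain ⟨u, hu⟩ : ∃ u, u = loc c.φ χ := ⟨_, rfl⟩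
  have hu0 : ∀ z ∈ c.O, z ∉ Rect a b c' d → u z = 0 := by
    intro z hz hzR
    by_contra hne
    rw [hu] at hne
    have h2 := (hsupp _ hne).2
    rw [c.φ.map.right_inv (hOT hz)] at h2
    exact hzR h2
  have hRcl : IsClosed (Rect a b c' d) := by
    have e : Rect a b c' d = {z : ℂ | a ≤ z.re} ∩ ({z : ℂ | z.re ≤ b} ∩
        ({z : ℂ | c' ≤ z.im} ∩ {z : ℂ | z.im ≤ d})) := by
      ext z
      rfl
    rw [e]
    exact (isClosed_le continuous_const Complex.continuous_re).inter
      ((isClosed_le Complex.continuous_re continuous_const).inter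
        ((isClosed_le continuous_const Complex.continuous_im).inter
          (isClosed_le Complex.continuous_im continuous_const)))
  have hRbd : Bornology.IsBounded (Rect a b c' d) := by
    rw [isBounded_iff_forall_norm_le]
    refine ⟨(|a| + |b|) + (|c'| + |d|), fun z hz => ?_⟩
    refine (Complex.norm_le_abs_re_add_abs_im z).trans (add_le_add ?_ ?_)
    · rw [abs_le]
      constructor
      · have := neg_abs_le a
        have := abs_nonneg b
        linarith [hz.1]
      · have := le_abs_self b
        have := abs_nonneg a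
        linarith [hz.2.1]
    · rw [abs_le]
      constructor
      · have := neg_abs_le c'
        have := abs_nonneg d
        linarith [hz.2.2.1]
      · have := le_abs_self d
        have := abs_nonneg c'
        linarith [hz.2.2.2]
  have hRc : IsCompact (Rect a b c' d) := Metric.isCompact_of_isClosed_isBounded hRcl hRbd
  have huO : ContDiffOn ℝ 1 u c.O := by
    rw [hu]
    exact hs.mono hOT
  have hspos : ∀ z ∈ c.O, 0 < nn G (c.Y z) ^ 2 - κ * ‖c.E z‖ ^ 4 := fun z hz =>
    cell_s_pos H hm2 hC hc h0 h1 (hOK hz)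
  have hgO : ContDiffOn ℝ 1 (gC κ c) c.O := gC_smooth H hm2 hC hc hO subset_rfl hspos
  -- values on the sides
  have hside : ∀ z ∈ Rect a b c' d, ∀ v : ℂ, (∀ t : ℝ, 0 < t → z + t • v ∉ Rect a b c' d) →
      u z = 0 := by
    intro z hz v hv
    have hcz : ContinuousAt u z := (huO.continuousOn.continuousAt (hO.mem_nhds (hRO hz)))
    have hpath : Tendsto (fun t : ℝ => z + t • v) (𝓝[>] 0) (𝓝 z) := by
      have hcc : Continuous fun t : ℝ => z + t • v := by fun_prop
      have h3 := hcc.tendsto 0
      simp only [zero_smul, add_zero] at h3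
      exact h3.mono_left nhdsWithin_le_nhds
    have h4 : Tendsto (fun t : ℝ => u (z + t • v)) (𝓝[>] 0) (𝓝 (u z)) :=
      hcz.tendsto.comp hpath
    have h5 : ∀ᶠ t : ℝ in 𝓝[>] 0, u (z + t • v) = 0 := by
      filter_upwards [hpath.eventually (hO.mem_nhds (hRO hz)), self_mem_nhdsWithin] with t ht ht0
      exact hu0 _ ht (hv t ht0)
    exact tendsto_nhds_unique h4 ((tendsto_congr' h5).2 tendsto_const_nhds)
  have hl : ∀ z ∈ Rect a b c' d, z.re = a → u z = 0 := by
    intro z hz hza
    refine hside z hz (-1) fun t ht hzt => ?_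
    have h3 := hzt.1
    simp at h3
    linarith
  have hr : ∀ z ∈ Rect a b c' d, z.re = b → u z = 0 := by
    intro z hz hza
    refine hside z hz 1 fun t ht hzt => ?_
    have h3 := hzt.2.1
    simp at h3
    linarith
  have ht : ∀ z ∈ Rect a b c' d, z.im = d → u z = 0 := by
    intro z hz hza
    refine hside z hz Complex.I fun t ht hzt => ?_
    have h3 := hzt.2.2.2
    simp at h3
    linarith
  have hbt : ∀ z ∈ Rect a b c' d, z.im = c' → u z = 0 := by
    intro z hz hza
    refine hside z hz (-Complex.I) fun t ht hzt => ?_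
    have h3 := hzt.2.2.1
    simp at h3
    linarith
  have hgr := green hab.le hcd.le hO hRO huO hgO hl hr ht
  have hrhs : ∫ x in a..b, u (x + c' * Complex.I) * (gC κ c (x + c' * Complex.I)).im = 0 := by
    rw [intervalIntegral.integral_of_le hab.le]
    refine setIntegral_eq_zero_of_forall_eq_zero fun x hx => ?_
    have h3 : u (x + c' * Complex.I) = 0 := by
      refine hbt _ ⟨?_, ?_, ?_, ?_⟩ ?_
      · simpa using hx.1.le
      · simpa using hx.2
      · simp
      · simpa using hcd.le
      · simp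
    rw [h3, zero_mul]
  rw [hrhs] at hgr
  -- continuity
  have hfu : ContinuousOn (fderiv ℝ u) (Rect a b c' d) :=
    (huO.continuousOn_fderiv_of_isOpen hO le_rfl).mono hRO
  have hfg : ContinuousOn (fderiv ℝ (gC κ c)) (Rect a b c' d) :=
    (hgO.continuousOn_fderiv_of_isOpen hO le_rfl).mono hRO
  have hcg : ContinuousOn (gC κ c) (Rect a b c' d) := hgO.continuousOn.mono hRO
  have hcu : ContinuousOn u (Rect a b c' d) := huO.continuousOn.mono hRO
  have hc1 : ContinuousOn (fun z => pr (fderiv ℝ u z) (gC κ c z)) (Rect a b c' d) := by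
    unfold pr
    exact ((hfu.clm_apply continuousOn_const).mul
      (Complex.continuous_re.comp_continuousOn hcg)).sub
        ((hfu.clm_apply continuousOn_const).mul (Complex.continuous_im.comp_continuousOn hcg))
  have hc2 : ContinuousOn (fun z => u z * (fderiv ℝ (gC κ c) z 1 +
      Complex.I * fderiv ℝ (gC κ c) z Complex.I).re) (Rect a b c' d) :=
    hcu.mul (Complex.continuous_re.comp_continuousOn ((hfg.clm_apply continuousOn_const).add
      (continuousOn_const.mul (hfg.clm_apply continuousOn_const))))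
  have hi1 := hc1.integrableOn_compact (μ := volume) hRc
  have hi2 := hc2.integrableOn_compact (μ := volume) hRc
  rw [integral_add hi1 hi2] at hgr
  have hnon : 0 ≤ ∫ z in Rect a b c' d, u z * (fderiv ℝ (gC κ c) z 1 +
      Complex.I * fderiv ℝ (gC κ c) z Complex.I).re := by
    refine setIntegral_nonneg hRcl.measurableSet fun z hz => ?_
    have hzO := hRO hz
    refine mul_nonneg (by rw [hu]; exact hχ _) ?_
    rw [gC_lap H hm2 hC hc hzO (hspos z hzO)]
    have h3 : 0 ≤ bet G κ (c.Y z) (c.E z) (Fv c.φ e 0 z) :=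
      bet_nonneg (herm H) h0 h1.le (cell_quad H hC hc (hOK hzO)) _
    have h4 : 0 ≤ ss G κ (c.Y z) (c.E z) := Real.sqrt_nonneg _
    positivity
  have hTT : TT κ c χ = ∫ z in Rect a b c' d, pr (fderiv ℝ u z) (gC κ c z) := by
    unfold TT
    rw [← hu]
    refine setIntegral_eq_of_subset_of_forall_sdiff_eq_zero hO.measurableSet hRO fun z hz => ?_
    have hopen : IsOpen (c.O \ Rect a b c' d) := hO.sdiff hRcl
    have h3 : u =ᶠ[𝓝 z] fun _ => (0 : ℝ) := by
      filter_upwards [hopen.mem_nhds hz] with y hy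
      exact hu0 y hy.1 hy.2
    have h4 : fderiv ℝ u z = 0 := by
      rw [h3.fderiv_eq]
      simp
    rw [h4]
    simp [pr]
  rw [hTT]
  linarith

end Stek.Ca
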