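import Pool.Agent.H.MP_fc2485_gt.Ca.BdA
import Pool.Agent.H.MP_fc2485_gt.Ca.Int

/-!
The Dirichlet pairing over a boundary cell, in the limit `κ → 1`.
-/

set_option maxSynthPendingDepth 3

open Set Filter Topology InnerProductSpace MeasureTheory
open scoped ContDiff

namespace Stek.Ca

open Stek Surface Sv GCell

variable {S : Type*} [TopologicalSpace S] {M : Surface S} {σ : ℝ} {m : ℕ} {e : Fin m → S → ℝ}
  {G : Bl m}

private theorem bdB_O_sub (c : GCell M e G) : c.O ⊆ c.φ.map.target :=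
  (RectI_sub _ _ _ _).trans c.sub

private theorem bdB_pr_le (A : ℂ →L[ℝ] ℝ) (g : ℂ) : ‖pr A g‖ ≤ 2 * ‖A‖ * ‖g‖ := by
  unfold pr
  have h1 : ‖A 1‖ ≤ ‖A‖ := by simpa using A.le_opNorm 1
  have h2 : ‖A Complex.I‖ ≤ ‖A‖ := by simpa using A.le_opNorm Complex.I
  have h3 : ‖g.re‖ ≤ ‖g‖ := Complex.abs_re_le_norm g
  have h4 : ‖g.im‖ ≤ ‖g‖ := Complex.abs_im_le_norm g
  refine (norm_sub_le _ _).trans ?_
  rw [norm_mul, norm_mul]
  have h5 := mul_le_mul h1 h3 (norm_nonneg _) (norm_nonneg _)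
  have h6 := mul_le_mul h2 h4 (norm_nonneg _) (norm_nonneg _)
  linarith

private theorem bdB_pr_cont {U : Set ℂ} {A : ℂ → ℂ →L[ℝ] ℝ} {g : ℂ → ℂ} (hA : ContinuousOn A U)
    (hg : ContinuousOn g U) : ContinuousOn (fun z => pr (A z) (g z)) U := by
  unfold pr
  exact ((hA.clm_apply continuousOn_const).mul (Complex.continuous_re.comp_continuousOn hg)).sub
    ((hA.clm_apply continuousOn_const).mul (Complex.continuous_im.comp_continuousOn hg))

private theorem bdB_dbound (c : GCell M e G) {χ : S → ℝ}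
    (hs : ContDiffOn ℝ 1 (loc c.φ χ) c.φ.map.target) :
    ∃ C : ℝ, ∀ z ∈ c.O, ‖fderiv ℝ (loc c.φ χ) z‖ ≤ C := by
  have h1 : ContinuousOn (fderivWithin ℝ (loc c.φ χ) c.φ.map.target) c.K :=
    (hs.continuousOn_fderivWithin (uniqueDiffOn c.φ) le_rfl).mono c.sub
  obtain ⟨C, hC⟩ := (isCompact_Rect _ _ _ _).exists_bound_of_continuousOn h1
  refine ⟨C, fun z hz => ?_⟩
  have h2 := hC z (RectI_sub _ _ _ _ hz)
  rwa [fderivWithin_of_mem_nhds (dom_nhds c.φ (bdB_O_sub c hz) (c.im_pos hz))] at h2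

private theorem bdB_vol (c : GCell M e G) : volume c.O < ⊤ :=
  (measure_mono (RectI_sub _ _ _ _)).trans_lt (isCompact_Rect _ _ _ _).measure_lt_top

/-- dominated convergence (bd_bound, bd_lim; `fderiv (loc c.φ χ)` is bounded on `O`, `gC κ` is
continuous on `O`) -/
theorem TT_tendsto [ConnectedSpace S] (H : Ctx M σ e G) (hm2 : 2 ≤ m) {C : Set S}
    (hC : IsCC M C) {c : GCell M e G} (hB : BCell C c) {χ : S → ℝ}
    (hs : ContDiffOn ℝ 1 (loc c.φ χ) c.φ.map.target) :
    Tendsto (fun κ => TT κ c χ) (𝓝[<] 1) (𝓝 (TT 1 c χ)) := by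
  obtain ⟨B, hBd⟩ := bd_bound H hm2 hC hB
  obtain ⟨C1, hC1⟩ := bdB_dbound c hs
  have hOo : IsOpen c.O := isOpen_RectI _ _ _ _
  have hev : ∀ᶠ κ in 𝓝[<] (1 : ℝ), κ ∈ Ioo (0 : ℝ) 1 := Ioo_mem_nhdsLT zero_lt_one
  have hdf : ContinuousOn (fderiv ℝ (loc c.φ χ)) c.O :=
    (hs.mono (bdB_O_sub c)).continuousOn_fderiv_of_isOpen hOo le_rfl
  unfold TT
  refine tendsto_integral_filter_of_dominated_convergence (fun _ => 2 * C1 * B) ?_ ?_ ?_ ?_
  · filter_upwards [hev] with κ hκ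
    refine ContinuousOn.aestronglyMeasurable ?_ hOo.measurableSet
    exact bdB_pr_cont hdf
      ((gC_cont H hm2 hC (Reach.base hB.base) hκ.1.le hκ.2).mono (RectI_sub _ _ _ _))
  · filter_upwards [hev] with κ hκ
    refine (ae_restrict_iff' hOo.measurableSet).2 (Eventually.of_forall fun z hz => ?_)
    refine (bdB_pr_le _ _).trans ?_
    have h1 := hC1 z hz
    have h2 := hBd κ ⟨hκ.1.le, hκ.2.le⟩ z hz
    have h3 : ‖fderiv ℝ (loc c.φ χ) z‖ * ‖gC κ c z‖ ≤ C1 * B :=
      mul_le_mul h1 h2 (norm_nonneg _) ((norm_nonneg _).trans h1)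
    linarith
  · exact integrableOn_const (bdB_vol c).ne
  · refine (ae_restrict_iff' hOo.measurableSet).2 (Eventually.of_forall fun z hz => ?_)
    have h1 : Continuous fun g : ℂ => pr (fderiv ℝ (loc c.φ χ) z) g := by
      unfold pr
      fun_prop
    exact (h1.tendsto _).comp (bd_lim H hm2 hC hB hz)

/-- Proof. For `0 < δ` small, `green` on `Rect a b δ d ⊆ O` with `κ = 1` (smooth there, `χ = 0` on three
sides): `∫_{Rect a b δ d} pr + ∫_{Rect a b δ d} χ Lap = ∫_a^b χ Im gC 1 (x + iδ)`, which tends to `0` by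
bd_zero. So `TT 1 c χ = - lim ∫_{Rect a b δ d} χ Lap`, with `χ Lap ≥ 0`. If `TT 1 c χ = 0` then all
these integrals are `0`, so `χ Lap = 0` by continuity, and `Lap = 2 |E|²/s³ bet` with `E ≠ 0`. -/
theorem TT_one [ConnectedSpace S] (H : Ctx M σ e G) (hm2 : 2 ≤ m) {C : Set S}
    (hC : IsCC M C) {c : GCell M e G} (hB : BCell C c)
    {χ : S → ℝ} (hχ : ∀ x, 0 ≤ χ x) (hs : ContDiffOn ℝ 1 (loc c.φ χ) c.φ.map.target)
    {a b d : ℝ} (ha : c.a < a) (hab : a < b) (hb : b < c.b) (hd0 : 0 < d) (hd : d < c.d)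
    (hsupp : ∀ x, χ x ≠ 0 → x ∈ c.φ.map.source ∧ c.φ.map x ∈ Rect a b 0 d) :
    TT 1 c χ ≤ 0 ∧ (TT 1 c χ = 0 → ∀ z ∈ c.O, χ (c.φ.map.symm z) ≠ 0 →
      bet G 1 (c.Y z) (c.E z) (Fv c.φ e 0 z) = 0) := by
  obtain ⟨f, hf⟩ : ∃ f, f = loc c.φ χ := ⟨_, rfl⟩
  obtain ⟨g, hg⟩ : ∃ g, g = gC 1 c := ⟨_, rfl⟩
  have hc0 : c.c = 0 := hB.base.1
  have hR : Reach C c := Reach.base hB.base
  have hOo : IsOpen c.O := isOpen_RectI _ _ _ _
  have hOK : c.O ⊆ c.K := RectI_sub _ _ _ _
  rw [← hf] at hs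
  have hfK : ContinuousOn f c.K := hs.continuousOn.mono c.sub
  have hfO : ContDiffOn ℝ 1 f c.O := hs.mono (bdB_O_sub c)
  have hpos : ∀ z ∈ c.O, 0 < nn G (c.Y z) ^ 2 - 1 * ‖c.E z‖ ^ 4 := fun z hz => by
    have := hB.im z (hOK hz) (c.im_pos hz)
    linarith
  have hgO : ContDiffOn ℝ 1 g c.O := by
    rw [hg]
    exact gC_smooth H hm2 hC hR hOo subset_rfl hpos
  have hf0 : ∀ z, 0 ≤ f z := fun z => by
    rw [hf]
    exact hχ _
  -- `f` vanishes outside the rectangle
  have hout : ∀ z ∈ c.K, z ∉ Rect a b 0 d → f z = 0 := by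
    intro z hz hn
    by_contra hne
    rw [hf] at hne
    have := hsupp (c.φ.map.symm z) hne
    rw [c.φ.map.right_inv (c.sub hz)] at this
    exact hn this.2
  have hstrict : ∀ z ∈ c.O, f z ≠ 0 → a < z.re ∧ z.re < b ∧ z.im < d := by
    intro z hz hne
    have hn : Rect a b 0 d ∈ 𝓝 z := by
      have h1 : ContinuousAt f z := hfO.continuousOn.continuousAt (hOo.mem_nhds hz)
      filter_upwards [h1.eventually_ne hne, hOo.mem_nhds hz] with w h2 h3
      by_contra h4
      exact h2 (hout w (hOK h3) h4)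
    obtain ⟨ε, hε, hball⟩ := Metric.mem_nhds_iff.1 hn
    have key : ∀ v : ℂ, ‖v‖ < ε → z + v ∈ Rect a b 0 d := fun v hv => hball (by
      rw [Metric.mem_ball, dist_eq_norm]
      simpa using hv)
    have h1 := key (-((ε / 2 : ℝ) : ℂ)) (by
      rw [norm_neg, Complex.norm_real, Real.norm_eq_abs, abs_of_pos (by linarith)]
      linarith)
    have h2 := key ((ε / 2 : ℝ) : ℂ) (by
      rw [Complex.norm_real, Real.norm_eq_abs, abs_of_pos (by linarith)]
      linarith)
    have h3 := key (((ε / 2 : ℝ) : ℂ) * Complex.I) (by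
      rw [norm_mul, Complex.norm_real, Complex.norm_I, Real.norm_eq_abs, abs_of_pos (by linarith)]
      linarith)
    have e1 := h1.1
    have e2 := h2.2.1
    have e3 := h3.2.2.2
    simp only [Complex.add_re, Complex.neg_re, Complex.ofReal_re, Complex.add_im, Complex.mul_im,
      Complex.I_re, Complex.I_im, Complex.ofReal_im, mul_one, mul_zero, add_zero] at e1 e2 e3
    exact ⟨by linarith, by linarith, by linarith⟩
  -- the rectangles
  have hsubO : ∀ δ : ℝ, 0 < δ → Rect a b δ d ⊆ c.O := by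
    rintro δ hδ z ⟨h1, h2, h3, h4⟩
    exact ⟨by linarith, by linarith, by rw [hc0]; linarith, by linarith⟩
  obtain ⟨δ, hδ⟩ : ∃ δ : ℕ → ℝ, δ = fun n : ℕ => d / ((n : ℝ) + 2) := ⟨_, rfl⟩
  have hδ0 : ∀ n, 0 < δ n := fun n => by
    rw [hδ]
    positivity
  have hδd : ∀ n, δ n ≤ d := fun n => by
    simp only [hδ]
    apply div_le_self hd0.le
    have : (0 : ℝ) ≤ n := n.cast_nonneg
    linarith
  have hδanti : Antitone δ := by
    intro n n' hnn
    simp only [hδ]
    have h1 : (n : ℝ) ≤ n' := by exact_mod_cast hnn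
    have h2 : (0 : ℝ) ≤ n := n.cast_nonneg
    exact div_le_div_of_nonneg_left hd0.le (by linarith) (by linarith)
  have hδlim : Tendsto δ atTop (𝓝 0) := by
    rw [hδ]
    refine Tendsto.div_atTop tendsto_const_nhds ?_
    exact tendsto_atTop_add_const_right _ _ tendsto_natCast_atTop_atTop
  obtain ⟨s, hs'⟩ : ∃ s : ℕ → Set ℂ, s = fun n => Rect a b (δ n) d := ⟨_, rfl⟩
  have hsm : ∀ n, MeasurableSet (s n) := fun n => by
    rw [hs']
    exact (isCompact_Rect _ _ _ _).isClosed.measurableSet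
  have hsc : ∀ n, IsCompact (s n) := fun n => by
    rw [hs']
    exact isCompact_Rect _ _ _ _
  have hsO : ∀ n, s n ⊆ c.O := fun n => by
    rw [hs']
    exact hsubO _ (hδ0 n)
  have hmono : Monotone s := by
    intro n n' hnn z hz
    rw [hs'] at hz ⊢
    exact ⟨hz.1, hz.2.1, (hδanti hnn).trans hz.2.2.1, hz.2.2.2⟩
  -- the functions
  obtain ⟨h, hh⟩ : ∃ h : ℂ → ℝ, h = fun z => pr (fderiv ℝ f z) (g z) := ⟨_, rfl⟩
  obtain ⟨L, hL⟩ : ∃ L : ℂ → ℝ,
    L = fun z => (fderiv ℝ g z 1 + Complex.I * fderiv ℝ g z Complex.I).re := ⟨_, rfl⟩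
  have hdf : ContinuousOn (fderiv ℝ f) c.O := hfO.continuousOn_fderiv_of_isOpen hOo le_rfl
  have hdg : ContinuousOn (fderiv ℝ g) c.O := hgO.continuousOn_fderiv_of_isOpen hOo le_rfl
  have hhc : ContinuousOn h c.O := by
    rw [hh]
    exact bdB_pr_cont hdf hgO.continuousOn
  have hLc : ContinuousOn L c.O := by
    rw [hL]
    refine Complex.continuous_re.comp_continuousOn ?_
    exact (hdg.clm_apply continuousOn_const).add
      (continuousOn_const.mul (hdg.clm_apply continuousOn_const))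
  have hfL : ContinuousOn (fun z => f z * L z) c.O := hfO.continuousOn.mul hLc
  have hLeq : ∀ z ∈ c.O, L z = 2 * (‖c.E z‖ ^ 2 / ss G 1 (c.Y z) (c.E z) ^ 3 *
      bet G 1 (c.Y z) (c.E z) (Fv c.φ e 0 z)) := by
    intro z hz
    rw [hL, hg]
    exact gC_lap H hm2 hC hR hz (hpos z hz)
  have hss : ∀ z ∈ c.O, 0 < ss G 1 (c.Y z) (c.E z) := fun z hz => Real.sqrt_pos.2 (hpos z hz)
  have hbet : ∀ z ∈ c.O, 0 ≤ bet G 1 (c.Y z) (c.E z) (Fv c.φ e 0 z) := fun z hz =>
    bet_nonneg (herm H) zero_le_one le_rfl (cell_quad H hC hR (hOK hz)) _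
  have hL0 : ∀ z ∈ c.O, 0 ≤ L z := by
    intro z hz
    rw [hLeq z hz]
    have h1 := hss z hz
    have h2 := hbet z hz
    positivity
  -- the integral over the cell
  have hhint : IntegrableOn h c.O := by
    obtain ⟨B, hBd⟩ := bd_bound H hm2 hC hB
    obtain ⟨C1, hC1⟩ := bdB_dbound c (hf ▸ hs)
    refine Integrable.mono' (g := fun _ => 2 * C1 * B) (integrableOn_const (bdB_vol c).ne)
      (hhc.aestronglyMeasurable hOo.measurableSet) ?_
    refine (ae_restrict_iff' hOo.measurableSet).2 (Eventually.of_forall fun z hz => ?_)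
    rw [hh]
    refine (bdB_pr_le _ _).trans ?_
    have h1 := hC1 z hz
    rw [← hf] at h1
    have h2 := hBd 1 ⟨zero_le_one, le_rfl⟩ z hz
    rw [← hg] at h2
    have h3 : ‖fderiv ℝ f z‖ * ‖g z‖ ≤ C1 * B :=
      mul_le_mul h1 h2 (norm_nonneg _) ((norm_nonneg _).trans h1)
    linarith
  have hUO : (⋃ n, s n) ⊆ c.O := iUnion_subset hsO
  have hTT : TT 1 c χ = ∫ z in ⋃ n, s n, h z := by
    unfold TT
    rw [hh, hg, hf]
    refine setIntegral_eq_of_subset_of_forall_sdiff_eq_zero hOo.measurableSet hUO ?_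
    rintro z ⟨hz, hzn⟩
    have h1 : z ∉ Rect a b 0 d := by
      intro h2
      apply hzn
      have h3 : 0 < z.im := c.im_pos hz
      obtain ⟨n, hn⟩ := (hδlim.eventually (eventually_lt_nhds h3)).exists
      rw [mem_iUnion]
      refine ⟨n, ?_⟩
      rw [hs']
      exact ⟨h2.1, h2.2.1, hn.le, h2.2.2.2⟩
    have h2 : ∀ᶠ w in 𝓝 z, loc c.φ χ w = 0 := by
      have h3 : (Rect a b 0 d)ᶜ ∈ 𝓝 z :=
        ((isCompact_Rect _ _ _ _).isClosed.isOpen_compl).mem_nhds h1
      filter_upwards [h3, hOo.mem_nhds hz] with w h4 h5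
      have := hout w (hOK h5) h4
      rwa [hf] at this
    have h3 : fderiv ℝ (loc c.φ χ) z = 0 := by
      have h4 : loc c.φ χ =ᶠ[𝓝 z] fun _ => (0 : ℝ) := h2
      rw [h4.fderiv_eq]
      simp
    simp [h3, pr]
  have hA : Tendsto (fun n => ∫ z in s n, h z) atTop (𝓝 (TT 1 c χ)) := by
    rw [hTT]
    exact tendsto_setIntegral_of_monotone hsm hmono (hhint.mono_set hUO)
  -- Green's formula
  have hgreen : ∀ n, (∫ z in s n, h z) + ∫ z in s n, f z * L z =
      ∫ x in a..b, f (x + δ n * Complex.I) * (g (x + δ n * Complex.I)).im := by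
    intro n
    have hi1 : IntegrableOn h (s n) := (hhc.mono (hsO n)).integrableOn_compact (hsc n)
    have hi2 : IntegrableOn (fun z => f z * L z) (s n) :=
      (hfL.mono (hsO n)).integrableOn_compact (hsc n)
    rw [← integral_add hi1 hi2, hh, hL, hs']
    have hside : ∀ z ∈ Rect a b (δ n) d, (z.re = a ∨ z.re = b ∨ z.im = d) → f z = 0 := by
      intro z hz h1
      by_contra hne
      obtain ⟨h2, h3, h4⟩ := hstrict z (hsubO _ (hδ0 n) hz) hne
      rcases h1 with h1 | h1 | h1 <;> linarith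
    exact green hab.le (hδd n) hOo (hsubO _ (hδ0 n)) hfO hgO
      (fun z hz h1 => hside z hz (Or.inl h1)) (fun z hz h1 => hside z hz (Or.inr (Or.inl h1)))
      (fun z hz h1 => hside z hz (Or.inr (Or.inr h1)))
  have hBn : ∀ n, 0 ≤ ∫ z in s n, f z * L z := fun n =>
    setIntegral_nonneg (hsm n) fun z hz => mul_nonneg (hf0 z) (hL0 z (hsO n hz))
  -- the boundary term tends to zero
  have hRn : Tendsto (fun n => ∫ x in a..b, f (x + δ n * Complex.I) *
      (g (x + δ n * Complex.I)).im) atTop (𝓝 0) := by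
    obtain ⟨Cf, hCf⟩ := (isCompact_Rect _ _ _ _).exists_bound_of_continuousOn hfK
    have hCf' : ∀ z ∈ c.K, ‖f z‖ ≤ Cf := hCf
    have hCf0 : 0 ≤ Cf := by
      obtain ⟨z, hz⟩ := c.O_nonempty
      exact (norm_nonneg _).trans (hCf' z (hOK hz))
    rw [Metric.tendsto_atTop]
    intro ε hε
    obtain ⟨ε', hε', hεle⟩ : ∃ ε' > 0, Cf * ε' * (b - a) < ε := by
      refine ⟨ε / (2 * (Cf * (b - a) + 1)), ?_, ?_⟩
      · have : 0 ≤ Cf * (b - a) := mul_nonneg hCf0 (by linarith)
        positivity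
      · have h1 : 0 ≤ Cf * (b - a) := mul_nonneg hCf0 (by linarith)
        have h2 : Cf * (ε / (2 * (Cf * (b - a) + 1))) * (b - a) =
            (ε / 2) * (Cf * (b - a) / (Cf * (b - a) + 1)) := by
          field_simp
        rw [h2]
        have h3 : Cf * (b - a) / (Cf * (b - a) + 1) ≤ 1 := by
          rw [div_le_one (by linarith)]
          linarith
        nlinarith
    obtain ⟨δ', hδ', hzero⟩ := bd_zero H hm2 hC hB hε'
    obtain ⟨N, hN⟩ := eventually_atTop.1 (hδlim.eventually (eventually_lt_nhds hδ'))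
    refine ⟨N, fun n hn => ?_⟩
    rw [dist_zero_right]
    refine lt_of_le_of_lt (intervalIntegral.norm_integral_le_of_norm_le_const
      (C := Cf * ε') fun x hx => ?_) ?_
    · rw [uIoc_of_le hab.le] at hx
      have hxO : ((x : ℂ) + δ n * Complex.I) ∈ c.O := by
        apply hsubO (δ n) (hδ0 n)
        refine ⟨?_, ?_, ?_, ?_⟩ <;> simp
        · exact hx.1.le
        · exact hx.2
        · exact hδd n
      have him : ((x : ℂ) + δ n * Complex.I).im = δ n := by simp
      rw [norm_mul]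
      refine mul_le_mul (hCf' _ (hOK hxO)) ?_ (norm_nonneg _) hCf0
      refine (Complex.abs_im_le_norm _).trans ?_
      rw [hg]
      refine hzero _ (hOK hxO) ?_ ?_
      · rw [him]
        exact hδ0 n
      · rw [him]
        exact hN n hn
    · rw [abs_of_pos (by linarith)]
      exact hεle
  refine ⟨?_, ?_⟩
  · refine le_of_tendsto_of_tendsto' hA hRn fun n => ?_
    have h1 := hgreen n
    have h2 := hBn n
    linarith
  · intro h0 z hz hne
    have hne' : f z ≠ 0 := by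
      rw [hf]
      exact hne
    have hBlim : Tendsto (fun n => ∫ z in s n, f z * L z) atTop (𝓝 0) := by
      have h1 := hRn.sub hA
      rw [h0, sub_zero] at h1
      refine h1.congr fun n => ?_
      have := hgreen n
      linarith
    have hBmono : Monotone fun n => ∫ z in s n, f z * L z := by
      intro n n' hnn
      refine setIntegral_mono_set ((hfL.mono (hsO n')).integrableOn_compact (hsc n')) ?_
        (hmono hnn).eventuallyLE
      refine (ae_restrict_iff' (hsm n')).2 (Eventually.of_forall fun w hw => ?_)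
      exact mul_nonneg (hf0 w) (hL0 w (hsO n' hw))
    have hB0 : ∀ n, ∫ z in s n, f z * L z = 0 := fun n =>
      le_antisymm (hBmono.ge_of_tendsto hBlim n) (hBn n)
    have him : 0 < z.im := c.im_pos hz
    obtain ⟨n, hn⟩ := (hδlim.eventually (eventually_lt_nhds him)).exists
    obtain ⟨g1, g2, g3⟩ := hstrict z hz hne'
    have hUs : RectI a b (δ n) d ⊆ s n := by
      rw [hs']
      exact RectI_sub _ _ _ _
    have hae : (fun z => f z * L z) =ᵐ[volume.restrict (s n)] 0 := by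
      refine (setIntegral_eq_zero_iff_of_nonneg_ae ?_
        ((hfL.mono (hsO n)).integrableOn_compact (hsc n))).1 (hB0 n)
      refine (ae_restrict_iff' (hsm n)).2 (Eventually.of_forall fun w hw => ?_)
      exact mul_nonneg (hf0 w) (hL0 w (hsO n hw))
    have hae' : (fun z => f z * L z) =ᵐ[volume.restrict (RectI a b (δ n) d)] 0 :=
      ae_restrict_of_ae_restrict_of_subset hUs hae
    have heq := Measure.eqOn_open_of_ae_eq hae' (isOpen_RectI _ _ _ _)
      (hfL.mono (hUs.trans (hsO n))) continuousOn_const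
    have h1 : f z * L z = 0 := heq ⟨g1, g2, hn, g3⟩
    have h2 : L z = 0 := (mul_eq_zero.1 h1).resolve_left hne'
    rw [hLeq z hz] at h2
    have h3 := hss z hz
    have h4 : 0 < ‖c.E z‖ := norm_pos_iff.2 (hB.ene z (hOK hz))
    have h5 : ‖c.E z‖ ^ 2 / ss G 1 (c.Y z) (c.E z) ^ 3 ≠ 0 := by positivity
    rcases mul_eq_zero.1 h2 with h6 | h6
    · norm_num at h6
    · exact (mul_eq_zero.1 h6).resolve_left h5

end Stek.Ca
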