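import Pool.Agent.H.MP_fc2485_gt.Ca.Defs

/-!
Partitions of unity subordinate to cells.
-/

set_option maxSynthPendingDepth 3

open Set Filter Topology InnerProductSpace MeasureTheory
open scoped ContDiff

namespace Stek.Ca

open Stek Surface Sv GCell

variable {S : Type*} [TopologicalSpace S] {M : Surface S} {σ : ℝ} {m : ℕ} {e : Fin m → S → ℝ}
  {G : Bl m}

/-- the interior of the rectangle of a cell relative to the closed half plane -/
def Kin (c : GCell M e G) : Set ℂ :=
  {z | c.a < z.re ∧ z.re < c.b ∧ z.im < c.d ∧ (c.c < z.im ∨ (c.c = 0 ∧ z.im = 0))}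

/-- finitely many cells with a subordinate partition of unity -/
structure Fam {n : ℕ} (c : Fin n → GCell M e G) (χ : Fin n → S → ℝ) : Prop where
  nonneg : ∀ i x, 0 ≤ χ i x
  sum : ∀ x, ∑ i, χ i x = 1
  smooth : ∀ i, ∀ φ ∈ M.charts, ContDiffOn ℝ 1 (loc φ (χ i)) φ.map.target
  supp : ∀ i, ∃ a b c' d, (c i).a < a ∧ a < b ∧ b < (c i).b ∧ c' < d ∧ d < (c i).d ∧
    ((c i).c < c' ∨ ((c i).c = 0 ∧ c' = 0)) ∧
    IsClosed {x | x ∈ (c i).φ.map.source ∧ (c i).φ.map x ∈ Rect a b c' d} ∧
    ∀ x, χ i x ≠ 0 → x ∈ (c i).φ.map.source ∧ (c i).φ.map x ∈ Rect a b c' d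

/-- a bump function of one variable -/
private noncomputable def pouB (l r t : ℝ) : ℝ :=
  Real.smoothTransition (t - l) * Real.smoothTransition (r - t)

private theorem pouB_nonneg (l r t : ℝ) : 0 ≤ pouB l r t :=
  mul_nonneg (Real.smoothTransition.nonneg _) (Real.smoothTransition.nonneg _)

private theorem pouB_pos {l r t : ℝ} (h1 : l < t) (h2 : t < r) : 0 < pouB l r t :=
  mul_pos (Real.smoothTransition.pos_of_pos (by linarith))
    (Real.smoothTransition.pos_of_pos (by linarith))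

private theorem pouB_mem {l r t : ℝ} (h : pouB l r t ≠ 0) : l < t ∧ t < r := by
  constructor
  · by_contra hcon
    apply h
    unfold pouB
    rw [Real.smoothTransition.zero_of_nonpos (by linarith), zero_mul]
  · by_contra hcon
    apply h
    unfold pouB
    rw [Real.smoothTransition.zero_of_nonpos (by linarith : r - t ≤ 0), mul_zero]

private theorem pouB_contDiff (l r : ℝ) : ContDiff ℝ ∞ (pouB l r) := by
  unfold pouB
  exact (Real.smoothTransition.contDiff.comp (contDiff_id.sub contDiff_const)).mul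
    (Real.smoothTransition.contDiff.comp (contDiff_const.sub contDiff_id))

/-- a bump function of two variables -/
private noncomputable def pouC (a b c d : ℝ) (z : ℂ) : ℝ := pouB a b z.re * pouB c d z.im

private theorem pouC_contDiff (a b c d : ℝ) : ContDiff ℝ ∞ (pouC a b c d) := by
  unfold pouC
  exact ((pouB_contDiff a b).comp Complex.reCLM.contDiff).mul
    ((pouB_contDiff c d).comp Complex.imCLM.contDiff)

private theorem pouC_nonneg (a b c d : ℝ) (z : ℂ) : 0 ≤ pouC a b c d z :=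
  mul_nonneg (pouB_nonneg _ _ _) (pouB_nonneg _ _ _)

private theorem pouC_pos_iff (a b c d : ℝ) (z : ℂ) : 0 < pouC a b c d z ↔ z ∈ RectI a b c d := by
  constructor
  · intro h
    have h1 : pouB a b z.re ≠ 0 := by
      intro h0
      unfold pouC at h
      rw [h0, zero_mul] at h
      exact lt_irrefl _ h
    have h2 : pouB c d z.im ≠ 0 := by
      intro h0
      unfold pouC at h
      rw [h0, mul_zero] at h
      exact lt_irrefl _ h
    exact ⟨(pouB_mem h1).1, (pouB_mem h1).2, (pouB_mem h2).1, (pouB_mem h2).2⟩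
  · rintro ⟨h1, h2, h3, h4⟩
    exact mul_pos (pouB_pos h1 h2) (pouB_pos h3 h4)

private theorem pou_isCompact_rect (a b c d : ℝ) : IsCompact (Rect a b c d) := by
  have h1 : Rect a b c d = Complex.equivRealProdCLM ⁻¹' (Icc a b ×ˢ Icc c d) := by
    ext z
    simp only [Rect, Set.mem_ofPred_eq, Set.mem_preimage, Set.mem_prod, Set.mem_Icc,
      Complex.equivRealProdCLM_apply]
    tauto
  rw [h1]
  exact Complex.equivRealProdCLM.toHomeomorph.isCompact_preimage.mpr
    (isCompact_Icc.prod isCompact_Icc)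

/-- the bump function of a cell around a point -/
private theorem pou_bump [T2Space S] (c : GCell M e G) {x : S} (hx : x ∈ c.φ.map.source)
    (hK : c.φ.map x ∈ Kin c) :
    ∃ B : S → ℝ, (∀ y, 0 ≤ B y) ∧ 0 < B x ∧ IsOpen {y | 0 < B y} ∧
      (∀ ψ ∈ M.charts, ContDiffOn ℝ 1 (loc ψ B) ψ.map.target) ∧
      ∃ a b c' d, c.a < a ∧ a < b ∧ b < c.b ∧ c' < d ∧ d < c.d ∧
        (c.c < c' ∨ (c.c = 0 ∧ c' = 0)) ∧
        IsClosed {y | y ∈ c.φ.map.source ∧ c.φ.map y ∈ Rect a b c' d} ∧
        ∀ y, B y ≠ 0 → y ∈ c.φ.map.source ∧ c.φ.map y ∈ Rect a b c' d := by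
  classical
  set z0 := c.φ.map x with hz0
  obtain ⟨h1, h2, h3, h4⟩ := hK
  -- the sides of the rectangle
  obtain ⟨c', c'', hc1, hc2, hc3, hc4⟩ : ∃ c' c'' : ℝ, (c.c < c' ∨ (c.c = 0 ∧ c' = 0)) ∧
      c'' < z0.im ∧ c' ≤ z0.im ∧ ∀ z ∈ c.φ.map.target, c'' < z.im → c' ≤ z.im := by
    rcases h4 with h4 | ⟨h4, h5⟩
    · exact ⟨(c.c + z0.im) / 2, (c.c + z0.im) / 2, Or.inl (by linarith), by linarith,
        by linarith, fun z _ hz => hz.le⟩
    · refine ⟨0, -1, Or.inr ⟨h4, rfl⟩, by linarith, by linarith, fun z hz _ => ?_⟩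
      rw [c.φ.target_eq] at hz
      exact hz.2
  set a := (c.a + z0.re) / 2 with ha
  set b := (z0.re + c.b) / 2 with hb
  set d := (z0.im + c.d) / 2 with hd
  have hRsub : Rect a b c' d ⊆ c.φ.map.target := by
    rintro z ⟨g1, g2, g3, g4⟩
    refine c.sub ⟨by linarith, by linarith, ?_, by linarith⟩
    rcases hc1 with h | h
    · linarith
    · rw [h.1]; linarith [h.2]
  set Z : Set S := {y | y ∈ c.φ.map.source ∧ c.φ.map y ∈ Rect a b c' d} with hZ
  have hZeq : Z = c.φ.map.symm '' Rect a b c' d := by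
    ext y
    constructor
    · rintro ⟨g1, g2⟩
      exact ⟨c.φ.map y, g2, c.φ.map.left_inv g1⟩
    · rintro ⟨z, hz, rfl⟩
      refine ⟨c.φ.map.map_target (hRsub hz), ?_⟩
      rw [c.φ.map.right_inv (hRsub hz)]
      exact hz
  have hZc : IsClosed Z := by
    rw [hZeq]
    exact ((pou_isCompact_rect a b c' d).image_of_continuousOn
      (c.φ.cont_symm.mono hRsub)).isClosed
  set B : S → ℝ := fun y => if y ∈ c.φ.map.source then pouC a b c'' d (c.φ.map y) else 0 with hB
  have hBsrc : ∀ y ∈ c.φ.map.source, B y = pouC a b c'' d (c.φ.map y) := fun y hy => if_pos hy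
  have hBout : ∀ y, y ∉ c.φ.map.source → B y = 0 := fun y hy => if_neg hy
  have hB0 : ∀ y, 0 ≤ B y := by
    intro y
    by_cases hy : y ∈ c.φ.map.source
    · rw [hBsrc y hy]; exact pouC_nonneg _ _ _ _ _
    · rw [hBout y hy]
  have hBpos : {y | 0 < B y} = c.φ.map.source ∩ c.φ.map ⁻¹' RectI a b c'' d := by
    ext y
    by_cases hy : y ∈ c.φ.map.source
    · simp only [Set.mem_ofPred_eq, Set.mem_inter_iff, Set.mem_preimage]
      rw [hBsrc y hy, pouC_pos_iff]
      exact ⟨fun h => ⟨hy, h⟩, fun h => h.2⟩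
    · simp only [Set.mem_ofPred_eq, Set.mem_inter_iff, Set.mem_preimage]
      rw [hBout y hy]
      exact ⟨fun h => absurd h (lt_irrefl _), fun h => absurd h.1 hy⟩
  have hsupp : ∀ y, B y ≠ 0 → y ∈ c.φ.map.source ∧ c.φ.map y ∈ Rect a b c' d := by
    intro y hy
    have g1 : y ∈ {y | 0 < B y} := lt_of_le_of_ne (hB0 y) (Ne.symm hy)
    rw [hBpos] at g1
    obtain ⟨g2, g3, g4, g5, g6⟩ := g1
    exact ⟨g2, g3.le, g4.le, hc4 _ (c.φ.map.map_source g2) g5, g6.le⟩
  refine ⟨B, hB0, ?_, ?_, ?_, a, b, c', d, by linarith, by linarith, by linarith, by linarith,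
    by linarith, hc1, hZc, hsupp⟩
  · rw [hBsrc x hx, pouC_pos_iff]
    exact ⟨by rw [← hz0]; linarith, by rw [← hz0]; linarith, hc2, by rw [← hz0]; linarith⟩
  · rw [hBpos]
    exact c.φ.cont.isOpen_inter_preimage c.φ.source_open (isOpen_RectI _ _ _ _)
  · intro ψ hψ z hz
    have hcs : ContinuousWithinAt ψ.map.symm ψ.map.target z := ψ.cont_symm z hz
    by_cases hy : ψ.map.symm z ∈ c.φ.map.source
    · have g1 : overlap ψ c.φ ∈ 𝓝[ψ.map.target] z := by
        have g2 : ψ.map.symm ⁻¹' c.φ.map.source ∈ 𝓝[ψ.map.target] z :=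
          hcs (c.φ.source_open.mem_nhds hy)
        exact Filter.inter_mem self_mem_nhdsWithin g2
      have g3 : ContDiffOn ℝ 1 (fun w => pouC a b c'' d (c.φ.map (ψ.map.symm w)))
          (overlap ψ c.φ) :=
        ((pouC_contDiff a b c'' d).of_le (by simp)).comp_contDiffOn
          ((M.smooth ψ hψ c.φ c.hφ).of_le (by simp))
      have g4 : ContDiffWithinAt ℝ 1 (loc ψ B) (overlap ψ c.φ) z := by
        refine (g3 z ⟨hz, hy⟩).congr ?_ ?_
        · intro w hw
          exact hBsrc _ hw.2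
        · exact hBsrc _ hy
      exact g4.mono_of_mem_nhdsWithin g1
    · have g1 : Zᶜ ∈ 𝓝 (ψ.map.symm z) := hZc.isOpen_compl.mem_nhds fun h => hy h.1
      have g2 : ψ.map.symm ⁻¹' Zᶜ ∈ 𝓝[ψ.map.target] z := hcs g1
      have g3 : loc ψ B =ᶠ[𝓝[ψ.map.target] z] fun _ => (0 : ℝ) := by
        filter_upwards [g2] with w hw
        by_contra hcon
        exact hw (hsupp _ hcon)
      exact (contDiffWithinAt_const (c := (0 : ℝ))).congr_of_eventuallyEq g3 (hBout _ hy)

/-- Proof. For every point `x` take a cell `c` as in `h` and a smooth function `β : ℂ → ℝ`, `β ≥ 0`,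
`β > 0` at `φ x`, zero outside `Rect a b c'' d` with `c'' = c'` in the first case of `Kin`, and
`c'' < 0` in the second case (a product of two bump functions of one real variable in `z.re` and
`z.im`, or `ContDiffBump` of `ℂ` composed with an affine map). Put `b x = β (φ x)` on the source,
`0` outside. The set `{x ∈ source, φ x ∈ Rect a b c' d}` is the image of the compact set
`Rect a b c' d ⊆ target` (in the second case `c' = 0`) under the continuous `φ.symm`, so it is
compact, hence closed (T2). `b` is smooth in every chart `ψ`: near a point `z` with `ψ.symm z` in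
`φ.source` it is `β ∘ (change of charts)` (`M.smooth ψ φ` on the relatively open overlap), near the
other points it is `0`. Finitely many of the open sets `{b > 0}` cover `S`; divide by the sum. -/
theorem exists_fam [CompactSpace S] [T2Space S] (P : GCell M e G → Prop)
    (h : ∀ x : S, ∃ c : GCell M e G, P c ∧ x ∈ c.φ.map.source ∧ c.φ.map x ∈ Kin c) :
    ∃ (n : ℕ) (c : Fin n → GCell M e G) (χ : Fin n → S → ℝ), (∀ i, P (c i)) ∧ Fam c χ := by
  classical
  choose cc hP hsrc hKin using h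
  choose B hB0 hBx hBo hBs hsup using fun x => pou_bump (cc x) (hsrc x) (hKin x)
  obtain ⟨t, ht⟩ := CompactSpace.elim_nhds_subcover (fun x => {y | 0 < B x y})
    fun x => (hBo x).mem_nhds (hBx x)
  let ee := t.equivFin
  let p : Fin t.card → S := fun i => (ee.symm i : S)
  have hpos : ∀ x, 0 < ∑ i, B (p i) x := by
    intro x
    have g1 : x ∈ ⋃ y ∈ t, {z | 0 < B y z} := by
      rw [ht]
      trivial
    rw [Set.mem_iUnion₂] at g1
    obtain ⟨y, hy, hyx⟩ := g1
    refine Finset.sum_pos' (fun i _ => hB0 _ _) ⟨ee ⟨y, hy⟩, Finset.mem_univ _, ?_⟩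
    have g2 : p (ee ⟨y, hy⟩) = y := by
      show ((ee.symm (ee ⟨y, hy⟩) : t) : S) = y
      rw [Equiv.symm_apply_apply]
    rw [g2]
    exact hyx
  refine ⟨t.card, fun i => cc (p i), fun i x => B (p i) x / ∑ j, B (p j) x,
    fun i => hP _, ?_, ?_, ?_, ?_⟩
  · intro i x
    exact div_nonneg (hB0 _ _) (hpos x).le
  · intro x
    rw [← Finset.sum_div, div_self (hpos x).ne']
  · intro i φ hφ
    have g1 : ContDiffOn ℝ 1 (fun z => ∑ j, loc φ (B (p j)) z) φ.map.target :=
      ContDiffOn.sum fun j _ => hBs (p j) φ hφ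
    exact (hBs (p i) φ hφ).div g1 fun z _ => (hpos (φ.map.symm z)).ne'
  · intro i
    obtain ⟨a, b, c', d, g1, g2, g3, g4, g5, g6, g7, g8⟩ := hsup (p i)
    refine ⟨a, b, c', d, g1, g2, g3, g4, g5, g6, g7, fun x hx => g8 x fun h0 => hx ?_⟩
    show B (p i) x / ∑ j, B (p j) x = 0
    rw [h0, zero_div]

end Stek.Ca
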