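import Pool.Agent.H.MP_fc2485_gt.Ca.BdA
import Pool.Agent.H.MP_fc2485_gt.Ca.Pou

/-!
Existence of the cells used for the partition of unity.
-/

set_option maxSynthPendingDepth 3

open Set Filter Topology InnerProductSpace MeasureTheory
open scoped ContDiff

namespace Stek.Ca

open Stek Surface Sv GCell

variable {S : Type*} [TopologicalSpace S] {M : Surface S} {σ : ℝ} {m : ℕ} {e : Fin m → S → ℝ}
  {G : Bl m}

/-- restriction of a cell to a smaller rectangle -/
def BdC_cut (c : GCell M e G) (a b c1 d : ℝ) (hab : a < b) (hcd : c1 < d)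
    (hs : Rect a b c1 d ⊆ c.K) : GCell M e G :=
  ⟨c.φ, c.hφ, a, b, c1, d, hab, hcd, hs.trans c.sub, c.Y, c.E, c.sol.mono hs⟩

/-- a vector with a non real coordinate -/
theorem BdC_strict (H : Ctx M σ e G) {v : V m} (hv : G v v = 1) {i : Fin m} (hi : (v i).im ≠ 0) :
    1 < (G (star v) v).re := by
  have hD : v - star v ≠ 0 := by
    intro h
    have h1 := congrFun h i
    simp only [Pi.sub_apply, Pi.star_apply, Pi.zero_apply] at h1
    have h2 := congrArg Complex.im h1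
    simp only [Complex.sub_im, Complex.star_def, Complex.conj_im, Complex.zero_im] at h2
    apply hi
    linarith
  have h1 := H.pd _ hD
  have h2 : star (v - star v) = -(v - star v) := by
    rw [star_sub, star_star, neg_sub]
  rw [h2] at h1
  have h3 : G (star v) (star v) = 1 := by
    rw [H.inK.real, hv, star_one]
  have h4 : G v (star v) = G (star v) v := H.inK.symm _ _
  have h5 : G (-(v - star v)) (v - star v) = 2 * G (star v) v - 2 := by
    simp only [map_neg, map_sub, ContinuousLinearMap.neg_apply, ContinuousLinearMap.sub_apply]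
    rw [h3, hv, h4]
    ring
  rw [h5] at h1
  have h6 : (2 * G (star v) v - 2).re = 2 * (G (star v) v).re - 2 := by simp
  rw [h6] at h1
  linarith

theorem BdC_strict' (H : Ctx M σ e G) {Y : V m} {E : ℂ} (hE : E ≠ 0) (hq : G Y Y = E ^ 2)
    {i : Fin m} (hi : (Y i / E).im ≠ 0) : ‖E‖ ^ 4 < nn G Y ^ 2 := by
  have h1 : G (E⁻¹ • Y) (E⁻¹ • Y) = 1 := by
    rw [map_smul, map_smul, ContinuousLinearMap.smul_apply, hq, smul_eq_mul, smul_eq_mul]
    field_simp
  have h2 : ((E⁻¹ • Y) i).im ≠ 0 := by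
    have : (E⁻¹ • Y) i = Y i / E := by
      simp only [Pi.smul_apply, smul_eq_mul]
      rw [div_eq_inv_mul]
    rw [this]
    exact hi
  have h3 := BdC_strict H h1 h2
  have h4 : (G (star Y) Y).re / ‖E‖ ^ 2 = (G (star (E⁻¹ • Y)) (E⁻¹ • Y)).re / ‖(1 : ℂ)‖ ^ 2 :=
    maxP_smul (t := E) hE (by rw [smul_smul, mul_inv_cancel₀ hE, one_smul]) (by ring)
  rw [norm_one, one_pow, div_one] at h4
  rw [← h4] at h3
  have h5 : 0 < ‖E‖ := norm_pos_iff.2 hE
  rw [lt_div_iff₀ (by positivity), one_mul] at h3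
  have h6 : ‖E‖ ^ 4 = (‖E‖ ^ 2) ^ 2 := by ring
  rw [h6]
  exact pow_lt_pow_left₀ h3 (by positivity) (by norm_num)

/-- the derivative of the quotient -/
theorem BdC_quot (c : GCell M e G) {z : ℂ} (hz : z ∈ c.K) (hE : c.E z ≠ 0) (i : Fin m) :
    HasDerivWithinAt (fun z => c.Y z i / c.E z)
      (Fv c.φ e 0 z i - G (c.Y z) (Fv c.φ e 0 z) / c.E z * (c.Y z i / c.E z)) c.K z := by
  have h1 : HasDerivWithinAt (fun z => c.Y z i) (c.E z * Fv c.φ e 0 z i) c.K z :=
    (hasDerivWithinAt_pi.1 (c.sol.dY z hz)) i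
  have h2 := c.sol.dE z hz
  have h3 := h1.div h2 hE
  refine h3.congr_deriv ?_
  field_simp

/-- a coordinate of `u_x` does not vanish -/
theorem BdC_coord (H : Ctx M σ e G) {φ : Chart S} (hφ : φ ∈ M.charts) {t : ℝ}
    (ht : (t : ℂ) ∈ φ.map.target) :
    ∃ i, dx φ (e i) t ≠ 0 := by
  by_contra hcon
  push Not at hcon
  have h1 := hasDerivAt_uv H.mem hφ ht
  have h2 : (Fv φ e 0 (t : ℂ) - (Complex.I * (σ * φ.ρ t)) • uv e (φ.map.symm (t : ℂ))) = 0 := by
    funext i
    have h3 := (hasDerivAt_pi.1 h1) i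
    have h4 := (hasDerivAt_real (H.mem i) hφ ht).ofReal_comp
    have h5 := h3.unique h4
    rw [h5, hcon i]
    simp
  have hu := Props_mem_bdry hφ ht
  have hF : Fv φ e 0 (t : ℂ) = (Complex.I * (σ * φ.ρ t)) • uv e (φ.map.symm (t : ℂ)) :=
    sub_eq_zero.1 h2
  have h6 := H.inK.conf φ hφ _ ht
  have h7 := H.inK.sphere _ hu
  rw [hF, map_smul, map_smul, ContinuousLinearMap.smul_apply, h7, smul_eq_mul, smul_eq_mul] at h6
  have h8 : (Complex.I * (σ * φ.ρ t)) ≠ 0 := by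
    have ha : (σ : ℂ) ≠ 0 := by exact_mod_cast H.hσ.ne'
    have hb : ((φ.ρ t : ℝ) : ℂ) ≠ 0 := by exact_mod_cast (φ.ρ_pos _ ht).ne'
    exact mul_ne_zero Complex.I_ne_zero (mul_ne_zero ha hb)
  simp [h8] at h6

/-- the values on the axis -/
theorem BdC_axis (H : Ctx M σ e G) {C : Set S} {c : GCell M e G}
    (hc : c.IsBase C) {t : ℝ} (ht : t ∈ Icc c.a c.b) (i : Fin m) :
    (c.Y t i / c.E t).im = 0 ∧
      (Fv c.φ e 0 t i - G (c.Y t) (Fv c.φ e 0 t) / c.E t * (c.Y t i / c.E t)) =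
        (dx c.φ (e i) t : ℂ) := by
  obtain ⟨h1, h2, h3⟩ := hc.2 t ht
  have hE : c.E t ≠ 0 := by
    intro h
    rw [h, norm_zero] at h3
    exact zero_ne_one h3
  have htt : (t : ℂ) ∈ c.φ.map.target := by
    apply c.sub
    have h4 := hc.1
    refine ⟨by simpa using ht.1, by simpa using ht.2, ?_, ?_⟩
    · simp [h4]
    · have := c.hcd
      rw [h4] at this
      simpa using this.le
  have h4 : c.Y t i / c.E t = (e i (c.φ.map.symm (t : ℂ)) : ℂ) := by
    rw [h2]
    change c.E t * uv e (c.φ.map.symm (t : ℂ)) i / c.E t = _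
    rw [mul_div_cancel_left₀ _ hE]
    rfl
  refine ⟨?_, ?_⟩
  · rw [h4, Complex.ofReal_im]
  · have h5 : G (c.Y t) (Fv c.φ e 0 t) / c.E t = Complex.I * (σ * c.φ.ρ t) := by
      rw [h2, map_smul, ContinuousLinearMap.smul_apply, B_uF H.mem H.inK.inB c.hφ htt, smul_eq_mul,
        mul_one, mul_div_cancel_left₀ _ hE]
    rw [h5, h4]
    have h6 := (hasDerivAt_pi.1 (hasDerivAt_uv H.mem c.hφ htt)) i
    have h7 := (hasDerivAt_real (H.mem i) c.hφ htt).ofReal_comp
    exact h6.unique h7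

/-- the imaginary part grows above the axis -/
theorem BdC_grow {c : GCell M e G} (hc0 : c.c = 0) (hne : ∀ z ∈ c.K, c.E z ≠ 0) {i : Fin m} {k : ℝ}
    (hre : ∀ t ∈ Icc c.a c.b, (c.Y (t : ℂ) i / c.E (t : ℂ)).im = 0)
    (hpos : ∀ z ∈ c.K, 0 < k * (Fv c.φ e 0 z i -
      G (c.Y z) (Fv c.φ e 0 z) / c.E z * (c.Y z i / c.E z)).re)
    {z : ℂ} (hz : z ∈ c.K) (hi : 0 < z.im) : (c.Y z i / c.E z).im ≠ 0 := by
  obtain ⟨h1, h2, h3, h4⟩ := hz
  have hmem : ∀ t ∈ Icc 0 z.im, ((z.re : ℂ) + t * Complex.I) ∈ c.K := by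
    intro t ht
    refine ⟨?_, ?_, ?_, ?_⟩
    · simpa using h1
    · simpa using h2
    · rw [hc0]; simpa using ht.1
    · simpa using ht.2.trans h4
  have hder : ∀ t ∈ Icc 0 z.im, HasDerivWithinAt
      (fun t : ℝ => k * (c.Y ((z.re : ℂ) + t * Complex.I) i /
        c.E ((z.re : ℂ) + t * Complex.I)).im)
      (k * (Fv c.φ e 0 ((z.re : ℂ) + t * Complex.I) i -
        G (c.Y ((z.re : ℂ) + t * Complex.I)) (Fv c.φ e 0 ((z.re : ℂ) + t * Complex.I)) /
          c.E ((z.re : ℂ) + t * Complex.I) * (c.Y ((z.re : ℂ) + t * Complex.I) i /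
          c.E ((z.re : ℂ) + t * Complex.I))).re) (Icc 0 z.im) t := by
    intro t ht
    have g1 := BdC_quot c (hmem t ht) (hne _ (hmem t ht)) i
    have g2 : HasDerivWithinAt (fun t : ℝ => (z.re : ℂ) + t * Complex.I) Complex.I
        (Icc 0 z.im) t := by
      have := ((Complex.ofRealCLM.hasDerivAt (x := t)).mul_const Complex.I).const_add (z.re : ℂ)
      simpa using this.hasDerivWithinAt
    have g3 := g1.scomp t g2 hmem
    have g4 := (Complex.imCLM.hasFDerivAt (x := c.Y ((z.re : ℂ) + t * Complex.I) i /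
      c.E ((z.re : ℂ) + t * Complex.I))).comp_hasDerivWithinAt t g3
    have g5 := g4.const_mul k
    refine g5.congr_deriv ?_
    simp [smul_eq_mul]
  have hmono : StrictMonoOn (fun t : ℝ => k * (c.Y ((z.re : ℂ) + t * Complex.I) i /
        c.E ((z.re : ℂ) + t * Complex.I)).im) (Icc 0 z.im) := by
    apply strictMonoOn_of_deriv_pos (convex_Icc 0 z.im)
      (fun t ht => (hder t ht).continuousWithinAt)
    intro t ht
    rw [interior_Icc] at ht
    have g1 := (hder t (Ioo_subset_Icc_self ht)).hasDerivAt (Icc_mem_nhds ht.1 ht.2)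
    rw [g1.deriv]
    exact hpos _ (hmem t (Ioo_subset_Icc_self ht))
  have h5 := hmono (left_mem_Icc.2 hi.le) (right_mem_Icc.2 hi.le) hi
  have h6 : ((z.re : ℂ) + (z.im : ℂ) * Complex.I) = z := Complex.re_add_im z
  have h7 : ((z.re : ℂ) + ((0 : ℝ) : ℂ) * Complex.I) = (z.re : ℂ) := by simp
  simp only [h6, h7] at h5
  rw [hre z.re ⟨h1, h2⟩] at h5
  intro h8
  rw [h8] at h5
  exact lt_irrefl _ h5

/-- Boundary points. Take a base cell (base_exists) and restrict it to a small rectangle over the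
axis (a restriction of a base cell is a base cell): `E ≠ 0` by continuity (`|E| = 1` on the axis);
`Im (Y/E) (x+iy) / y → u_x(x) ≠ 0` uniformly, and `N² > |E|⁴` iff `Y/E` is not real. -/
theorem exists_bcell [ConnectedSpace S] (H : Ctx M σ e G) (hm2 : 2 ≤ m) {C : Set S}
    (hC : IsCC M C) {p : S} (hp : p ∈ C) : ∃ c : GCell M e G, BCell C c ∧
      p ∈ c.φ.map.source ∧ c.φ.map p ∈ Kin c := by
  obtain ⟨φ, hφ, hps⟩ := M.cover p
  obtain ⟨c, hcφ, hcb, -, hev⟩ := base_exists H hC hp hφ hps (N := univ) univ_mem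
  subst hcφ
  have hpb : p ∈ M.bdry := hC.sub hp
  have him : (c.φ.map p).im = 0 := by
    obtain ⟨φ', hφ', hs, h0⟩ := hpb
    exact (M.bdry_iff φ' hφ' c.φ c.hφ p hs hps).1 h0
  set x0 : ℝ := (c.φ.map p).re with hx0
  have hx0p : (x0 : ℂ) = c.φ.map p := by
    apply Complex.ext
    · simp [hx0]
    · simpa using him.symm
  have hx0t : (x0 : ℂ) ∈ c.φ.map.target := by
    rw [hx0p]
    exact c.φ.map.map_source hps
  have hc0 : c.c = 0 := hcb.1
  -- the point is in the interior of the side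
  have hIcc : Icc c.a c.b ∈ 𝓝 x0 := by
    have h1 : ContinuousWithinAt c.φ.map.symm c.φ.map.target (x0 : ℂ) := c.φ.cont_symm _ hx0t
    have h2 : Tendsto (fun s : ℝ => (s : ℂ)) (𝓝 x0) (𝓝[c.φ.map.target] (x0 : ℂ)) := by
      rw [tendsto_nhdsWithin_iff]
      exact ⟨Complex.continuous_ofReal.continuousAt, real_mem_nhds c.φ hx0t⟩
    have h3 : Tendsto (fun s : ℝ => c.φ.map.symm (s : ℂ)) (𝓝 x0) (𝓝 p) := by
      have := h1.tendsto.comp h2
      rw [hx0p, c.φ.map.left_inv hps] at this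
      exact this
    filter_upwards [h3.eventually hev, real_mem_nhds c.φ hx0t] with s hs hst
    have h4 := hs.2.1
    rw [c.φ.map.right_inv hst] at h4
    exact ⟨by simpa using h4.1, by simpa using h4.2.1⟩
  obtain ⟨hax, hxb⟩ := Icc_mem_nhds_iff.1 hIcc
  have hx0I : x0 ∈ Icc c.a c.b := ⟨hax.le, hxb.le⟩
  have hd0 : 0 < c.d := by
    have := c.hcd
    rwa [hc0] at this
  have hx0K : (x0 : ℂ) ∈ c.K := by
    refine ⟨by simpa using hax.le, by simpa using hxb.le, by simp [hc0], by simpa using hd0.le⟩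
  have hE0 : c.E (x0 : ℂ) ≠ 0 := by
    intro h
    have h3 := (hcb.2 x0 hx0I).2.2
    rw [h, norm_zero] at h3
    exact zero_ne_one h3
  obtain ⟨i, hi⟩ := BdC_coord H c.hφ hx0t
  have hreach : Reach C c := Reach.base hcb
  -- continuity
  have hcY : ContinuousWithinAt c.Y c.K (x0 : ℂ) := (c.sol.dY _ hx0K).continuousWithinAt
  have hcE : ContinuousWithinAt c.E c.K (x0 : ℂ) := (c.sol.dE _ hx0K).continuousWithinAt
  have hcF : ContinuousWithinAt (Fv c.φ e 0) c.K (x0 : ℂ) := (Props_niceF H c).cont _ hx0K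
  have hcYi : ContinuousWithinAt (fun z => c.Y z i) c.K (x0 : ℂ) := (continuousWithinAt_pi.1 hcY) i
  have hcFi : ContinuousWithinAt (fun z => Fv c.φ e 0 z i) c.K (x0 : ℂ) :=
    (continuousWithinAt_pi.1 hcF) i
  have hcG : ContinuousWithinAt (fun z => G (c.Y z) (Fv c.φ e 0 z)) c.K (x0 : ℂ) :=
    (G.continuous.continuousAt.comp_continuousWithinAt hcY).clm_apply hcF
  have hcw : ContinuousWithinAt (fun z => dx c.φ (e i) x0 * (Fv c.φ e 0 z i -
      G (c.Y z) (Fv c.φ e 0 z) / c.E z * (c.Y z i / c.E z)).re) c.K (x0 : ℂ) := by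
    apply ContinuousWithinAt.mul continuousWithinAt_const
    apply Complex.continuous_re.continuousAt.comp_continuousWithinAt
    exact hcFi.sub ((hcG.div hcE hE0).mul (hcYi.div hcE hE0))
  have hw0 : 0 < dx c.φ (e i) x0 * (Fv c.φ e 0 (x0 : ℂ) i -
      G (c.Y (x0 : ℂ)) (Fv c.φ e 0 (x0 : ℂ)) / c.E (x0 : ℂ) * (c.Y (x0 : ℂ) i /
        c.E (x0 : ℂ))).re := by
    rw [(BdC_axis H hcb hx0I i).2, Complex.ofReal_re]
    exact mul_self_pos.2 hi
  have hE1 : ∀ᶠ z in 𝓝[c.K] (x0 : ℂ), c.E z ≠ 0 := hcE.eventually_ne hE0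
  have hw1 := hcw.eventually (lt_mem_nhds hw0)
  have hev2 := hE1.and hw1
  rw [eventually_nhdsWithin_iff, Metric.eventually_nhds_iff] at hev2
  obtain ⟨r, hr, hball⟩ := hev2
  obtain ⟨δ, hδ, hδr, hδa, hδb, hδd⟩ : ∃ δ : ℝ, 0 < δ ∧ 2 * δ < r ∧ c.a ≤ x0 - δ ∧
      x0 + δ ≤ c.b ∧ δ ≤ c.d := by
    refine ⟨min (min (r / 4) (x0 - c.a)) (min (c.b - x0) c.d), ?_, ?_, ?_, ?_, ?_⟩
    · refine lt_min (lt_min (by positivity) (by linarith)) (lt_min (by linarith) hd0)
    · have : min (min (r / 4) (x0 - c.a)) (min (c.b - x0) c.d) ≤ r / 4 :=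
        (min_le_left _ _).trans (min_le_left _ _)
      linarith
    · have : min (min (r / 4) (x0 - c.a)) (min (c.b - x0) c.d) ≤ x0 - c.a :=
        (min_le_left _ _).trans (min_le_right _ _)
      linarith
    · have : min (min (r / 4) (x0 - c.a)) (min (c.b - x0) c.d) ≤ c.b - x0 :=
        (min_le_right _ _).trans (min_le_left _ _)
      linarith
    · exact (min_le_right _ _).trans (min_le_right _ _)
  have hsub : Rect (x0 - δ) (x0 + δ) 0 δ ⊆ c.K := by
    rintro z ⟨h1, h2, h3, h4⟩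
    exact ⟨by linarith, by linarith, by rw [hc0]; exact h3, by linarith⟩
  have hgood : ∀ z ∈ Rect (x0 - δ) (x0 + δ) 0 δ, c.E z ≠ 0 ∧ 0 < dx c.φ (e i) x0 *
      (Fv c.φ e 0 z i - G (c.Y z) (Fv c.φ e 0 z) / c.E z * (c.Y z i / c.E z)).re := by
    intro z hz
    have hzK := hsub hz
    obtain ⟨h1, h2, h3, h4⟩ := hz
    refine hball ?_ hzK
    rw [Complex.dist_eq]
    have h8 := Complex.norm_le_abs_re_add_abs_im (z - (x0 : ℂ))
    have h9 : |(z - (x0 : ℂ)).re| ≤ δ := by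
      rw [Complex.sub_re, Complex.ofReal_re, abs_le]
      constructor <;> linarith
    have h10 : |(z - (x0 : ℂ)).im| ≤ δ := by
      rw [Complex.sub_im, Complex.ofReal_im, abs_le]
      constructor <;> linarith
    linarith
  set c' : GCell M e G := BdC_cut c (x0 - δ) (x0 + δ) 0 δ (by linarith) hδ hsub with hc'
  have hb' : c'.IsBase C := by
    refine ⟨rfl, fun t ht => ?_⟩
    have ht' : t ∈ Icc (x0 - δ) (x0 + δ) := ht
    exact hcb.2 t ⟨by linarith [ht'.1], by linarith [ht'.2]⟩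
  refine ⟨c', ⟨hb', fun z hz => (hgood z hz).1, ?_⟩, hps, ?_⟩
  · intro z hz hzi
    have h1 : G (c.Y z) (c.Y z) = c.E z ^ 2 := by
      have := quad H hC.sub hreach H.inK.inB z (hsub hz)
      rwa [one_mul] at this
    refine BdC_strict' H (hgood z hz).1 h1 (i := i) ?_
    exact BdC_grow (c := c') rfl (fun z hz => (hgood z hz).1)
      (fun t ht => (BdC_axis H hb' ht i).1) (k := dx c.φ (e i) x0)
      (fun z hz => (hgood z hz).2) hz hzi
  · refine ⟨?_, ?_, ?_, Or.inr ⟨rfl, him⟩⟩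
    · change x0 - δ < x0
      linarith
    · change x0 < x0 + δ
      linarith
    · change (c.φ.map p).im < δ
      rw [him]
      exact hδ

/-- Interior points. Take a reachable cell (reach_at) and restrict it to a smaller rectangle with
`0 < c`; the restriction is reachable (`Reach.step`, LinkAt with the identity). -/
theorem exists_icell [ConnectedSpace S] (H : Ctx M σ e G) {C : Set S}
    (hC : IsCC M C) {x : S} (hx : x ∉ M.bdry) : ∃ c : GCell M e G, Reach C c ∧ 0 < c.c ∧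
      x ∈ c.φ.map.source ∧ c.φ.map x ∈ Kin c := by
  obtain ⟨φ, hφ, hxs⟩ := M.cover x
  have hxt : φ.map x ∈ φ.map.target := φ.map.map_source hxs
  have h0 : 0 ≤ (φ.map x).im := by
    have h := hxt
    rw [φ.target_eq] at h
    exact h.2
  have hi : 0 < (φ.map x).im := by
    refine lt_of_le_of_ne h0 fun h3 => hx ?_
    exact ⟨φ, hφ, hxs, h3.symm⟩
  obtain ⟨c, hc, hcφ, hxO⟩ := reach_at H hC hφ hxs hi
  subst hcφ
  obtain ⟨h1, h2, h3, h4⟩ := hxO
  have h5 := c.c_nonneg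
  have hab : (c.a + (c.φ.map x).re) / 2 < ((c.φ.map x).re + c.b) / 2 := by linarith
  have hcd : (c.c + (c.φ.map x).im) / 2 < ((c.φ.map x).im + c.d) / 2 := by linarith
  have hsub : Rect ((c.a + (c.φ.map x).re) / 2) (((c.φ.map x).re + c.b) / 2)
      ((c.c + (c.φ.map x).im) / 2) (((c.φ.map x).im + c.d) / 2) ⊆ c.K := by
    rintro z ⟨g1, g2, g3, g4⟩
    exact ⟨by linarith, by linarith, by linarith, by linarith⟩
  set c' : GCell M e G := BdC_cut c _ _ _ _ hab hcd hsub with hc'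
  have hO' : c'.φ.map x ∈ c'.O := by
    refine ⟨?_, ?_, ?_, ?_⟩
    · change (c.a + (c.φ.map x).re) / 2 < (c.φ.map x).re
      linarith
    · change (c.φ.map x).re < ((c.φ.map x).re + c.b) / 2
      linarith
    · change (c.c + (c.φ.map x).im) / 2 < (c.φ.map x).im
      linarith
    · change (c.φ.map x).im < ((c.φ.map x).im + c.d) / 2
      linarith
  have hlink : c.LinkAt c' x := by
    refine ⟨hxs, hxs, ⟨h1, h2, h3, h4⟩, hO', rfl, rfl, ?_⟩
    have hn : c.φ.map.target ∈ 𝓝 (c.φ.map x) := dom_nhds c.φ hxt hi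
    filter_upwards [eventually_eventually_nhds.2 hn] with z hz
    have : (fun z => c.φ.map (c.φ.map.symm z)) =ᶠ[𝓝 z] id := by
      filter_upwards [hz] with w hw
      exact c.φ.map.right_inv hw
    exact this.symm.differentiableAt_iff.1 differentiableAt_id
  refine ⟨c', Reach.step hc hlink, ?_, hxs, ?_⟩
  · change 0 < (c.c + (c.φ.map x).im) / 2
    linarith
  · exact ⟨hO'.1, hO'.2.1, hO'.2.2.2, Or.inl hO'.2.2.1⟩

end Stek.Ca
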