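import Pool.Agent.H.MP_fc2485_gt.Ca.Gram

/-!
The Laplacian of the potential.
-/

set_option maxSynthPendingDepth 3

open Set Filter Topology InnerProductSpace
open scoped ContDiff

namespace Stek.Ca

open Stek Surface Sv GCell

/-- the real linear map with `∂` part `p` and `∂̄` part `q` -/
noncomputable def WL {X : Type*} [NormedAddCommGroup X] [NormedSpace ℂ X] (p q : X) : ℂ →L[ℝ] X :=
  (ContinuousLinearMap.id ℝ ℂ).smulRight p + (Complex.conjCLE : ℂ →L[ℝ] ℂ).smulRight q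

theorem WL_apply {X : Type*} [NormedAddCommGroup X] [NormedSpace ℂ X] (p q : X) (v : ℂ) :
    WL p q v = v • p + star v • q := by
  simp [WL]

/-- `h` has the `∂` derivative `p` and the `∂̄` derivative `q` at `z` -/
def Wd {X : Type*} [NormedAddCommGroup X] [NormedSpace ℂ X] (h : ℂ → X) (p q : X) (z : ℂ) : Prop :=
  HasFDerivAt h (WL p q) z

section General

variable {X : Type*} [NormedAddCommGroup X] [NormedSpace ℂ X] {z : ℂ}

theorem Wd.congr_pq {h : ℂ → X} {p q p' q' : X} (hh : Wd h p q z) (hp : p = p') (hq : q = q') :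
    Wd h p' q' z := by
  subst hp
  subst hq
  exact hh

theorem Wd.of_holo {h : ℂ → X} {h' : X} (hh : HasDerivAt h h' z) : Wd h h' 0 z := by
  have h1 := hh.hasFDerivAt.restrictScalars ℝ
  refine h1.congr_fderiv ?_
  ext v
  simp [WL_apply]

theorem Wd.const (x : X) : Wd (fun _ : ℂ => x) 0 0 z := by
  refine (hasFDerivAt_const x z).congr_fderiv ?_
  ext v
  simp [WL_apply]

theorem Wd.add {h k : ℂ → X} {p q p' q' : X} (hh : Wd h p q z) (hk : Wd k p' q' z) :
    Wd (fun z => h z + k z) (p + p') (q + q') z := by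
  refine (HasFDerivAt.add hh hk).congr_fderiv ?_
  ext v
  simp only [WL_apply, _root_.add_apply, smul_add]
  abel

theorem Wd.sub {h k : ℂ → X} {p q p' q' : X} (hh : Wd h p q z) (hk : Wd k p' q' z) :
    Wd (fun z => h z - k z) (p - p') (q - q') z := by
  refine (HasFDerivAt.sub hh hk).congr_fderiv ?_
  ext v
  simp only [WL_apply, _root_.sub_apply, smul_sub]
  abel

theorem Wd.mul {h k : ℂ → ℂ} {p q p' q' : ℂ} (hh : Wd h p q z) (hk : Wd k p' q' z) :
    Wd (fun z => h z * k z) (p * k z + h z * p') (q * k z + h z * q') z := by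
  refine (HasFDerivAt.mul hh hk).congr_fderiv ?_
  ext v
  simp only [WL_apply, _root_.add_apply, _root_.smul_apply, smul_eq_mul]
  ring

theorem Wd.const_mul {h : ℂ → ℂ} {p q : ℂ} (c : ℂ) (hh : Wd h p q z) :
    Wd (fun z => c * h z) (c * p) (c * q) z :=
  ((Wd.const c).mul hh).congr_pq (by ring) (by ring)

theorem Wd.conj {h : ℂ → ℂ} {p q : ℂ} (hh : Wd h p q z) :
    Wd (fun z => star (h z)) (star q) (star p) z := by
  have h1 := (Complex.conjCLE : ℂ →L[ℝ] ℂ).hasFDerivAt.comp z hh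
  refine h1.congr_fderiv ?_
  ext v
  simp [WL_apply]
  ring

theorem Wd.conjV {m : ℕ} {h : ℂ → V m} {p : V m} (hh : Wd h p 0 z) :
    Wd (fun z => star (h z)) 0 (star p) z := by
  unfold Wd at hh ⊢
  rw [hasFDerivAt_pi'] at hh ⊢
  intro i
  have h1 : Wd (fun z => h z i) (p i) 0 z := by
    refine (hh i).congr_fderiv ?_
    ext v
    simp [WL_apply]
  refine (Wd.conj h1).congr_fderiv ?_
  ext v
  simp [WL_apply]

theorem Wd.bil {m : ℕ} (G : Bl m) {h k : ℂ → V m} {p q p' q' : V m} (hh : Wd h p q z)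
    (hk : Wd k p' q' z) : Wd (fun z => G (h z) (k z)) (G p (k z) + G (h z) p')
      (G q (k z) + G (h z) q') z := by
  let GR : V m →L[ℝ] V m →L[ℝ] ℂ := G.bilinearRestrictScalars ℝ
  have h1 := GR.hasFDerivAt_of_bilinear hh hk
  refine h1.congr_fderiv ?_
  ext v
  change G (h z) (WL p' q' v) + G (WL p q v) (k z) = _
  simp only [WL_apply, map_add, map_smul, smul_add, _root_.smul_apply, _root_.add_apply]
  abel

theorem Wd.inv {h : ℂ → ℂ} {p q : ℂ} (hh : Wd h p q z) (hne : h z ≠ 0) :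
    Wd (fun z => (h z)⁻¹) (-p / h z ^ 2) (-q / h z ^ 2) z := by
  have h1 : HasDerivAt (fun w : ℂ => w⁻¹) (-(h z ^ 2)⁻¹) (h z) := hasDerivAt_inv hne
  have h2 := (h1.hasFDerivAt.restrictScalars ℝ).comp z hh
  refine h2.congr_fderiv ?_
  ext v
  simp [WL_apply]
  field_simp
  ring

theorem Wd.div {h k : ℂ → ℂ} {p q p' q' : ℂ} (hh : Wd h p q z) (hk : Wd k p' q' z)
    (hne : k z ≠ 0) : Wd (fun z => h z / k z) ((p * k z - h z * p') / k z ^ 2)
      ((q * k z - h z * q') / k z ^ 2) z := by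
  have h1 := hh.mul (hk.inv hne)
  simp only [div_eq_mul_inv]
  refine h1.congr_pq ?_ ?_
  · field_simp
    ring
  · field_simp
    ring

theorem Wd.sqrt {r : ℂ → ℝ} {p q : ℂ} (hh : Wd (fun z => (r z : ℂ)) p q z) (hr : 0 < r z) :
    Wd (fun z => ((Real.sqrt (r z) : ℝ) : ℂ)) (p / (2 * Real.sqrt (r z))) 
      (q / (2 * Real.sqrt (r z))) z := by
  have h1 : HasFDerivAt r (Complex.reCLM.comp (WL p q)) z := by
    have := Complex.reCLM.hasFDerivAt.comp z hh
    exact this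
  have h2 : HasFDerivAt (fun z => (r z : ℂ)) (Complex.ofRealCLM.comp (Complex.reCLM.comp (WL p q)))
      z := Complex.ofRealCLM.hasFDerivAt.comp z h1
  have h3 : Complex.ofRealCLM.comp (Complex.reCLM.comp (WL p q)) = WL p q := h2.unique hh
  have h4 : HasFDerivAt (fun z => Real.sqrt (r z))
      ((1 / (2 * Real.sqrt (r z))) • (Complex.reCLM.comp (WL p q))) z := h1.sqrt hr.ne'
  have h5 := Complex.ofRealCLM.hasFDerivAt.comp z h4
  refine h5.congr_fderiv ?_
  ext v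
  have h6 : ((WL p q v).re : ℂ) = WL p q v := by
    have := congrArg (fun L : ℂ →L[ℝ] ℂ => L v) h3
    exact this
  have h7 : (Complex.ofRealCLM.comp ((1 / (2 * Real.sqrt (r z))) •
      (Complex.reCLM.comp (WL p q)))) v = ((1 / (2 * Real.sqrt (r z)) : ℝ) : ℂ) *
        ((WL p q v).re : ℂ) := by
    simp
  rw [h7, h6, WL_apply, WL_apply]
  push_cast
  simp only [smul_eq_mul]
  ring

end General

section Flat

variable {m : ℕ} {G : Bl m} {κ : ℝ} {Y F : ℂ → V m} {E : ℂ → ℂ} {F1 : V m} {z : ℂ}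

/-- the `∂̄` derivative of the complex gradient -/
theorem gg_dbar (H : Herm G) (hY : HasDerivAt Y (E z • F z) z)
    (hE : HasDerivAt E (G (Y z) (F z)) z) (hF : HasDerivAt F F1 z) (hN : 0 < nn G (Y z))
    (hs : 0 < nn G (Y z) ^ 2 - κ * ‖E z‖ ^ 4) :
    ∃ p : ℂ, Wd (fun z => gg G κ (Y z) (E z) (F z)) p
      ((‖E z‖ ^ 2 / ss G κ (Y z) (E z) ^ 3 * bet G κ (Y z) (E z) (F z) : ℝ) : ℂ) z := by
  have dY := Wd.of_holo hY
  have dE := Wd.of_holo hE
  have dF := Wd.of_holo hF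
  have dYb := dY.conjV
  have dEb := dE.conj
  have dA := dF.bil G dYb
  have dB := dY.bil G dF
  have dn := dE.mul dA
  have dN : Wd (fun z => ((nn G (Y z) : ℝ) : ℂ)) (E z * G (F z) (star (Y z)))
      (star (E z * G (F z) (star (Y z)))) z := by
    have h1 := dYb.bil G dY
    have h2 : (fun z => ((nn G (Y z) : ℝ) : ℂ)) = fun z => G (star (Y z)) (Y z) := by
      funext w
      rw [H.diag]
    rw [h2]
    refine h1.congr_pq ?_ ?_
    · simp only [map_zero, _root_.zero_apply, zero_add, map_smul, smul_eq_mul]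
      rw [H.symm (star (Y z)) (F z)]
    · simp only [star_smul, map_smul, map_zero, add_zero, _root_.smul_apply, smul_eq_mul, star_mul,
        H.star_val, star_star]
      ring
  have db : Wd (fun z => ((‖E z‖ ^ 2 : ℝ) : ℂ)) (star (E z) * G (Y z) (F z))
      (E z * star (G (Y z) (F z))) z := by
    have h2 : (fun z => ((‖E z‖ ^ 2 : ℝ) : ℂ)) = fun z => E z * star (E z) := by
      funext w
      have := Complex.mul_conj (E w)
      rw [Complex.normSq_eq_norm_sq] at this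
      exact this.symm
    rw [h2]
    refine (dE.mul dEb).congr_pq ?_ ?_
    · simp
      ring
    · simp
  have dr : Wd (fun z => ((nn G (Y z) ^ 2 - κ * ‖E z‖ ^ 4 : ℝ) : ℂ))
      (2 * (nn G (Y z) * (E z * G (F z) (star (Y z))) -
        κ * (‖E z‖ ^ 2 : ℝ) * (star (E z) * G (Y z) (F z))))
      (2 * (nn G (Y z) * (star (E z * G (F z) (star (Y z)))) -
        κ * (‖E z‖ ^ 2 : ℝ) * (E z * star (G (Y z) (F z))))) z := by
    have h2 : (fun z => ((nn G (Y z) ^ 2 - κ * ‖E z‖ ^ 4 : ℝ) : ℂ)) =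
        fun z => ((nn G (Y z) : ℝ) : ℂ) * ((nn G (Y z) : ℝ) : ℂ) -
          (κ : ℂ) * (((‖E z‖ ^ 2 : ℝ) : ℂ) * ((‖E z‖ ^ 2 : ℝ) : ℂ)) := by
      funext w
      push_cast
      ring
    rw [h2]
    refine ((dN.mul dN).sub ((db.mul db).const_mul (κ : ℂ))).congr_pq ?_ ?_
    · ring
    · ring
  have ds := dr.sqrt hs
  change Wd (fun z => ((ss G κ (Y z) (E z) : ℝ) : ℂ)) _ _ z at ds
  have hspos : 0 < ss G κ (Y z) (E z) := Real.sqrt_pos.mpr hs
  have hsq : ss G κ (Y z) (E z) ^ 2 = nn G (Y z) ^ 2 - κ * ‖E z‖ ^ 4 := Real.sq_sqrt hs.le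
  have hss : Real.sqrt (nn G (Y z) ^ 2 - κ * ‖E z‖ ^ 4) = ss G κ (Y z) (E z) := rfl
  rw [hss] at ds
  have hNE : ((‖E z‖ ^ 2 : ℝ) : ℂ) = E z * star (E z) := by
    have := Complex.mul_conj (E z)
    rw [Complex.normSq_eq_norm_sq] at this
    exact this.symm
  have hnA : ((‖G (F z) (star (Y z))‖ ^ 2 : ℝ) : ℂ) =
      G (F z) (star (Y z)) * star (G (F z) (star (Y z))) := by
    have := Complex.mul_conj (G (F z) (star (Y z)))
    rw [Complex.normSq_eq_norm_sq] at this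
    exact this.symm
  have hnB : ((‖G (Y z) (F z)‖ ^ 2 : ℝ) : ℂ) = G (Y z) (F z) * star (G (Y z) (F z)) := by
    have := Complex.mul_conj (G (Y z) (F z))
    rw [Complex.normSq_eq_norm_sq] at this
    exact this.symm
  have hre : ∀ w : ℂ, ((2 * w.re : ℝ) : ℂ) = w + star w := by
    intro w
    apply Complex.ext
    · simp
      ring
    · simp
  have hbet : ((bet G κ (Y z) (E z) (F z) : ℝ) : ℂ) =
      ((nn G (Y z) : ℂ) ^ 2 - κ * (E z * star (E z)) ^ 2) * nn G (F z) -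
      nn G (Y z) * (G (F z) (star (Y z)) * star (G (F z) (star (Y z))) +
        κ * (G (Y z) (F z) * star (G (Y z) (F z)))) +
      κ * (E z ^ 2 * star (G (Y z) (F z)) * G (F z) (star (Y z)) +
        star (E z) ^ 2 * G (Y z) (F z) * star (G (F z) (star (Y z)))) := by
    unfold bet
    have e1 : (((nn G (Y z) ^ 2 - κ * ‖E z‖ ^ 4) * nn G (F z) -
      nn G (Y z) * (‖G (F z) (star (Y z))‖ ^ 2 + κ * ‖G (Y z) (F z)‖ ^ 2) +
      2 * κ * (E z ^ 2 * star (G (Y z) (F z)) * G (F z) (star (Y z))).re : ℝ) : ℂ) =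
      ((nn G (Y z) : ℂ) ^ 2 - κ * ((‖E z‖ ^ 2 : ℝ) : ℂ) ^ 2) * nn G (F z) -
      nn G (Y z) * (((‖G (F z) (star (Y z))‖ ^ 2 : ℝ) : ℂ) +
        κ * ((‖G (Y z) (F z)‖ ^ 2 : ℝ) : ℂ)) +
      κ * ((2 * (E z ^ 2 * star (G (Y z) (F z)) * G (F z) (star (Y z))).re : ℝ) : ℂ) := by
      push_cast
      ring
    rw [e1, hre, hNE, hnA, hnB]
    simp only [star_mul, star_pow, star_star]
    ring
  -- numerator and denominator
  have dU := (dn.mul (ds.add dN)).sub ((db.const_mul (κ : ℂ)).mul (dEb.mul dB))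
  have dD := ds.mul (dN.add ds)
  have hDne : ((ss G κ (Y z) (E z) : ℝ) : ℂ) * (((nn G (Y z) : ℝ) : ℂ) +
      ((ss G κ (Y z) (E z) : ℝ) : ℂ)) ≠ 0 := by
    have : ss G κ (Y z) (E z) * (nn G (Y z) + ss G κ (Y z) (E z)) ≠ 0 := by positivity
    exact_mod_cast this
  have dg := dU.div dD hDne
  have hg : (fun z => gg G κ (Y z) (E z) (F z)) = fun z =>
      (E z * G (F z) (star (Y z)) * (((ss G κ (Y z) (E z) : ℝ) : ℂ) + ((nn G (Y z) : ℝ) : ℂ)) -
        (κ : ℂ) * ((‖E z‖ ^ 2 : ℝ) : ℂ) * (star (E z) * G (Y z) (F z))) /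
      (((ss G κ (Y z) (E z) : ℝ) : ℂ) * (((nn G (Y z) : ℝ) : ℂ) +
        ((ss G κ (Y z) (E z) : ℝ) : ℂ))) := by
    funext w
    unfold gg
    push_cast
    ring
  rw [hg]
  refine ⟨_, dg.congr_pq rfl ?_⟩
  have hsC : ((ss G κ (Y z) (E z) : ℝ) : ℂ) ≠ 0 := by exact_mod_cast hspos.ne'
  have hTC : ((nn G (Y z) : ℝ) : ℂ) + ((ss G κ (Y z) (E z) : ℝ) : ℂ) ≠ 0 := by
    have : nn G (Y z) + ss G κ (Y z) (E z) ≠ 0 := by positivity
    exact_mod_cast this
  have hsqC : ((ss G κ (Y z) (E z) : ℝ) : ℂ) ^ 2 =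
      ((nn G (Y z) : ℝ) : ℂ) ^ 2 - κ * (E z * star (E z)) ^ 2 := by
    rw [← hNE]
    have := congrArg (fun x : ℝ => (x : ℂ)) hsq
    push_cast at this ⊢
    rw [this]
    ring
  have hcast : ((‖E z‖ ^ 2 / ss G κ (Y z) (E z) ^ 3 * bet G κ (Y z) (E z) (F z) : ℝ) : ℂ) =
      (E z * star (E z)) / ((ss G κ (Y z) (E z) : ℝ) : ℂ) ^ 3 *
        ((bet G κ (Y z) (E z) (F z) : ℝ) : ℂ) := by
    rw [← hNE]
    push_cast
    ring
  have hGFF : G (F z) (star (F z)) = ((nn G (F z) : ℝ) : ℂ) := by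
    rw [H.symm, H.diag]
  rw [hcast, hbet, hNE]
  simp only [star_smul, map_smul, smul_eq_mul, map_zero, mul_zero, add_zero, zero_mul, zero_add,
    star_mul, _root_.zero_apply, hGFF]
  clear hbet hcast dg hg dD dU ds dr db dN dn dA dB dEb dYb dF dE dY
  generalize ((ss G κ (Y z) (E z) : ℝ) : ℂ) = s at *
  generalize ((nn G (Y z) : ℝ) : ℂ) = N at *
  generalize ((nn G (F z) : ℝ) : ℂ) = f at *
  generalize star (G (F z) (star (Y z))) = Ab at *
  generalize G (F z) (star (Y z)) = A at *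
  generalize star (G (Y z) (F z)) = Bb at *
  generalize G (Y z) (F z) = B at *
  generalize star (E z) = Eb at *
  generalize E z = E0 at *
  generalize (κ : ℂ) = k at *
  obtain ⟨w, hw⟩ : ∃ w, w * s = N * (Ab * Eb) - k * (E0 * Eb) * (E0 * Bb) :=
    ⟨(N * (Ab * Eb) - k * (E0 * Eb) * (E0 * Bb)) / s, div_mul_cancel₀ _ hsC⟩
  have hw1 : 2 * (N * (Ab * Eb) - k * (E0 * Eb) * (E0 * Bb)) / (2 * s) = w := by
    rw [← hw]
    field_simp
  rw [hw1]
  have key : s * ((E0 * (Eb * f) * (s + N) + E0 * A * (w + Ab * Eb) -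
            (k * (E0 * Bb) * (Eb * B) + k * (E0 * Eb) * (Bb * B))) *
          (s * (N + s)) -
        (E0 * A * (s + N) - k * (E0 * Eb) * (Eb * B)) *
          (w * (N + s) + s * (Ab * Eb + w))) = E0 * Eb * ((N ^ 2 - k * (E0 * Eb) ^ 2) * f -
            N * (A * Ab + k * (B * Bb)) + k * (E0 ^ 2 * Bb * A + Eb ^ 2 * B * Ab)) *
            (N + s) ^ 2 := by
    linear_combination (E0 * A * (s * (N + s)) -
      (E0 * A * (s + N) - k * (E0 * Eb) * (Eb * B)) * ((N + s) + s)) * hw +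
      (E0 * Eb * s ^ 2 * f + 2 * E0 * Eb * N * s * f + E0 * Eb * N ^ 2 * f -
        2 * E0 * Eb * B * Bb * s * k - E0 * Eb * B * Bb * N * k) * hsqC
  rw [div_eq_iff (pow_ne_zero 2 (mul_ne_zero hsC hTC))]
  have hs3 : s ^ 3 ≠ 0 := pow_ne_zero 3 hsC
  rw [div_mul_eq_mul_div, div_mul_eq_mul_div, eq_div_iff hs3]
  linear_combination s ^ 2 * key

end Flat

end Stek.Ca
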