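import Pool.Agent.H.MP_fc2485_gt.Ca.Defs
import Pool.Agent.H.MP_fc2485_gt.Sv.Trans

/-!
Conformal linear maps and the change of variables between charts.
-/

set_option maxSynthPendingDepth 3

open Set Filter Topology InnerProductSpace MeasureTheory
open scoped ContDiff

namespace Stek.Ca

open Stek Surface Sv GCell

/-- `D` is a rotation or a reflection times `k` (compare `Sv.trans_conf`) -/
theorem conf_det {D : ℂ →L[ℝ] ℂ} {k : ℝ} (hk : 0 < k) (h : ∀ v, ‖D v‖ = k * ‖v‖) :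
    |D.det| = k ^ 2 := by
  have h1 : D.det = (D 1).re * (D Complex.I).im - (D Complex.I).re * (D 1).im := by
    have e : D.det = LinearMap.det (D : ℂ →ₗ[ℝ] ℂ) := rfl
    rw [e, ← LinearMap.det_toMatrix Complex.basisOneI, Matrix.det_fin_two]
    simp [LinearMap.toMatrix_apply]
  have h2 : (D 1).re ^ 2 + (D 1).im ^ 2 = k ^ 2 := by
    have h3 := h 1
    rw [norm_one, mul_one] at h3
    rw [← h3, ← Complex.normSq_eq_norm_sq, Complex.normSq_apply]
    ring
  rcases trans_conf hk h with h3 | h3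
  · have h4 : D.det = k ^ 2 := by
      rw [h1, h3, ← h2]
      simp
      ring
    rw [h4, abs_of_nonneg (by positivity)]
  · have h4 : D.det = -k ^ 2 := by
      rw [h1, h3, ← h2]
      simp
      ring
    rw [h4, abs_neg, abs_of_nonneg (by positivity)]

/-- the pairing is conformally invariant -/
theorem conf_pr {D : ℂ →L[ℝ] ℂ} {k : ℝ} (hk : 0 < k) (h : ∀ v, ‖D v‖ = k * ‖v‖)
    (A : ℂ →L[ℝ] ℝ) {g g' : ℂ} (hg : ∀ v, (g * v).re = (g' * D v).re) :
    pr (A.comp D) g = k ^ 2 * pr A g' := by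
  have hA : ∀ z : ℂ, A z = z.re * A 1 + z.im * A Complex.I := by
    intro z
    have h1 : z = z.re • (1 : ℂ) + z.im • Complex.I := by
      apply Complex.ext <;> simp
    conv_lhs => rw [h1, map_add, map_smul, map_smul, smul_eq_mul, smul_eq_mul]
  have h2 : (D 1).re ^ 2 + (D 1).im ^ 2 = k ^ 2 := by
    have h3 := h 1
    rw [norm_one, mul_one] at h3
    rw [← h3, ← Complex.normSq_eq_norm_sq, Complex.normSq_apply]
    ring
  have g1 : g.re = g'.re * (D 1).re - g'.im * (D 1).im := by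
    have := hg 1
    rw [mul_one, Complex.mul_re] at this
    exact this
  have g2 : g.im = -(g'.re * (D Complex.I).re - g'.im * (D Complex.I).im) := by
    have := hg Complex.I
    rw [Complex.mul_re, Complex.mul_re, Complex.I_re, Complex.I_im] at this
    linarith
  unfold pr
  rw [ContinuousLinearMap.comp_apply, ContinuousLinearMap.comp_apply, hA (D 1), hA (D Complex.I),
    g1, g2, ← h2]
  rcases trans_conf hk h with h3 | h3
  · rw [h3]
    simp
    ring
  · rw [h3]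
    simp
    ring

variable {S : Type*} [TopologicalSpace S] {M : Surface S}

/-- change of variables between two charts
(`MeasureTheory.integral_image_eq_integral_abs_det_fderiv_smul`, trans_isom) -/
theorem chg {φ ψ : Chart S} (hφ : φ ∈ M.charts) (hψ : ψ ∈ M.charts) {O O' : Set ℂ}
    (hO : IsOpen O) (hO' : IsOpen O') (h1 : ∀ z ∈ O, z ∈ φ.map.target ∧ 0 < z.im)
    (h2 : ∀ z ∈ O', z ∈ ψ.map.target ∧ 0 < z.im) {f f' : ℂ → ℝ}
    (hf : ∀ z ∈ O, φ.map.symm z ∈ ψ.map.source → ψ.map (φ.map.symm z) ∈ O' →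
      f z = ‖fderiv ℝ (fun z => ψ.map (φ.map.symm z)) z 1‖ ^ 2 * f' (ψ.map (φ.map.symm z))) :
    ∫ z in {z | z ∈ O ∧ φ.map.symm z ∈ ψ.map.source ∧ ψ.map (φ.map.symm z) ∈ O'}, f z =
      ∫ w in {w | w ∈ O' ∧ ψ.map.symm w ∈ φ.map.source ∧ φ.map (ψ.map.symm w) ∈ O}, f' w := by
  set T : ℂ → ℂ := fun z => ψ.map (φ.map.symm z) with hT
  set A : Set ℂ := {z | z ∈ O ∧ φ.map.symm z ∈ ψ.map.source ∧ ψ.map (φ.map.symm z) ∈ O'} with hA
  have hd : ∀ z ∈ A, ContDiffAt ℝ ∞ T z := fun z hz =>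
    trans_contDiffAt hφ hψ (h1 z hz.1).1 (h1 z hz.1).2 hz.2.1
  have hAo : IsOpen A := by
    rw [isOpen_iff_mem_nhds]
    intro z hz
    filter_upwards [hO.mem_nhds hz.1, trans_nhds (h1 z hz.1).1 (h1 z hz.1).2 hz.2.1,
      (hd z hz).continuousAt.eventually_mem (hO'.mem_nhds hz.2.2)] with w w1 w2 w3
    exact ⟨w1, w2.2.2, w3⟩
  have hB : {w | w ∈ O' ∧ ψ.map.symm w ∈ φ.map.source ∧ φ.map (ψ.map.symm w) ∈ O} = T '' A := by
    ext w
    constructor
    · rintro ⟨w1, w2, w3⟩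
      refine ⟨φ.map (ψ.map.symm w), ⟨w3, ?_, ?_⟩, ?_⟩
      · rw [φ.map.left_inv w2]
        exact ψ.map.map_target (h2 w w1).1
      · rw [φ.map.left_inv w2, ψ.map.right_inv (h2 w w1).1]
        exact w1
      · rw [hT]
        show ψ.map (φ.map.symm (φ.map (ψ.map.symm w))) = w
        rw [φ.map.left_inv w2, ψ.map.right_inv (h2 w w1).1]
    · rintro ⟨z, ⟨z1, z2, z3⟩, rfl⟩
      refine ⟨z3, ?_, ?_⟩
      · show ψ.map.symm (ψ.map (φ.map.symm z)) ∈ φ.map.source
        rw [ψ.map.left_inv z2]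
        exact φ.map.map_target (h1 z z1).1
      · show φ.map (ψ.map.symm (ψ.map (φ.map.symm z))) ∈ O
        rw [ψ.map.left_inv z2, φ.map.right_inv (h1 z z1).1]
        exact z1
  have hinj : InjOn T A := by
    intro z hz z' hz' hzz
    have e1 : φ.map.symm z = φ.map.symm z' := ψ.map.injOn hz.2.1 hz'.2.1 hzz
    exact φ.map.symm.injOn (h1 z hz.1).1 (h1 z' hz'.1).1 e1
  have hder : ∀ z ∈ A, HasFDerivWithinAt T (fderiv ℝ T z) A z := fun z hz =>
    (((hd z hz).differentiableAt (by simp)).hasFDerivAt).hasFDerivWithinAt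
  rw [hB, integral_image_eq_integral_abs_det_fderiv_smul volume hAo.measurableSet hder hinj f']
  refine setIntegral_congr_fun hAo.measurableSet fun z hz => ?_
  obtain ⟨k, hk, hiso⟩ := trans_isom hφ hψ (h1 z hz.1).1 (h1 z hz.1).2 hz.2.1
  show f z = |(fderiv ℝ T z).det| • f' (T z)
  rw [conf_det hk hiso, smul_eq_mul, hf z hz.1 hz.2.1 hz.2.2]
  have h5 := hiso 1
  rw [norm_one, mul_one] at h5
  rw [h5]

end Stek.Ca
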