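import Pool.Agent.H.MP_fc2485_gt.Sv.Reach
import Pool.Agent.H.MP_fc2485_gt.Sv.MaxP

/-!
The potentials `M_κ = log(N + (N² - κ|E|⁴)^(1/2)) / 2` of a flat section `(Y, E)`,
`N = G(Y, conj Y)`, through their complex gradient `g = 2 ∂M_κ`.
-/

set_option maxSynthPendingDepth 3

open Set Filter Topology InnerProductSpace
open scoped ContDiff

namespace Stek.Ca

open Stek Surface Sv GCell

/-- symmetric, real, positive definite -/
structure Herm {m : ℕ} (G : Bl m) : Prop where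
  symm : ∀ v w, G v w = G w v
  real : ∀ v w, G (star v) (star w) = star (G v w)
  pd : ∀ v : V m, v ≠ 0 → 0 < (G (star v) v).re

/-- the square of the norm -/
noncomputable def nn {m : ℕ} (G : Bl m) (Y : V m) : ℝ := (G (star Y) Y).re

/-- `s = (N² - κ|E|⁴)^(1/2)` -/
noncomputable def ss {m : ℕ} (G : Bl m) (κ : ℝ) (Y : V m) (E : ℂ) : ℝ :=
  Real.sqrt (nn G Y ^ 2 - κ * ‖E‖ ^ 4)

/-- the complex gradient of the potential -/
noncomputable def gg {m : ℕ} (G : Bl m) (κ : ℝ) (Y : V m) (E : ℂ) (F : V m) : ℂ :=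
  (E * G F (star Y) * (ss G κ Y E + nn G Y : ℝ) - (κ * ‖E‖ ^ 2 : ℝ) * (star E * G Y F)) /
    ((ss G κ Y E * (nn G Y + ss G κ Y E) : ℝ) : ℂ)

/-- the numerator of the Laplacian of the potential -/
noncomputable def bet {m : ℕ} (G : Bl m) (κ : ℝ) (Y : V m) (E : ℂ) (F : V m) : ℝ :=
  (nn G Y ^ 2 - κ * ‖E‖ ^ 4) * nn G F -
    nn G Y * (‖G F (star Y)‖ ^ 2 + κ * ‖G Y F‖ ^ 2) +
    2 * κ * (E ^ 2 * star (G Y F) * G F (star Y)).re

/-- the pairing of a real linear form with the form of complex gradient `g` -/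
noncomputable def pr (A : ℂ →L[ℝ] ℝ) (g : ℂ) : ℝ := A 1 * g.re - A Complex.I * g.im

end Stek.Ca
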