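import Pool.Agent.H.MP_fc2485_gt.Ca.Gram

/-!
Polarization, and the contradiction for `m ≥ 3`.
-/

set_option maxSynthPendingDepth 3

open Set Filter Topology InnerProductSpace
open scoped ContDiff

namespace Stek.Ca

open Stek Surface Sv GCell

private theorem pol_step {ι : Type*} (I : Finset ι) {z0 : ℂ} {r : ℝ} {h k : ι → ℂ → ℂ}
    (hh : ∀ a ∈ I, DifferentiableOn ℂ (h a) (Metric.ball z0 r))
    (hk : ∀ a ∈ I, DifferentiableOn ℂ (k a) (Metric.ball z0 r))
    (hz : ∀ z ∈ Metric.ball z0 r, ∑ a ∈ I, h a z * star (k a z) = 0) :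
    ∀ z ∈ Metric.ball z0 r, ∑ a ∈ I, h a z * star (deriv (k a) z) = 0 := by
  intro z hzB
  have hdir : ∀ v : ℂ, ∑ a ∈ I, ((v * deriv (h a) z) * star (k a z) +
      h a z * star (v * deriv (k a) z)) = 0 := by
    intro v
    have hc : HasDerivAt (fun t : ℝ => z + (t : ℂ) * v) v 0 := by
      have h1 : HasDerivAt (fun t : ℝ => (t : ℂ)) 1 0 := by
        simpa using (hasDerivAt_id (0 : ℝ)).ofReal_comp
      simpa using (h1.mul_const v).const_add z
    have hc0 : (fun t : ℝ => z + (t : ℂ) * v) 0 = z := by simp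
    have hH : ∀ a ∈ I, HasDerivAt (fun t : ℝ => h a (z + (t : ℂ) * v)) (v * deriv (h a) z) 0 := by
      intro a ha
      have h1 : HasDerivAt (h a) (deriv (h a) z) z :=
        ((hh a ha).differentiableAt (Metric.isOpen_ball.mem_nhds hzB)).hasDerivAt
      have h2 := HasDerivAt.scomp_of_eq (x := (0 : ℝ)) (h := fun t : ℝ => z + (t : ℂ) * v)
        (h' := v) h1 hc hc0.symm
      simpa [smul_eq_mul, Function.comp_def] using h2
    have hK : ∀ a ∈ I, HasDerivAt (fun t : ℝ => star (k a (z + (t : ℂ) * v)))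
        (star (v * deriv (k a) z)) 0 := by
      intro a ha
      have h1 : HasDerivAt (k a) (deriv (k a) z) z :=
        ((hk a ha).differentiableAt (Metric.isOpen_ball.mem_nhds hzB)).hasDerivAt
      have h2 := HasDerivAt.scomp_of_eq (x := (0 : ℝ)) (h := fun t : ℝ => z + (t : ℂ) * v)
        (h' := v) h1 hc hc0.symm
      have h3 := h2.star
      simpa [smul_eq_mul, Function.comp_def] using h3
    have hS : HasDerivAt (fun t : ℝ => ∑ a ∈ I, h a (z + (t : ℂ) * v) *
        star (k a (z + (t : ℂ) * v))) (∑ a ∈ I, ((v * deriv (h a) z) * star (k a z) +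
      h a z * star (v * deriv (k a) z))) 0 := by
      refine HasDerivAt.fun_sum fun a ha => ?_
      have := (hH a ha).fun_mul (hK a ha)
      have e0 : z + ((0 : ℝ) : ℂ) * v = z := hc0
      rw [e0] at this
      exact this
    have h0 : HasDerivAt (fun t : ℝ => ∑ a ∈ I, h a (z + (t : ℂ) * v) *
        star (k a (z + (t : ℂ) * v))) 0 0 := by
      refine (hasDerivAt_const (0 : ℝ) (0 : ℂ)).congr_of_eventuallyEq ?_
      have hcont : ContinuousAt (fun t : ℝ => z + (t : ℂ) * v) 0 := hc.continuousAt
      have hmem : ∀ᶠ t : ℝ in 𝓝 0, z + (t : ℂ) * v ∈ Metric.ball z0 r := by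
        apply hcont.eventually
        rw [hc0]
        exact Metric.isOpen_ball.mem_nhds hzB
      filter_upwards [hmem] with t ht
      exact hz _ ht
    exact hS.unique h0
  have h1 := hdir 1
  have h2 := hdir Complex.I
  set A := ∑ a ∈ I, deriv (h a) z * star (k a z) with hA
  set B := ∑ a ∈ I, h a z * star (deriv (k a) z) with hB
  have e1 : A + B = 0 := by
    rw [← h1, hA, hB, ← Finset.sum_add_distrib]
    refine Finset.sum_congr rfl fun a _ => ?_
    rw [one_mul, one_mul]
  have e2 : Complex.I * A - Complex.I * B = 0 := by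
    rw [← h2, hA, hB, Finset.mul_sum, Finset.mul_sum, ← Finset.sum_sub_distrib]
    refine Finset.sum_congr rfl fun a _ => ?_
    rw [star_mul]
    have : star Complex.I = -Complex.I := by
      simp
    rw [this]
    ring
  have e3 : Complex.I * (A - B) = 0 := by
    rw [mul_sub]; exact e2
  have e4 : A - B = 0 := by
    rcases mul_eq_zero.1 e3 with h | h
    · exact absurd h Complex.I_ne_zero
    · exact h
  have e5 : (2 : ℂ) * B = 0 := by
    linear_combination e1 - e4
  rcases mul_eq_zero.1 e5 with h | h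
  · exact absurd h two_ne_zero
  · exact h

/-- Polarization. Differentiating `∑ h_a conj(k_a) = 0` in the two real directions gives
`∑ h_a conj(k_a') = 0`; by induction `∑ h_a conj(k_a^(n)) = 0` for all `n`, so for fixed `z` the
holomorphic function `w ↦ ∑ conj(h_a z) k_a w` has all derivatives zero at `w = z`. -/
theorem polar {ι : Type*} (I : Finset ι) {z0 : ℂ} {r : ℝ} {h k : ι → ℂ → ℂ}
    (hh : ∀ a ∈ I, DifferentiableOn ℂ (h a) (Metric.ball z0 r))
    (hk : ∀ a ∈ I, DifferentiableOn ℂ (k a) (Metric.ball z0 r))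
    (hz : ∀ z ∈ Metric.ball z0 r, ∑ a ∈ I, h a z * star (k a z) = 0) :
    ∀ z ∈ Metric.ball z0 r, ∀ w ∈ Metric.ball z0 r, ∑ a ∈ I, h a z * star (k a w) = 0 := by
  have hkn : ∀ n : ℕ, ∀ a ∈ I, DifferentiableOn ℂ (iteratedDeriv n (k a)) (Metric.ball z0 r) := by
    intro n
    induction n with
    | zero =>
      intro a ha
      rw [iteratedDeriv_zero]
      exact hk a ha
    | succ n ih =>
      intro a ha
      rw [iteratedDeriv_succ]
      exact (ih a ha).deriv Metric.isOpen_ball
  have hzn : ∀ n : ℕ, ∀ z ∈ Metric.ball z0 r,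
      ∑ a ∈ I, h a z * star (iteratedDeriv n (k a) z) = 0 := by
    intro n
    induction n with
    | zero =>
      intro z hzB
      simpa [iteratedDeriv_zero] using hz z hzB
    | succ n ih =>
      intro z hzB
      have := pol_step I hh (hkn n) ih z hzB
      simpa [iteratedDeriv_succ] using this
  intro z hzB
  -- the holomorphic function
  set g : ℂ → ℂ := fun w => ∑ a ∈ I, star (h a z) * k a w with hg
  have gd : DifferentiableOn ℂ g (Metric.ball z0 r) := by
    refine DifferentiableOn.fun_sum fun a ha => ?_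
    exact (hk a ha).const_mul _
  have gan : AnalyticOnNhd ℂ g (Metric.ball z0 r) := gd.analyticOnNhd Metric.isOpen_ball
  have hgn : ∀ n : ℕ, ∀ w ∈ Metric.ball z0 r,
      iteratedDeriv n g w = ∑ a ∈ I, star (h a z) * iteratedDeriv n (k a) w := by
    intro n
    induction n with
    | zero =>
      intro w hw
      simp [iteratedDeriv_zero, hg]
    | succ n ih =>
      intro w hw
      rw [iteratedDeriv_succ]
      have e1 : iteratedDeriv n g =ᶠ[𝓝 w]
          fun w => ∑ a ∈ I, star (h a z) * iteratedDeriv n (k a) w := by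
        filter_upwards [Metric.isOpen_ball.mem_nhds hw] with u hu
        exact ih u hu
      rw [e1.deriv_eq]
      have e2 : HasDerivAt (fun w => ∑ a ∈ I, star (h a z) * iteratedDeriv n (k a) w)
          (∑ a ∈ I, star (h a z) * iteratedDeriv (n + 1) (k a) w) w := by
        refine HasDerivAt.fun_sum fun a ha => ?_
        rw [iteratedDeriv_succ]
        exact (((hkn n a ha).differentiableAt
          (Metric.isOpen_ball.mem_nhds hw)).hasDerivAt).const_mul _
      exact e2.deriv
  have hg0 : ∀ n : ℕ, iteratedDeriv n g z = 0 := by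
    intro n
    rw [hgn n z hzB]
    have := hzn n z hzB
    have h2 := congrArg star this
    rw [star_sum, star_zero] at h2
    rw [← h2]
    refine Finset.sum_congr rfl fun a _ => ?_
    rw [star_mul, star_star, mul_comm]
  have hev : ∀ᶠ w in 𝓝 z, g w = 0 := by
    obtain ⟨ρ, hρ, hsub⟩ := Metric.isOpen_ball.mem_nhds hzB |> Metric.mem_nhds_iff.1
    filter_upwards [Metric.ball_mem_nhds z hρ] with w hw
    have hs := Complex.hasSum_taylorSeries_on_ball (f := g) (c := z) (r := ρ)
      (gd.mono hsub) (z := w) (by simpa using hw)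
    have h0 : (fun n : ℕ => ((n.factorial : ℂ)⁻¹) • (w - z) ^ n • iteratedDeriv n g z) =
        fun _ => 0 := by
      funext n
      rw [hg0 n]
      simp
    rw [h0] at hs
    exact hs.unique hasSum_zero
  have hall : EqOn g 0 (Metric.ball z0 r) :=
    gan.eqOn_zero_of_preconnected_of_eventuallyEq_zero
      (convex_ball z0 r).isPreconnected hzB hev
  intro w hw
  have h1 : g w = 0 := hall hw
  have h2 := congrArg star h1
  rw [hg] at h2
  simp only [star_sum, star_zero] at h2
  rw [← h2]
  refine Finset.sum_congr rfl fun a _ => ?_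
  rw [star_mul, star_star, mul_comm]

private theorem pol_third {m : ℕ} (hm : 3 ≤ m) (i j : Fin m) : ∃ k : Fin m, k ≠ i ∧ k ≠ j := by
  by_contra hcon
  push Not at hcon
  have h1 : (Finset.univ : Finset (Fin m)) ⊆ {i, j} := by
    intro k _
    by_cases hk : k = i
    · simp [hk]
    · simp [hcon k hk]
  have h2 := Finset.card_le_card h1
  have h3 : ({i, j} : Finset (Fin m)).card ≤ 2 := Finset.card_le_two
  rw [Finset.card_univ, Fintype.card_fin] at h2
  omega

/-- Proof. All 3x3 minors of `(Y, F, conj Y)` vanish on the ball; by `polar` the minors of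
`(Y z, F z, conj (Y w))` vanish for all `z, w`. If `Y z0, F z0` are independent at some `z0`, i.e.
`Δ = Y_i F_j - Y_j F_i ≠ 0`, take `k` different from `i`, `j`: the functional
`y ↦ conj Δ y_k - conj(Y_i F_k - Y_k F_i) y_j + conj(Y_j F_k - Y_k F_j) y_i` (values at `z0`) is not zero and
kills all `Y w`. If `Y z, F z` are dependent for all `z`, then `(Y_j/Y_i)' = E (F_j Y_i - F_i Y_j)/Y_i² = 0`
near a point with `Y_i ≠ 0`, so `Y` stays in a line there. In both cases this contradicts `hsp`, applied
on a smaller ball. -/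
theorem dep_absurd {m : ℕ} (hm : 3 ≤ m) {z0 : ℂ} {r : ℝ} (hr : 0 < r) {Y F : ℂ → V m}
    {E : ℂ → ℂ} (dY : ∀ z ∈ Metric.ball z0 r, HasDerivAt Y (E z • F z) z)
    (dF : DifferentiableOn ℂ F (Metric.ball z0 r))
    (hsp : ∀ z' r', 0 < r' → Metric.ball z' r' ⊆ Metric.ball z0 r → ∀ ξ : V m →L[ℂ] ℂ,
      (∀ s ∈ Metric.ball z' r', ξ (Y s) = 0) → ξ = 0)
    (hdep : ∀ z ∈ Metric.ball z0 r, ∃ α β : ℂ, F z = α • Y z + β • star (Y z)) : False := by
  have dYi : ∀ i : Fin m, ∀ z ∈ Metric.ball z0 r,
      HasDerivAt (fun z => Y z i) (E z * F z i) z := by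
    intro i z hz
    have h1 := (hasDerivAt_pi.1 (dY z hz)) i
    simpa using h1
  have dYo : ∀ i : Fin m, DifferentiableOn ℂ (fun z => Y z i) (Metric.ball z0 r) :=
    fun i z hz => (dYi i z hz).differentiableAt.differentiableWithinAt
  have dFo : ∀ i : Fin m, DifferentiableOn ℂ (fun z => F z i) (Metric.ball z0 r) :=
    fun i => differentiableOn_pi.1 dF i
  by_cases hcase : ∃ z1 ∈ Metric.ball z0 r, ∃ i j : Fin m,
      Y z1 i * F z1 j - Y z1 j * F z1 i ≠ 0
  · obtain ⟨z1, hz1, i, j, hΔ⟩ := hcase
    have hij : i ≠ j := by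
      rintro rfl
      exact hΔ (sub_self _)
    obtain ⟨k, hki, hkj⟩ := pol_third hm i j
    set hf : Fin 3 → ℂ → ℂ := ![fun z => Y z i * F z j - Y z j * F z i,
      fun z => -(Y z i * F z k - Y z k * F z i), fun z => Y z j * F z k - Y z k * F z j] with hhf
    set kf : Fin 3 → ℂ → ℂ := ![fun z => Y z k, fun z => Y z j, fun z => Y z i] with hkf
    have h1 : ∀ a ∈ (Finset.univ : Finset (Fin 3)),
        DifferentiableOn ℂ (hf a) (Metric.ball z0 r) := by
      intro a _
      fin_cases a
      · exact ((dYo i).mul (dFo j)).sub ((dYo j).mul (dFo i))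
      · exact (((dYo i).mul (dFo k)).sub ((dYo k).mul (dFo i))).neg
      · exact ((dYo j).mul (dFo k)).sub ((dYo k).mul (dFo j))
    have h2 : ∀ a ∈ (Finset.univ : Finset (Fin 3)),
        DifferentiableOn ℂ (kf a) (Metric.ball z0 r) := by
      intro a _
      fin_cases a
      · exact dYo k
      · exact dYo j
      · exact dYo i
    have h3 : ∀ z ∈ Metric.ball z0 r, ∑ a, hf a z * star (kf a z) = 0 := by
      intro z hz
      obtain ⟨α, β, hab⟩ := hdep z hz
      have e : ∀ l : Fin m, F z l = α * Y z l + β * star (Y z l) := by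
        intro l
        rw [hab]
        simp
      rw [Fin.sum_univ_three]
      change (Y z i * F z j - Y z j * F z i) * star (Y z k) +
        -(Y z i * F z k - Y z k * F z i) * star (Y z j) +
        (Y z j * F z k - Y z k * F z j) * star (Y z i) = 0
      rw [e i, e j, e k]
      ring
    have h4 := polar Finset.univ h1 h2 h3 z1 hz1
    set c0 := Y z1 i * F z1 j - Y z1 j * F z1 i with hc0
    set c1 := -(Y z1 i * F z1 k - Y z1 k * F z1 i) with hc1
    set c2 := Y z1 j * F z1 k - Y z1 k * F z1 j with hc2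
    let ξ : V m →L[ℂ] ℂ := star c0 • ContinuousLinearMap.proj (R := ℂ) (φ := fun _ : Fin m => ℂ) k +
      star c1 • ContinuousLinearMap.proj (R := ℂ) (φ := fun _ : Fin m => ℂ) j +
      star c2 • ContinuousLinearMap.proj (R := ℂ) (φ := fun _ : Fin m => ℂ) i
    have hξ : ∀ y : V m, ξ y = star c0 * y k + star c1 * y j + star c2 * y i := by
      intro y
      rfl
    have h5 : ξ = 0 := by
      refine hsp z0 r hr subset_rfl ξ fun s hs => ?_
      have h6 := h4 s hs
      rw [Fin.sum_univ_three] at h6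
      have h7 : c0 * star (Y s k) + c1 * star (Y s j) + c2 * star (Y s i) = 0 := h6
      have h8 := congrArg star h7
      rw [star_add, star_add, star_mul, star_mul, star_mul, star_star, star_star, star_star,
        star_zero] at h8
      rw [hξ, ← h8]
      ring
    have h6 : ξ (Pi.single k 1) = 0 := by rw [h5]; rfl
    rw [hξ] at h6
    simp [hki.symm, hkj.symm] at h6
    exact hΔ h6
  · push Not at hcase
    -- `Y` is not identically zero
    have hY : ∃ z1 ∈ Metric.ball z0 r, ∃ i : Fin m, Y z1 i ≠ 0 := by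
      by_contra hcon
      push Not at hcon
      let i0 : Fin m := ⟨0, by omega⟩
      have h5 := hsp z0 r hr subset_rfl
        (ContinuousLinearMap.proj (R := ℂ) (φ := fun _ : Fin m => ℂ) i0)
        (fun s hs => hcon s hs i0)
      have h6 := congrArg (fun f : V m →L[ℂ] ℂ => f (Pi.single i0 1)) h5
      simp at h6
    obtain ⟨z1, hz1, i, hi⟩ := hY
    have hcont : ContinuousAt (fun z => Y z i) z1 := (dYi i z1 hz1).continuousAt
    have hev : ∀ᶠ z in 𝓝 z1, Y z i ≠ 0 ∧ z ∈ Metric.ball z0 r :=
      (hcont.eventually_ne hi).and (Metric.isOpen_ball.mem_nhds hz1)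
    obtain ⟨ρ, hρ, hsub⟩ := Metric.mem_nhds_iff.1 hev
    obtain ⟨j, hj, -⟩ := pol_third hm i i
    have hd : ∀ z ∈ Metric.ball z1 ρ, HasDerivAt (fun z => Y z j / Y z i) 0 z := by
      intro z hz
      obtain ⟨hne, hzB⟩ := hsub hz
      have h1 := (dYi j z hzB).fun_div (dYi i z hzB) hne
      have h2 : (E z * F z j * Y z i - Y z j * (E z * F z i)) / Y z i ^ 2 = 0 := by
        have h3 := hcase z hzB i j
        have h4 : E z * F z j * Y z i - Y z j * (E z * F z i) =
            E z * (Y z i * F z j - Y z j * F z i) := by ring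
        rw [h4, h3, mul_zero, zero_div]
      rw [h2] at h1
      exact h1
    have hconst : ∀ z ∈ Metric.ball z1 ρ, Y z j / Y z i = Y z1 j / Y z1 i := by
      intro z hz
      exact Metric.isOpen_ball.is_const_of_deriv_eq_zero (convex_ball z1 ρ).isPreconnected
        (fun w hw => (hd w hw).differentiableAt.differentiableWithinAt)
        (fun w hw => (hd w hw).deriv) hz (Metric.mem_ball_self hρ)
    set c := Y z1 j / Y z1 i with hc
    have hY2 : ∀ z ∈ Metric.ball z1 ρ, Y z j - c * Y z i = 0 := by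
      intro z hz
      have h1 := hconst z hz
      rw [div_eq_iff (hsub hz).1] at h1
      rw [h1]
      ring
    let ξ : V m →L[ℂ] ℂ := ContinuousLinearMap.proj (R := ℂ) (φ := fun _ : Fin m => ℂ) j -
      c • ContinuousLinearMap.proj (R := ℂ) (φ := fun _ : Fin m => ℂ) i
    have hξ : ∀ y : V m, ξ y = y j - c * y i := fun y => rfl
    have h5 : ξ = 0 := by
      refine hsp z1 ρ hρ (fun z hz => (hsub hz).2) ξ fun s hs => ?_
      rw [hξ]
      exact hY2 s hs
    have h6 : ξ (Pi.single j 1) = 0 := by rw [h5]; rfl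
    rw [hξ] at h6
    simp [hj] at h6

end Stek.Ca
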