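import Pool.Agent.H.MP_fc2485_gt.Ca.BdB
import Pool.Agent.H.MP_fc2485_gt.Ca.BdC
import Pool.Agent.H.MP_fc2485_gt.Ca.Pol

/-!
Case A is impossible in dimension at least three.
-/

set_option maxSynthPendingDepth 3

open Set Filter Topology InnerProductSpace MeasureTheory
open scoped ContDiff

namespace Stek.Ca

open Stek Surface Sv GCell

variable {S : Type*} [TopologicalSpace S] {M : Surface S} {σ : ℝ} {m : ℕ} {e : Fin m → S → ℝ}
  {G : Bl m}

private theorem fin_K_nhds (c : GCell M e G) {z : ℂ} (hz : z ∈ c.O) : c.K ∈ 𝓝 z :=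
  mem_of_superset ((isOpen_RectI _ _ _ _).mem_nhds hz) (RectI_sub _ _ _ _)

/-- Proof. exists_fam with the cells of BdC.lean (`P c`: `∃ C, IsCC M C ∧ (BCell C c ∨ Reach C c ∧ 0 < c.c)`).
For `κ < 1` the sum of all `TT` is `0` (sum_TT); the `TT` of the interior cells are `≤ 0` (TT_nonpos), so
the sum of the `TT` of the boundary cells is `≥ 0`, and so is its limit for `κ → 1`; the limits are
`≤ 0` (TT_one), so they are all `0`. At a boundary point some `χ i > 0`, the cell `i` is a boundary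
cell, and `χ i > 0` on a small ball in `O`: there `bet = 0`, bet_eq_zero, dep_absurd with `spanning`. -/
theorem caseA_absurd [CompactSpace S] [T2Space S] [ConnectedSpace S] (H : Ctx M σ e G)
    (hm3 : 3 ≤ m) (hA : CaseA M e G) (hb : M.bdry.Nonempty) : False := by
  classical
  have hm2 : 2 ≤ m := by omega
  obtain ⟨p, hp⟩ := hb
  have hCp : IsCC M (connectedComponentIn M.bdry p) := ⟨p, hp, rfl⟩
  obtain ⟨n, c, χ, hP, hF⟩ := exists_fam
    (fun c : GCell M e G => ∃ C, IsCC M C ∧ (BCell C c ∨ (Reach C c ∧ 0 < c.c))) (fun x => by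
      by_cases hx : x ∈ M.bdry
      · have hC : IsCC M (connectedComponentIn M.bdry x) := ⟨x, hx, rfl⟩
        obtain ⟨c, h1, h2, h3⟩ := exists_bcell H hm2 hC (mem_connectedComponentIn hx)
        exact ⟨c, ⟨_, hC, Or.inl h1⟩, h2, h3⟩
      · obtain ⟨c, h1, h2, h3, h4⟩ := exists_icell H hCp hx
        exact ⟨c, ⟨_, hCp, Or.inr ⟨h1, h2⟩⟩, h3, h4⟩)
  have hreach : ∀ i, ∃ C, IsCC M C ∧ Reach C (c i) := by
    intro i
    obtain ⟨C, hC, h | h⟩ := hP i
    · exact ⟨C, hC, Reach.base h.base⟩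
    · exact ⟨C, hC, h.1⟩
  have hsum : ∀ κ : ℝ, 0 ≤ κ → κ < 1 → ∑ i, TT κ (c i) (χ i) = 0 := fun κ h0 h1 =>
    sum_TT H hm2 hA hF hreach h0 h1
  -- the boundary cells
  let Bd : Finset (Fin n) := Finset.univ.filter fun i => ∃ C, IsCC M C ∧ BCell C (c i)
  have hint : ∀ i ∉ Bd, ∀ κ : ℝ, 0 ≤ κ → κ < 1 → TT κ (c i) (χ i) ≤ 0 := by
    intro i hi κ h0 h1
    obtain ⟨C, hC, h | h⟩ := hP i
    · exact absurd (Finset.mem_filter.2 ⟨Finset.mem_univ _, C, hC, h⟩) hi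
    obtain ⟨a, b, c', d, g1, g2, g3, g4, g5, g6, -, g8⟩ := hF.supp i
    have g7 : (c i).c < c' := by
      rcases g6 with g6 | g6
      · exact g6
      · exact absurd g6.1 h.2.ne'
    exact TT_nonpos H hm2 hC h.1 h0 h1 (hF.nonneg i) (hF.smooth i _ (c i).hφ) g1 g2 g3 g4 g5 g7 g8
  have hone : ∀ i ∈ Bd, TT 1 (c i) (χ i) ≤ 0 ∧ (TT 1 (c i) (χ i) = 0 →
      ∀ z ∈ (c i).O, χ i ((c i).φ.map.symm z) ≠ 0 →
        bet G 1 ((c i).Y z) ((c i).E z) (Fv (c i).φ e 0 z) = 0) := by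
    intro i hi
    obtain ⟨C, hC, hB⟩ := (Finset.mem_filter.1 hi).2
    obtain ⟨a, b, c', d, g1, g2, g3, g4, g5, g6, -, g8⟩ := hF.supp i
    have hc0 : (c i).c = 0 := hB.base.1
    have hc' : 0 ≤ c' := by
      rcases g6 with g6 | g6
      · rw [hc0] at g6
        exact g6.le
      · exact g6.2.ge
    refine TT_one H hm2 hC hB (hF.nonneg i) (hF.smooth i _ (c i).hφ) g1 g2 g3
      (hc'.trans_lt g4) g5 fun x hx => ?_
    obtain ⟨k1, k2, k3, k4, k5⟩ := g8 x hx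
    exact ⟨k1, k2, k3, hc'.trans k4, k5⟩
  have hlim : Tendsto (fun κ => ∑ i ∈ Bd, TT κ (c i) (χ i)) (𝓝[<] 1)
      (𝓝 (∑ i ∈ Bd, TT 1 (c i) (χ i))) := by
    refine tendsto_finsetSum _ fun i hi => ?_
    obtain ⟨C, hC, hB⟩ := (Finset.mem_filter.1 hi).2
    exact TT_tendsto H hm2 hC hB (hF.smooth i _ (c i).hφ)
  have hge : 0 ≤ ∑ i ∈ Bd, TT 1 (c i) (χ i) := by
    refine ge_of_tendsto hlim ?_
    have hev : ∀ᶠ κ in 𝓝[<] (1 : ℝ), κ ∈ Ioo (0 : ℝ) 1 := Ioo_mem_nhdsLT zero_lt_one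
    filter_upwards [hev] with κ hκ
    have h1 := hsum κ hκ.1.le hκ.2
    rw [← Finset.sum_filter_add_sum_filter_not Finset.univ
      (fun i => ∃ C, IsCC M C ∧ BCell C (c i))] at h1
    have h2 : ∑ i with ¬ ∃ C, IsCC M C ∧ BCell C (c i), TT κ (c i) (χ i) ≤ 0 := by
      refine Finset.sum_nonpos fun i hi => hint i ?_ κ hκ.1.le hκ.2
      intro h3
      exact (Finset.mem_filter.1 hi).2 (Finset.mem_filter.1 h3).2
    linarith
  have hzero : ∀ i ∈ Bd, TT 1 (c i) (χ i) = 0 := by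
    have h1 : ∑ i ∈ Bd, TT 1 (c i) (χ i) = 0 :=
      le_antisymm (Finset.sum_nonpos fun i hi => (hone i hi).1) hge
    exact (Finset.sum_eq_zero_iff_of_nonpos fun i hi => (hone i hi).1).1 h1
  -- a boundary cell at `p`
  obtain ⟨i, hi⟩ : ∃ i, χ i p ≠ 0 := by
    by_contra hcon
    push Not at hcon
    have h1 := hF.sum p
    rw [Finset.sum_eq_zero fun i _ => hcon i] at h1
    exact zero_ne_one h1
  obtain ⟨a, b, c', d, g1, g2, g3, g4, g5, g6, -, g8⟩ := hF.supp i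
  obtain ⟨k1, k2, k3, k4, k5⟩ := g8 p hi
  have him : ((c i).φ.map p).im = 0 := by
    obtain ⟨φ, hφ, hs, h0⟩ := hp
    exact (M.bdry_iff φ hφ (c i).φ (c i).hφ p hs k1).1 h0
  rw [him] at k4 k5
  have hcc : (c i).c = 0 := by
    rcases g6 with g6 | g6
    · have := (c i).c_nonneg
      linarith
    · exact g6.1
  have hiB : i ∈ Bd := by
    obtain ⟨C, hC, h | h⟩ := hP i
    · exact Finset.mem_filter.2 ⟨Finset.mem_univ _, C, hC, h⟩
    · exact absurd hcc h.2.ne'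
  obtain ⟨C, hC, hB⟩ := (Finset.mem_filter.1 hiB).2
  have hR : Reach C (c i) := Reach.base hB.base
  -- a point of the cell where `χ i` does not vanish
  obtain ⟨z1, hz1, hne1⟩ : ∃ z1 ∈ (c i).O, loc (c i).φ (χ i) z1 ≠ 0 := by
    set z0 := (c i).φ.map p with hz0
    have hz0t : z0 ∈ (c i).φ.map.target := (c i).φ.map.map_source k1
    have h1 : loc (c i).φ (χ i) z0 ≠ 0 := by
      unfold loc
      rw [hz0, (c i).φ.map.left_inv k1]
      exact hi
    have h2 : ContinuousWithinAt (loc (c i).φ (χ i)) (c i).φ.map.target z0 :=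
      (hF.smooth i _ (c i).hφ).continuousOn z0 hz0t
    have h3 : ∀ᶠ w in 𝓝[(c i).φ.map.target] z0, loc (c i).φ (χ i) w ≠ 0 := h2.eventually_ne h1
    have h4 : Tendsto (fun t : ℝ => z0 + (t : ℂ) * Complex.I) (𝓝[>] 0)
        (𝓝[(c i).φ.map.target] z0) := by
      refine tendsto_nhdsWithin_iff.2 ⟨?_, ?_⟩
      · have h5 : Continuous fun t : ℝ => z0 + (t : ℂ) * Complex.I := by fun_prop
        have h6 := h5.tendsto 0
        simp only [Complex.ofReal_zero, zero_mul, add_zero] at h6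
        exact h6.mono_left nhdsWithin_le_nhds
      · have h5 : ∀ᶠ t in 𝓝[>] (0 : ℝ), t ∈ Ioo (0 : ℝ) (c i).d :=
          Ioo_mem_nhdsGT (k5.trans_lt g5)
        filter_upwards [h5] with t ht
        apply (c i).sub
        refine ⟨?_, ?_, ?_, ?_⟩
        · simp
          linarith
        · simp
          linarith
        · rw [hcc]
          simp [him, ht.1.le]
        · simp [him, ht.2.le]
    have h5 : ∀ᶠ t in 𝓝[>] (0 : ℝ), t ∈ Ioo (0 : ℝ) (c i).d :=
      Ioo_mem_nhdsGT (k5.trans_lt g5)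
    obtain ⟨t, ht1, ht2⟩ := ((h4.eventually h3).and h5).exists
    refine ⟨z0 + (t : ℂ) * Complex.I, ⟨?_, ?_, ?_, ?_⟩, ht1⟩
    · simp
      linarith
    · simp
      linarith
    · rw [hcc]
      simp [him, ht2.1]
    · simp [him, ht2.2]
  have hOo : IsOpen (c i).O := isOpen_RectI _ _ _ _
  obtain ⟨r, hr, hball⟩ : ∃ r > 0, ∀ z ∈ Metric.ball z1 r,
      z ∈ (c i).O ∧ loc (c i).φ (χ i) z ≠ 0 := by
    have h1 : ContinuousAt (loc (c i).φ (χ i)) z1 :=
      ((hF.smooth i _ (c i).hφ).continuousOn.mono ((RectI_sub _ _ _ _).trans (c i).sub)).continuousAt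
        (hOo.mem_nhds hz1)
    obtain ⟨r, hr, h2⟩ := Metric.eventually_nhds_iff_ball.1
      ((show ∀ᶠ z in 𝓝 z1, z ∈ (c i).O from hOo.mem_nhds hz1).and (h1.eventually_ne hne1))
    exact ⟨r, hr, h2⟩
  have hbO : Metric.ball z1 r ⊆ (c i).O := fun z hz => (hball z hz).1
  refine dep_absurd (z0 := z1) hm3 hr (Y := (c i).Y) (F := Fv (c i).φ e 0) (E := (c i).E)
    (fun z hz => ?_) ?_ (fun z' r' hr' hsub ξ hξ => ?_) (fun z hz => ?_)
  · have h1 := (c i).sol.dY z (RectI_sub _ _ _ _ (hbO hz))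
    exact h1.hasDerivAt (fin_K_nhds (c i) (hbO hz))
  · exact (nice_Fv H.mem (c i).hφ 0 (c i).sub).holo.mono hbO
  · exact spanning H hC.sub hR hr' (hsub.trans hbO) ξ hξ
  · refine bet_eq_zero (herm H) (cell_quad H hC hR (RectI_sub _ _ _ _ (hbO hz)))
      (hB.im z (RectI_sub _ _ _ _ (hbO hz)) ((c i).im_pos (hbO hz))) ?_
    exact (hone i hiB).2 (hzero i hiB) z (hbO hz) (hball z hz).2

end Stek.Ca
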