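import Pool.Agent.H.MP_fc2485_gt.Ca.Defs

/-!
Positivity of the numerator of the Laplacian (Gram determinants).
-/

set_option maxSynthPendingDepth 3

open Set Filter Topology InnerProductSpace
open scoped ContDiff

namespace Stek.Ca

open Stek Surface Sv GCell

variable {m : ℕ} {G : Bl m}

theorem Herm.star_val (H : Herm G) (v w : V m) : star (G v w) = G (star v) (star w) :=
  (H.real v w).symm

theorem Herm.diag (H : Herm G) (v : V m) : G (star v) v = (nn G v : ℂ) := by
  have h1 : star (G (star v) v) = G (star v) v := by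
    rw [H.star_val, star_star, H.symm]
  have h2 : ((G (star v) v).re : ℂ) = G (star v) v := Complex.conj_eq_iff_re.mp h1
  rw [nn, h2]

theorem Herm.nn_nonneg (H : Herm G) (v : V m) : 0 ≤ nn G v := by
  rcases eq_or_ne v 0 with h | h
  · rw [nn, h, map_zero]
    simp
  · exact (H.pd v h).le

theorem Herm.nn_pos (H : Herm G) {v : V m} (hv : v ≠ 0) : 0 < nn G v := H.pd v hv

theorem nn_star (H : Herm G) (v : V m) : nn G (star v) = nn G v := by
  rw [nn, nn, star_star, H.symm]

/-- expansion of the norm of a combination -/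
theorem Herm.expand (H : Herm G) (Y F : V m) (a b c : ℂ) :
    nn G (c • F + a • Y + b • star Y) = (‖c‖ ^ 2) * nn G F + ‖a‖ ^ 2 * nn G Y +
      ‖b‖ ^ 2 * nn G Y + 2 * (c * star a * G F (star Y)).re + 2 * (c * star b * G Y F).re +
      2 * (a * star b * G Y Y).re := by
  have e1 : G (star (c • F + a • Y + b • star Y)) (c • F + a • Y + b • star Y) =
      (star c * c) * G (star F) F + (star a * a) * G (star Y) Y + (star b * b) * G (star Y) Y +
      (c * star a * G F (star Y) + star (c * star a * G F (star Y))) +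
      (c * star b * G Y F + star (c * star b * G Y F)) +
      (a * star b * G Y Y + star (a * star b * G Y Y)) := by
    simp only [star_add, star_smul, star_star, map_add, map_smul, _root_.add_apply,
      _root_.smul_apply, smul_eq_mul, star_mul, H.star_val]
    rw [H.symm (star F) Y, H.symm Y (star Y), H.symm (star Y) F, H.symm (star Y) (star F)]
    rw [H.symm Y (star F)]
    ring
  have e2 : ∀ w : ℂ, w + star w = ((2 * w.re : ℝ) : ℂ) := by
    intro w
    apply Complex.ext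
    · simp
      ring
    · simp
  have e3 : ∀ w : ℂ, star w * w = ((‖w‖ ^ 2 : ℝ) : ℂ) := by
    intro w
    rw [mul_comm]
    have := Complex.mul_conj w
    rw [Complex.normSq_eq_norm_sq] at this
    exact this
  rw [e2, e2, e2, e3, e3, e3, H.diag, H.diag, H.diag] at e1
  exact_mod_cast e1

/-- Cauchy-Schwarz with the conjugate vector -/
theorem Herm.cs (H : Herm G) (Y : V m) : ‖G Y Y‖ ≤ nn G Y := by
  by_cases h : G Y Y = 0
  · rw [h, norm_zero]
    exact H.nn_nonneg Y
  -- take `b` with `b Y + conj Y`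
  have hpos : 0 < ‖G Y Y‖ := norm_pos_iff.mpr h
  have h1 := H.expand Y 0 (-(star (G Y Y)) / ‖G Y Y‖) 1 0
  have h2 := H.nn_nonneg ((0 : ℂ) • (0 : V m) + (-(star (G Y Y)) / ‖G Y Y‖ : ℂ) • Y +
    (1 : ℂ) • star Y)
  rw [h1] at h2
  have h3 : ‖(-(star (G Y Y)) / ‖G Y Y‖ : ℂ)‖ = 1 := by
    rw [norm_div, norm_neg, norm_star, Complex.norm_real, norm_norm, div_self hpos.ne']
  have h4 : ((-(star (G Y Y)) / ‖G Y Y‖ : ℂ) * star 1 * G Y Y).re = -‖G Y Y‖ := by
    have : (-(star (G Y Y)) / ‖G Y Y‖ : ℂ) * star 1 * G Y Y = ((-‖G Y Y‖ : ℝ) : ℂ) := by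
      have h5 : star (G Y Y) * G Y Y = ((‖G Y Y‖ ^ 2 : ℝ) : ℂ) := by
        rw [mul_comm]
        have := Complex.mul_conj (G Y Y)
        rw [Complex.normSq_eq_norm_sq] at this
        exact this
      have h6 : (‖G Y Y‖ : ℂ) ≠ 0 := by exact_mod_cast hpos.ne'
      rw [star_one, mul_one, neg_div, neg_mul, div_mul_eq_mul_div, h5]
      push_cast
      field_simp
    rw [this, Complex.ofReal_re]
  rw [h3, h4] at h2
  simp at h2
  linarith

/-- the case `κ = 0` -/
theorem bet_zero_nonneg (H : Herm G) (Y F : V m) :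
    ‖G F (star Y)‖ ^ 2 ≤ nn G Y * nn G F := by
  rcases eq_or_ne Y 0 with h | h
  · rw [h, star_zero, map_zero, norm_zero]
    have : nn G (0 : V m) = 0 := by simp [nn]
    rw [this]
    norm_num
  have hN := H.nn_pos h
  have h1 := H.expand Y F (-(G F (star Y))) 0 (nn G Y)
  have h2 := H.nn_nonneg (((nn G Y : ℝ) : ℂ) • F + (-(G F (star Y))) • Y + (0 : ℂ) • star Y)
  rw [h1] at h2
  have h4 : (((nn G Y : ℝ) : ℂ) * star (-(G F (star Y))) * G F (star Y)).re =
      -(nn G Y * ‖G F (star Y)‖ ^ 2) := by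
    have h5 : star (G F (star Y)) * G F (star Y) = ((‖G F (star Y)‖ ^ 2 : ℝ) : ℂ) := by
      rw [mul_comm]
      have := Complex.mul_conj (G F (star Y))
      rw [Complex.normSq_eq_norm_sq] at this
      exact this
    have h6 : ((nn G Y : ℝ) : ℂ) * star (-(G F (star Y))) * G F (star Y) =
        ((-(nn G Y * ‖G F (star Y)‖ ^ 2) : ℝ) : ℂ) := by
      rw [star_neg]
      push_cast
      have h7 : star (G F (star Y)) * G F (star Y) = (‖G F (star Y)‖ : ℂ) ^ 2 := by
        rw [h5]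
        push_cast
        rfl
      linear_combination -(nn G Y : ℂ) * h7
    rw [h6, Complex.ofReal_re]
  rw [h4, norm_neg] at h2
  simp only [Complex.norm_real, Real.norm_eq_abs, sq_abs, norm_zero] at h2
  simp at h2
  nlinarith

theorem bet_split (Y : V m) (E : ℂ) (F : V m) (κ : ℝ) : bet G κ Y E F =
    (1 - κ) * (nn G Y * (nn G Y * nn G F - ‖G F (star Y)‖ ^ 2)) + κ * bet G 1 Y E F := by
  unfold bet
  ring

/-- the norm of the component of `F` orthogonal to `Y` and its conjugate -/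
theorem bet_one (H : Herm G) {Y : V m} {E : ℂ} (hE : G Y Y = E ^ 2) (F : V m) :
    nn G (((nn G Y ^ 2 - ‖E‖ ^ 4 : ℝ) : ℂ) • F +
        (-(nn G Y * G F (star Y)) + star E ^ 2 * G Y F) • Y +
        (-(nn G Y * G Y F) + E ^ 2 * G F (star Y)) • star Y) =
      (nn G Y ^ 2 - ‖E‖ ^ 4) * bet G 1 Y E F := by
  rw [H.expand, hE]
  unfold bet
  generalize G F (star Y) = p
  generalize G Y F = q
  generalize nn G Y = N
  generalize nn G F = f
  have hn : ∀ w : ℂ, ‖w‖ ^ 2 = w.re ^ 2 + w.im ^ 2 := by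
    intro w
    rw [← Complex.normSq_eq_norm_sq, Complex.normSq_apply]
    ring
  have hE4 : ‖E‖ ^ 4 = (E.re ^ 2 + E.im ^ 2) ^ 2 := by
    rw [← hn]
    ring
  simp only [hn, hE4]
  simp only [Complex.star_def, Complex.add_re, Complex.add_im, Complex.mul_re, Complex.mul_im,
    Complex.neg_re, Complex.neg_im, Complex.ofReal_re, Complex.ofReal_im, Complex.conj_re,
    Complex.conj_im, pow_two, map_add, map_neg, map_mul]
  ring

theorem norm_E_le (H : Herm G) {Y : V m} {E : ℂ} (hE : G Y Y = E ^ 2) : ‖E‖ ^ 4 ≤ nn G Y ^ 2 := by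
  have h1 := H.cs Y
  rw [hE, norm_pow] at h1
  have h2 := pow_le_pow_left₀ (by positivity) h1 2
  calc ‖E‖ ^ 4 = (‖E‖ ^ 2) ^ 2 := by ring
    _ ≤ _ := h2

theorem bet_one_nonneg (H : Herm G) {Y : V m} {E : ℂ}
    (hE : G Y Y = E ^ 2) (F : V m) : 0 ≤ bet G 1 Y E F := by
  rcases (norm_E_le H hE).lt_or_eq with hs | hs
  · have h1 := bet_one H hE F
    have h2 := H.nn_nonneg (((nn G Y ^ 2 - ‖E‖ ^ 4 : ℝ) : ℂ) • F +
        (-(nn G Y * G F (star Y)) + star E ^ 2 * G Y F) • Y +
        (-(nn G Y * G Y F) + E ^ 2 * G F (star Y)) • star Y)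
    rw [h1] at h2
    exact (mul_nonneg_iff_of_pos_left (by linarith)).mp h2
  · -- the conjugate is a multiple of `Y`
    rcases eq_or_ne Y 0 with hY | hY
    · subst hY
      have e1 : nn G (0 : V m) = 0 := by simp [nn]
      have e2 : E = 0 := by
        rw [map_zero] at hE
        exact pow_eq_zero_iff (two_ne_zero) |>.mp hE.symm
      unfold bet
      rw [e1, e2]
      simp
    have hN := H.nn_pos hY
    have hNE : ‖G Y Y‖ = nn G Y := by
      have e1 : ‖G Y Y‖ ^ 2 = nn G Y ^ 2 := by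
        rw [← hs, hE, norm_pow]
        ring
      exact (pow_left_inj₀ (norm_nonneg _) hN.le two_ne_zero).mp e1
    obtain ⟨b, hb⟩ : ∃ b : ℂ, star Y = b • Y := by
      have hpos : 0 < ‖G Y Y‖ := by rw [hNE]; exact hN
      have h1 := H.expand Y 0 (-(star (G Y Y)) / ‖G Y Y‖) 1 0
      have h3 : ‖(-(star (G Y Y)) / ‖G Y Y‖ : ℂ)‖ = 1 := by
        rw [norm_div, norm_neg, norm_star, Complex.norm_real, norm_norm, div_self hpos.ne']
      have h4 : ((-(star (G Y Y)) / ‖G Y Y‖ : ℂ) * star 1 * G Y Y).re = -‖G Y Y‖ := by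
        have : (-(star (G Y Y)) / ‖G Y Y‖ : ℂ) * star 1 * G Y Y = ((-‖G Y Y‖ : ℝ) : ℂ) := by
          have h5 : star (G Y Y) * G Y Y = ((‖G Y Y‖ ^ 2 : ℝ) : ℂ) := by
            rw [mul_comm]
            have := Complex.mul_conj (G Y Y)
            rw [Complex.normSq_eq_norm_sq] at this
            exact this
          have h6 : (‖G Y Y‖ : ℂ) ≠ 0 := by exact_mod_cast hpos.ne'
          rw [star_one, mul_one, neg_div, neg_mul, div_mul_eq_mul_div, h5]
          push_cast
          field_simp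
        rw [this, Complex.ofReal_re]
      rw [h3, h4, hNE] at h1
      have h5 : nn G ((0 : ℂ) • (0 : V m) + (-(star (G Y Y)) / nn G Y : ℂ) • Y +
          (1 : ℂ) • star Y) = 0 := by
        rw [h1]
        simp
        ring
      have h6 : (0 : ℂ) • (0 : V m) + (-(star (G Y Y)) / nn G Y : ℂ) • Y + (1 : ℂ) • star Y = 0 := by
        by_contra hne
        exact (H.nn_pos hne).ne' h5
      rw [zero_smul, zero_add, one_smul] at h6
      refine ⟨-(-(star (G Y Y)) / nn G Y : ℂ), ?_⟩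
      rw [neg_smul]
      exact eq_neg_of_add_eq_zero_right h6
    have e1 : G F (star Y) = b * G Y F := by
      rw [hb, map_smul, smul_eq_mul, H.symm]
    have e2 : E ^ 2 * b = nn G Y := by
      rw [← hE, ← H.diag, H.symm (star Y) Y, hb, map_smul, smul_eq_mul]
      ring
    have hbn : ‖b‖ = 1 := by
      have e3 := congrArg norm e2
      rw [norm_mul, norm_pow] at e3
      have e4 : ‖E‖ ^ 2 = nn G Y := by
        rw [← norm_pow, ← hE, hNE]
      rw [e4, Complex.norm_real, Real.norm_eq_abs, abs_of_pos hN] at e3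
      exact mul_left_cancel₀ hN.ne' (by rw [e3, mul_one])
    have e5 : (E ^ 2 * star (G Y F) * G F (star Y)).re = nn G Y * ‖G Y F‖ ^ 2 := by
      have e6 : E ^ 2 * star (G Y F) * G F (star Y) = ((nn G Y * ‖G Y F‖ ^ 2 : ℝ) : ℂ) := by
        have h5 : star (G Y F) * G Y F = ((‖G Y F‖ ^ 2 : ℝ) : ℂ) := by
          rw [mul_comm]
          have := Complex.mul_conj (G Y F)
          rw [Complex.normSq_eq_norm_sq] at this
          exact this
        rw [e1]
        push_cast at h5 ⊢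
        rw [← h5, ← e2]
        ring
      rw [e6, Complex.ofReal_re]
    unfold bet
    rw [e5, e1, norm_mul, hbn, one_mul, hs]
    apply le_of_eq
    ring

theorem bet_nonneg (H : Herm G) {κ : ℝ} (h0 : 0 ≤ κ) (h1 : κ ≤ 1) {Y : V m} {E : ℂ}
    (hE : G Y Y = E ^ 2) (F : V m) : 0 ≤ bet G κ Y E F := by
  rw [bet_split]
  have e1 := bet_one_nonneg H hE F
  have e2 := bet_zero_nonneg H Y F
  have e3 := H.nn_nonneg Y
  have e4 : 0 ≤ nn G Y * (nn G Y * nn G F - ‖G F (star Y)‖ ^ 2) :=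
    mul_nonneg e3 (by linarith)
  have e5 : 0 ≤ (1 - κ) * (nn G Y * (nn G Y * nn G F - ‖G F (star Y)‖ ^ 2)) :=
    mul_nonneg (by linarith) e4
  have e6 : 0 ≤ κ * bet G 1 Y E F := mul_nonneg h0 e1
  linarith

theorem bet_eq_zero (H : Herm G) {Y : V m} {E : ℂ} (hE : G Y Y = E ^ 2)
    (hs : ‖E‖ ^ 4 < nn G Y ^ 2) {F : V m} (hb : bet G 1 Y E F = 0) :
    ∃ α β : ℂ, F = α • Y + β • star Y := by
  have h1 := bet_one H hE F
  rw [hb, mul_zero] at h1
  have h2 : ((nn G Y ^ 2 - ‖E‖ ^ 4 : ℝ) : ℂ) • F +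
        (-(nn G Y * G F (star Y)) + star E ^ 2 * G Y F) • Y +
        (-(nn G Y * G Y F) + E ^ 2 * G F (star Y)) • star Y = 0 := by
    by_contra hne
    exact (H.nn_pos hne).ne' h1
  have hs' : ((nn G Y ^ 2 - ‖E‖ ^ 4 : ℝ) : ℂ) ≠ 0 := by
    have : nn G Y ^ 2 - ‖E‖ ^ 4 ≠ 0 := by linarith
    exact_mod_cast this
  set s : ℂ := ((nn G Y ^ 2 - ‖E‖ ^ 4 : ℝ) : ℂ) with hsdef
  set a := -(nn G Y * G F (star Y)) + star E ^ 2 * G Y F with ha
  set b := -(nn G Y * G Y F) + E ^ 2 * G F (star Y) with hb'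
  refine ⟨-(s⁻¹ * a), -(s⁻¹ * b), ?_⟩
  have h3 : s • F = -(a • Y) - b • star Y := by
    have : s • F + a • Y + b • star Y - (a • Y + b • star Y) = 0 - (a • Y + b • star Y) := by
      rw [h2]
    calc s • F = s • F + a • Y + b • star Y - (a • Y + b • star Y) := by abel
      _ = _ := by
        rw [this]
        abel
  calc F = s⁻¹ • (s • F) := by rw [smul_smul, inv_mul_cancel₀ hs', one_smul]
    _ = _ := by
      rw [h3, smul_sub, smul_neg, smul_smul, smul_smul, neg_smul, neg_smul]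
      abel

end Stek.Ca
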