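import Pool.Agent.H.MP_fc2485_gt.Ca.Calc

/-!
Smoothness of the complex gradient `gg` (composition of smooth functions: `Y`, `E`, `F` are
holomorphic on the open set, `star` is real linear, `Real.sqrt` is smooth at positive arguments, the
denominator does not vanish).
-/

set_option maxSynthPendingDepth 3

open Set Filter Topology InnerProductSpace
open scoped ContDiff

namespace Stek.Ca

open Stek Surface Sv GCell

private theorem sm_bl {m : ℕ} {G : Bl m} {U : Set ℂ} {v w : ℂ → V m} (hv : ContDiffOn ℝ 1 v U)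
    (hw : ContDiffOn ℝ 1 w U) : ContDiffOn ℝ 1 (fun z => G (v z) (w z)) U :=
  (G.isBoundedBilinearMap.contDiff.restrict_scalars ℝ).comp_contDiffOn (hv.prodMk hw)

private theorem sm_star {U : Set ℂ} {h : ℂ → ℂ} (hh : ContDiffOn ℝ 1 h U) :
    ContDiffOn ℝ 1 (fun z => star (h z)) U :=
  (Complex.conjCLE : ℂ →L[ℝ] ℂ).contDiff.comp_contDiffOn hh

private theorem sm_starV {m : ℕ} {U : Set ℂ} {v : ℂ → V m} (hv : ContDiffOn ℝ 1 v U) :
    ContDiffOn ℝ 1 (fun z => star (v z)) U := by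
  rw [contDiffOn_pi]
  intro j
  rw [contDiffOn_pi] at hv
  exact sm_star (hv j)

private theorem sm_real {U : Set ℂ} {h : ℂ → ℝ} (hh : ContDiffOn ℝ 1 h U) :
    ContDiffOn ℝ 1 (fun z => ((h z : ℝ) : ℂ)) U :=
  Complex.ofRealCLM.contDiff.comp_contDiffOn hh

private theorem sm_re {U : Set ℂ} {h : ℂ → ℂ} (hh : ContDiffOn ℝ 1 h U) :
    ContDiffOn ℝ 1 (fun z => (h z).re) U :=
  Complex.reCLM.contDiff.comp_contDiffOn hh

private theorem sm_holo {X : Type*} [NormedAddCommGroup X] [NormedSpace ℂ X] [CompleteSpace X]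
    {U : Set ℂ} (hU : IsOpen U) {h : ℂ → X} (hh : DifferentiableOn ℂ h U) :
    ContDiffOn ℝ 1 h U :=
  (hh.contDiffOn hU).restrict_scalars ℝ

private theorem sm_den {m : ℕ} {G : Bl m} {κ : ℝ} {Y : V m} {E : ℂ} (hN : 0 < nn G Y)
    (hs : 0 < nn G Y ^ 2 - κ * ‖E‖ ^ 4) : 0 < ss G κ Y E * (nn G Y + ss G κ Y E) := by
  have h1 : 0 < ss G κ Y E := Real.sqrt_pos.2 hs
  positivity

theorem contDiffOn_gg {m : ℕ} {G : Bl m} {κ : ℝ} {U : Set ℂ} (hU : IsOpen U)
    {Y F : ℂ → V m} {E : ℂ → ℂ} (hY : DifferentiableOn ℂ Y U) (hE : DifferentiableOn ℂ E U)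
    (hF : DifferentiableOn ℂ F U) (hN : ∀ z ∈ U, 0 < nn G (Y z))
    (hs : ∀ z ∈ U, 0 < nn G (Y z) ^ 2 - κ * ‖E z‖ ^ 4) :
    ContDiffOn ℝ 1 (fun z => gg G κ (Y z) (E z) (F z)) U := by
  have hY' := sm_holo hU hY
  have hE' := sm_holo hU hE
  have hF' := sm_holo hU hF
  have hn : ContDiffOn ℝ 1 (fun z => nn G (Y z)) U := sm_re (sm_bl (sm_starV hY') hY')
  have he2 : ContDiffOn ℝ 1 (fun z => ‖E z‖ ^ 2) U := hE'.norm_sq ℂ
  have he4 : ContDiffOn ℝ 1 (fun z => ‖E z‖ ^ 4) U := by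
    have h1 := he2.pow 2
    refine h1.congr fun z _ => ?_
    ring
  have hss : ContDiffOn ℝ 1 (fun z => ss G κ (Y z) (E z)) U := by
    unfold ss
    exact ((hn.pow 2).sub (contDiffOn_const.mul he4)).sqrt fun z hz => (hs z hz).ne'
  have hden : ContDiffOn ℝ 1
      (fun z => ((ss G κ (Y z) (E z) * (nn G (Y z) + ss G κ (Y z) (E z)) : ℝ) : ℂ)) U :=
    sm_real (hss.mul (hn.add hss))
  have hnum : ContDiffOn ℝ 1 (fun z => E z * G (F z) (star (Y z)) *
      (ss G κ (Y z) (E z) + nn G (Y z) : ℝ) -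
      (κ * ‖E z‖ ^ 2 : ℝ) * (star (E z) * G (Y z) (F z))) U :=
    ((hE'.mul (sm_bl hF' (sm_starV hY'))).mul (sm_real (hss.add hn))).sub
      ((sm_real (contDiffOn_const.mul he2)).mul ((sm_star hE').mul (sm_bl hY' hF')))
  have hinv := hden.inv fun z hz => by
    have := sm_den (hN z hz) (hs z hz)
    exact_mod_cast this.ne'
  refine (hnum.mul hinv).congr fun z _ => ?_
  rw [gg, div_eq_mul_inv]
  rfl

theorem continuousOn_gg {m : ℕ} {G : Bl m} {κ : ℝ} {K : Set ℂ}
    {Y F : ℂ → V m} {E : ℂ → ℂ} (hY : ContinuousOn Y K) (hE : ContinuousOn E K)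
    (hF : ContinuousOn F K) (hN : ∀ z ∈ K, 0 < nn G (Y z))
    (hs : ∀ z ∈ K, 0 < nn G (Y z) ^ 2 - κ * ‖E z‖ ^ 4) :
    ContinuousOn (fun z => gg G κ (Y z) (E z) (F z)) K := by
  have hbl : ∀ {v w : ℂ → V m}, ContinuousOn v K → ContinuousOn w K →
      ContinuousOn (fun z => G (v z) (w z)) K := fun {v w} hv hw =>
    (G.continuous.comp_continuousOn hv).clm_apply hw
  have hYs : ContinuousOn (fun z => star (Y z)) K := continuous_star.comp_continuousOn hY
  have hn : ContinuousOn (fun z => nn G (Y z)) K :=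
    Complex.continuous_re.comp_continuousOn (hbl hYs hY)
  have hss : ContinuousOn (fun z => ss G κ (Y z) (E z)) K := by
    unfold ss
    exact ((hn.pow 2).sub (continuousOn_const.mul (hE.norm.pow 4))).sqrt
  unfold gg
  refine ContinuousOn.div ?_ ?_ fun z hz => ?_
  · exact ((hE.mul (hbl hF hYs)).mul (Complex.continuous_ofReal.comp_continuousOn
      (hss.add hn))).sub ((Complex.continuous_ofReal.comp_continuousOn
      (continuousOn_const.mul (hE.norm.pow 2))).mul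
      ((continuous_star.comp_continuousOn hE).mul (hbl hY hF)))
  · exact Complex.continuous_ofReal.comp_continuousOn (hss.mul (hn.add hss))
  · have := sm_den (hN z hz) (hs z hz)
    exact_mod_cast this.ne'

end Stek.Ca
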