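import Pool.Agent.H.MP_fc2485_gt.Ca.Basic
import Pool.Agent.H.MP_fc2485_gt.Ca.Conf
import Pool.Agent.H.MP_fc2485_gt.Ca.Pou

/-!
The sum of the Dirichlet pairings of a partition of unity with the potential is zero.
-/

set_option maxSynthPendingDepth 3

open Set Filter Topology InnerProductSpace MeasureTheory
open scoped ContDiff

namespace Stek.Ca

open Stek Surface Sv GCell

variable {S : Type*} [TopologicalSpace S] {M : Surface S} {σ : ℝ} {m : ℕ} {e : Fin m → S → ℝ}
  {G : Bl m}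

/-- the Dirichlet pairing of the function `χ` on `S` with the potential, over a cell -/
noncomputable def TT (κ : ℝ) (c : GCell M e G) (χ : S → ℝ) : ℝ :=
  ∫ z in c.O, pr (fderiv ℝ (loc c.φ χ) z) (gC κ c z)

theorem pr_zero (g : ℂ) : pr 0 g = 0 := by
  simp [pr]

theorem pr_sum {ι : Type*} (s : Finset ι) (A : ι → ℂ →L[ℝ] ℝ) (g : ℂ) :
    pr (∑ i ∈ s, A i) g = ∑ i ∈ s, pr (A i) g := by
  classical
  induction s using Finset.induction_on with
  | empty => simp [pr]
  | insert a s ha ih =>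
    rw [Finset.sum_insert ha, Finset.sum_insert ha, ← ih]
    simp only [pr, add_apply]
    ring

theorem cell_isOpen (c : GCell M e G) : IsOpen c.O := isOpen_RectI _ _ _ _

theorem cell_O_sub (c : GCell M e G) : c.O ⊆ c.K := RectI_sub _ _ _ _

theorem cell_target_nhds (c : GCell M e G) {z : ℂ} (hz : z ∈ c.O) : c.φ.map.target ∈ 𝓝 z :=
  dom_nhds c.φ (c.sub (cell_O_sub c hz)) (c.im_pos hz)

/-- on the open rectangle the derivative of a function which is smooth in the chart -/
theorem cell_diff (c : GCell M e G) {χ : S → ℝ}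
    (hs : ContDiffOn ℝ 1 (loc c.φ χ) c.φ.map.target) {z : ℂ} (hz : z ∈ c.O) :
    DifferentiableAt ℝ (loc c.φ χ) z :=
  (hs.contDiffAt (cell_target_nhds c hz)).differentiableAt (by simp)

/-- continuity of the pairing up to the closed rectangle -/
theorem pr_cont {c : GCell M e G} {g : ℂ → ℂ} (hg : ContinuousOn g c.K) {χ : S → ℝ}
    (hs : ContDiffOn ℝ 1 (loc c.φ χ) c.φ.map.target) :
    ContinuousOn (fun z => pr (fderivWithin ℝ (loc c.φ χ) c.φ.map.target z) (g z)) c.K := by
  have h1 : ContinuousOn (fun z => fderivWithin ℝ (loc c.φ χ) c.φ.map.target z) c.K :=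
    (hs.continuousOn_fderivWithin (uniqueDiffOn c.φ) (by simp)).mono c.sub
  unfold pr
  have h2 : ∀ v : ℂ, ContinuousOn
      (fun z => fderivWithin ℝ (loc c.φ χ) c.φ.map.target z v) c.K := fun v =>
    h1.clm_apply continuousOn_const
  have h3 : ContinuousOn (fun z => (g z).re) c.K :=
    Complex.continuous_re.comp_continuousOn hg
  have h4 : ContinuousOn (fun z => (g z).im) c.K :=
    Complex.continuous_im.comp_continuousOn hg
  exact ((h2 1).mul h3).sub ((h2 Complex.I).mul h4)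

theorem pr_congr (c : GCell M e G) (g : ℂ → ℂ) (χ : S → ℝ) {z : ℂ} (hz : z ∈ c.O) :
    pr (fderiv ℝ (loc c.φ χ) z) (g z) =
      pr (fderivWithin ℝ (loc c.φ χ) c.φ.map.target z) (g z) := by
  rw [fderivWithin_of_mem_nhds (cell_target_nhds c hz)]

/-- integrability of the pairing -/
theorem pr_int {c : GCell M e G} {g : ℂ → ℂ} (hg : ContinuousOn g c.K) {χ : S → ℝ}
    (hs : ContDiffOn ℝ 1 (loc c.φ χ) c.φ.map.target) {f : ℂ → ℝ} (hf : ContinuousOn f c.K) :
    IntegrableOn (fun z => f z * pr (fderiv ℝ (loc c.φ χ) z) (g z)) c.O := by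
  have h1 : IntegrableOn
      (fun z => f z * pr (fderivWithin ℝ (loc c.φ χ) c.φ.map.target z) (g z)) c.K :=
    (hf.mul (pr_cont hg hs)).integrableOn_compact (isCompact_Rect _ _ _ _)
  have h2 := h1.mono_set (cell_O_sub c)
  refine h2.congr_fun ?_ (cell_isOpen c).measurableSet
  intro z hz
  simp only
  rw [pr_congr c g χ hz]

/-- points of the interior of the surface in the closed set of a member of the family -/
theorem fam_mem (c : GCell M e G) {x : S} {a b c' d : ℝ} (hi : 0 < (c.φ.map x).im)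
    (h1 : c.a < a) (h2 : b < c.b) (h3 : d < c.d) (h4 : c.c < c' ∨ (c.c = 0 ∧ c' = 0))
    (hx : c.φ.map x ∈ Rect a b c' d) : c.φ.map x ∈ c.O := by
  obtain ⟨k1, k2, k3, k4⟩ := hx
  refine ⟨by linarith, by linarith, ?_, by linarith⟩
  rcases h4 with h4 | ⟨h4, h5⟩
  · linarith
  · rw [h4]
    exact hi

theorem sum_cell_pos (c : GCell M e G) {z : ℂ} (hz : z ∈ c.O) {ψ : Chart S}
    (hψ : ψ ∈ M.charts) (hs : c.φ.map.symm z ∈ ψ.map.source) :
    0 < (ψ.map (c.φ.map.symm z)).im :=
  trans_pos c.hφ hψ (c.sub (cell_O_sub c hz)) (c.im_pos hz) hs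

/-- the change of variables in one term -/
theorem sum_term [ConnectedSpace S] (H : Ctx M σ e G) (hA : CaseA M e G) {n : ℕ}
    {c : Fin n → GCell M e G} {χ : Fin n → S → ℝ} (hF : Fam c χ)
    (hc : ∀ i, ∃ C, IsCC M C ∧ Reach C (c i)) (κ : ℝ) (i j : Fin n) :
    ∫ z in (c i).O, loc (c i).φ (χ j) z *
        pr (fderiv ℝ (loc (c i).φ (χ i)) z) (gC κ (c i) z) =
      ∫ z in (c j).O, loc (c j).φ (χ j) z *
        pr (fderiv ℝ (loc (c j).φ (χ i)) z) (gC κ (c j) z) := by
  obtain ⟨C, hC, hRi⟩ := hc i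
  obtain ⟨C', hC', hRj⟩ := hc j
  set φ := (c i).φ with hφdef
  set ψ := (c j).φ with hψdef
  set f : ℂ → ℝ := fun z => loc φ (χ j) z * pr (fderiv ℝ (loc φ (χ i)) z) (gC κ (c i) z) with hf
  set f' : ℂ → ℝ := fun z => loc ψ (χ j) z * pr (fderiv ℝ (loc ψ (χ i)) z) (gC κ (c j) z)
    with hf'
  have key := chg (c i).hφ (c j).hφ (cell_isOpen (c i)) (cell_isOpen (c j))
    (fun z hz => ⟨(c i).sub (cell_O_sub _ hz), (c i).im_pos hz⟩)
    (fun z hz => ⟨(c j).sub (cell_O_sub _ hz), (c j).im_pos hz⟩) (f := f) (f' := f') ?_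
  · have e1 : ∫ z in (c i).O, f z =
        ∫ z in {z | z ∈ (c i).O ∧ (c i).φ.map.symm z ∈ (c j).φ.map.source ∧
          (c j).φ.map ((c i).φ.map.symm z) ∈ (c j).O}, f z := by
      apply setIntegral_eq_of_subset_of_forall_sdiff_eq_zero (cell_isOpen _).measurableSet
      · intro z hz
        exact hz.1
      · rintro z ⟨hz, hz2⟩
        have h0 : χ j (φ.map.symm z) = 0 := by
          by_contra hne
          obtain ⟨a, b, c', d, h1, -, h2, -, h3, h4, -, h5⟩ := hF.supp j
          obtain ⟨h6, h7⟩ := h5 _ hne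
          exact hz2 ⟨hz, h6, fam_mem (c j) (sum_cell_pos (c i) hz (c j).hφ h6) h1 h2 h3 h4 h7⟩
        simp only [hf, loc, h0, zero_mul]
    have e2 : ∫ z in (c j).O, f' z =
        ∫ w in {w | w ∈ (c j).O ∧ (c j).φ.map.symm w ∈ (c i).φ.map.source ∧
          (c i).φ.map ((c j).φ.map.symm w) ∈ (c i).O}, f' w := by
      apply setIntegral_eq_of_subset_of_forall_sdiff_eq_zero (cell_isOpen _).measurableSet
      · intro z hz
        exact hz.1
      · rintro w ⟨hw, hw2⟩
        obtain ⟨a, b, c', d, h1, -, h2, -, h3, h4, h4c, h5⟩ := hF.supp i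
        have h6 : ψ.map.symm w ∉ {x | x ∈ (c i).φ.map.source ∧
            (c i).φ.map x ∈ Rect a b c' d} := by
          rintro ⟨h6, h7⟩
          exact hw2 ⟨hw, h6, fam_mem (c i) (sum_cell_pos (c j) hw (c i).hφ h6) h1 h2 h3 h4 h7⟩
        have h7 : ContinuousAt ψ.map.symm w :=
          trans_symm_cont ((c j).sub (cell_O_sub _ hw)) ((c j).im_pos hw)
        have h8 : ∀ᶠ v in 𝓝 w, ψ.map.symm v ∈ {x | x ∈ (c i).φ.map.source ∧
            (c i).φ.map x ∈ Rect a b c' d}ᶜ :=
          h7.eventually_mem (h4c.isOpen_compl.mem_nhds h6)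
        have h9 : loc ψ (χ i) =ᶠ[𝓝 w] fun _ => 0 := by
          filter_upwards [h8] with v hv
          by_contra hne
          exact hv (h5 _ hne)
        have h10 : fderiv ℝ (loc ψ (χ i)) w = 0 := by
          rw [h9.fderiv_eq]
          simp
        simp only [hf', h10, pr_zero, mul_zero]
    rw [e1, e2]
    exact key
  · intro z hz hs hz'
    have hzt : z ∈ (c i).φ.map.target := (c i).sub (cell_O_sub _ hz)
    have hzi := (c i).im_pos hz
    obtain ⟨k, hk, hiso⟩ := trans_isom (c i).hφ (c j).hφ hzt hzi hs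
    set T : ℂ → ℂ := fun z => (c j).φ.map ((c i).φ.map.symm z) with hT
    have hk1 : ‖fderiv ℝ T z 1‖ = k := by
      rw [hiso]
      simp
    rw [hk1]
    have hTd : DifferentiableAt ℝ T z :=
      (trans_contDiffAt (c i).hφ (c j).hφ hzt hzi hs).differentiableAt (by simp)
    have hd : DifferentiableAt ℝ (loc ψ (χ i)) (T z) :=
      cell_diff (c j) (hF.smooth i _ (c j).hφ) hz'
    have heq : loc φ (χ i) =ᶠ[𝓝 z] fun w => loc ψ (χ i) (T w) := by
      filter_upwards [trans_nhds hzt hzi hs] with w hw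
      unfold loc
      simp only [hT]
      rw [← hφdef, ← hψdef, ψ.map.left_inv hw.2.2]
    have hcomp : fderiv ℝ (loc φ (χ i)) z = (fderiv ℝ (loc ψ (χ i)) (T z)).comp (fderiv ℝ T z) := by
      rw [heq.fderiv_eq]
      exact fderiv_comp z hd hTd
    have hval : loc ψ (χ j) (T z) = loc φ (χ j) z := by
      unfold loc
      simp only [hT]
      rw [← hφdef, ← hψdef, ψ.map.left_inv hs]
    have hpr := conf_pr hk hiso (fderiv ℝ (loc ψ (χ i)) (T z))
      (fun v => cov H hA hC hC' hRi hRj κ hz hs hz' v)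
    simp only [hf, hf']
    rw [hcomp, hpr, hval]
    ring

/-- Proof. `TT κ (c i) (χ i) = ∑_j ∫_{O_i} χ_j pr(dχ_i) g_i` (all integrands are bounded and
continuous on `O_i`, because `χ` is C¹ on the target, `gC` is continuous on the compact `K`).
By `chg`, conf_pr, cov, `∫_{O_i} χ_j pr(dχ_i) g_i = ∫_{O_j} χ_j pr(dχ_i) g_j`: the integrand on the left
vanishes at the points of `O_i` whose image is not in `O_j` (`χ_j = 0` there by `supp`; an
interior point with `φ_j x ∈ Rect a b c' d` is in `O_j`), the integrand on the right at the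
points of `O_j` whose image is not in `O_i` (`χ_i = 0` in a neighbourhood, by `supp` with `IsClosed`).
And `∑_i ∫_{O_j} χ_j pr(dχ_i) g_j = 0` because `∑_i dχ_i = 0`. -/
theorem sum_TT [ConnectedSpace S] (H : Ctx M σ e G) (hm2 : 2 ≤ m) (hA : CaseA M e G) {n : ℕ}
    {c : Fin n → GCell M e G} {χ : Fin n → S → ℝ} (hF : Fam c χ)
    (hc : ∀ i, ∃ C, IsCC M C ∧ Reach C (c i)) {κ : ℝ} (h0 : 0 ≤ κ) (h1 : κ < 1) :
    ∑ i, TT κ (c i) (χ i) = 0 := by
  have hg : ∀ i, ContinuousOn (gC κ (c i)) (c i).K := by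
    intro i
    obtain ⟨C, hC, hR⟩ := hc i
    exact gC_cont H hm2 hC hR h0 h1
  have hcont : ∀ i j, ContinuousOn (loc (c i).φ (χ j)) (c i).K := fun i j =>
    (hF.smooth j _ (c i).hφ).continuousOn.mono (c i).sub
  have hI : ∀ i j k, IntegrableOn (fun z => loc (c i).φ (χ j) z *
      pr (fderiv ℝ (loc (c i).φ (χ k)) z) (gC κ (c i) z)) (c i).O := fun i j k =>
    pr_int (hg i) (hF.smooth k _ (c i).hφ) (hcont i j)
  have e1 : ∀ i, TT κ (c i) (χ i) = ∑ j, ∫ z in (c i).O, loc (c i).φ (χ j) z *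
      pr (fderiv ℝ (loc (c i).φ (χ i)) z) (gC κ (c i) z) := by
    intro i
    rw [← integral_finsetSum _ fun j _ => hI i j i]
    unfold TT
    congr 1
    funext z
    rw [← Finset.sum_mul]
    have : ∑ j, loc (c i).φ (χ j) z = 1 := hF.sum _
    rw [this, one_mul]
  have e2 : ∀ j, ∑ i, ∫ z in (c j).O, loc (c j).φ (χ j) z *
      pr (fderiv ℝ (loc (c j).φ (χ i)) z) (gC κ (c j) z) = 0 := by
    intro j
    rw [← integral_finsetSum _ fun i _ => hI j j i]
    apply setIntegral_eq_zero_of_forall_eq_zero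
    intro z hz
    rw [← Finset.mul_sum, ← pr_sum, ← fderiv_fun_sum fun i _ =>
      cell_diff (c j) (hF.smooth i _ (c j).hφ) hz]
    have : (fun z => ∑ i, loc (c j).φ (χ i) z) = fun _ => (1 : ℝ) := by
      funext z
      exact hF.sum _
    rw [this]
    simp [pr]
  calc ∑ i, TT κ (c i) (χ i) = ∑ i, ∑ j, ∫ z in (c i).O, loc (c i).φ (χ j) z *
        pr (fderiv ℝ (loc (c i).φ (χ i)) z) (gC κ (c i) z) := Finset.sum_congr rfl fun i _ => e1 i
    _ = ∑ i, ∑ j, ∫ z in (c j).O, loc (c j).φ (χ j) z *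
        pr (fderiv ℝ (loc (c j).φ (χ i)) z) (gC κ (c j) z) :=
        Finset.sum_congr rfl fun i _ => Finset.sum_congr rfl fun j _ =>
          sum_term H hA hF hc κ i j
    _ = ∑ j, ∑ i, ∫ z in (c j).O, loc (c j).φ (χ j) z *
        pr (fderiv ℝ (loc (c j).φ (χ i)) z) (gC κ (c j) z) := Finset.sum_comm
    _ = 0 := Finset.sum_eq_zero fun j _ => e2 j

end Stek.Ca
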